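import Mathlib
import Pool.Agent.TH881.RG.StD
import Pool.Agent.TH698.J1510

/-!
# Job 2025 (RG-BD2, requested by helper881): second bilinear estimate for differences

Adapted by helper828 from `Pool/Agent/TH698/J1510.lean`.
-/

set_option autoImplicit false

namespace Pool.Agent.TH828.RGBD2

open Finset Filter Topology
open Pool.Agent.TH881
open Pool.Agent.TH881.RG
open Pool.Agent.H373R2.T7
open Pool.Agent.TH698.RGE (cls_sub split cls_sub_It card_cls_le alg small_mass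
  eef_le_one sum_units large)

/-- the bad part for one `n` -/
lemma bad_one2 (w N n : ℕ) (B : Finset ℕ) (hB : ∀ b ∈ B, n < b ∧ b ≤ N) :
    ∑ b ∈ B, (if ¬ (b - n).Coprime (Wp w) then ArithmeticFunction.vonMangoldt (b - n) else 0) ≤
      (w * Nat.log 2 N : ℝ) * Real.log w := by
  classical
  refine le_trans ?_ (small_mass w N)
  rw [← sum_filter]
  have hinj : Set.InjOn (fun b => b - n)
      ((B.filter (fun b => ¬ (b - n).Coprime (Wp w)) : Finset ℕ) : Set ℕ) := by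
    intro a ha b hb hab
    rw [Finset.mem_coe, mem_filter] at ha hb
    have h1 := hB a ha.1
    have h2 := hB b hb.1
    simp only at hab
    omega
  rw [← sum_image (f := fun k => ArithmeticFunction.vonMangoldt k) hinj]
  apply sum_le_sum_of_subset_of_nonneg
  · intro k hk
    rw [mem_image] at hk
    obtain ⟨b, hb, rfl⟩ := hk
    rw [mem_filter] at hb
    have h1 := hB b hb.1
    rw [mem_filter, mem_Icc]
    exact ⟨⟨by omega, by omega⟩, hb.2⟩
  · intro _ _ _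
    exact ArithmeticFunction.vonMangoldt_nonneg

/-- the conclusion of the mixing lemma for one window -/
def MixAt2 (w N M M' H : ℕ) (κ ε₁ : ℝ) : Prop :=
  ∀ t : ℕ, M' < t → t ≤ M' + Wp w → ∀ B : Finset ℕ, (∀ b ∈ B, M' + H < b ∧ b ≤ M) →
    (∀ b ∈ B, b.Prime) → (∀ b ∈ B, √(N : ℝ) < b) → (∀ b ∈ B, ∀ b' ∈ B, b ≡ b' [MOD Wp w]) →
    (∀ b ∈ B, (b + Wp w * t - t).Coprime (Wp w)) →
    κ * ((M : ℝ) / (Nat.totient (Wp w) * Real.log M)) ≤ B.card →
    ∀ E ⊆ It w M' H t,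
      |∑ n ∈ E, ∑ b ∈ B, ArithmeticFunction.vonMangoldt (b - n) - E.card * ((Vz w)⁻¹ * B.card)| ≤
        ε₁ * (((H : ℝ) / Wp w) * ((Vz w)⁻¹ * B.card))

/-- one pair of classes, many primes -/
lemma pair_good2 {w N M M' H : ℕ} {κ ε₁ : ℝ} (hε : 0 < ε₁) (hmix : MixAt2 w N M M' H κ ε₁)
    (hH : 0 < (H : ℝ) / Wp w) (hH1 : 1 ≤ ε₁ * ((H : ℝ) / Wp w)) (hp : 0 < pp w M)
    {E : Finset ℕ} (hE : E ⊆ Ioc M' (M' + H)) {B : Finset ℕ}
    (hB : ∀ b ∈ B, b.Prime ∧ √(N : ℝ) < b ∧ M' + H < b ∧ b ≤ M) {a t : ZMod (Wp w)}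
    (hBa : ∀ b ∈ B, (b : ZMod (Wp w)) = a) (hta : IsUnit (t - a))
    (h1 : κ * pp w M ≤ B.card) (h2 : (B.card : ℝ) ≤ 2 * pp w M) :
    |∑ n ∈ cls w E t, ∑ b ∈ B, ArithmeticFunction.vonMangoldt (b - n) -
      YY w M H * ((B.card : ℝ) / pp w M * eef w H E t)| ≤ 4 * ε₁ * YY w M H := by
  obtain ⟨t', ht1, ht2, ht3⟩ := exists_rep w M' t
  have hm := hmix t' ht1 ht2 B (fun b hb => (hB b hb).2.2) (fun b hb => (hB b hb).1)
    (fun b hb => (hB b hb).2.1)
    (fun b hb b' hb' => by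
      rw [← ZMod.natCast_eq_natCast_iff, hBa b hb, hBa b' hb'])
    (fun b hb => by
      have hW := Wp_pos w
      have hle : t' ≤ b + Wp w * t' := (Nat.le_mul_of_pos_left t' hW).trans (Nat.le_add_left _ _)
      rw [← ZMod.isUnit_iff_coprime, Nat.cast_sub hle]
      push_cast
      rw [ht3, hBa b hb]
      have e : a + ((Wp w : ℕ) : ZMod (Wp w)) * t - t = -(t - a) := by
        rw [ZMod.natCast_self]; ring
      rw [e]
      exact hta.neg) h1 (cls w E t) (cls_sub_It hE ht3)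
  exact alg (Nat.cast_nonneg _) (card_cls_le hE t) (Nat.cast_nonneg _) h2
    (inv_pos.2 (Vz_pos w)) hp hε hH hH1 rfl hm

lemma dsum_mono {B B' : Finset ℕ} (h : B ⊆ B') (n : ℕ) :
    ∑ b ∈ B, ArithmeticFunction.vonMangoldt (b - n) ≤
      ∑ b ∈ B', ArithmeticFunction.vonMangoldt (b - n) :=
  sum_le_sum_of_subset_of_nonneg h fun _ _ _ => ArithmeticFunction.vonMangoldt_nonneg

/-- the primes in the class `a` in `(max (√N) X, M]` -/
noncomputable def PP (w N X M : ℕ) (a : ZMod (Wp w)) : Finset ℕ :=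
  cls w ((Icc 1 M).filter (fun p : ℕ => p.Prime ∧ √(N : ℝ) < p ∧ X < p)) a

lemma mem_PP {w N X M : ℕ} {a : ZMod (Wp w)} {b : ℕ} :
    b ∈ PP w N X M a ↔ (b.Prime ∧ √(N : ℝ) < b ∧ X < b ∧ b ≤ M) ∧ (b : ZMod (Wp w)) = a := by
  unfold PP
  rw [mem_cls, mem_filter, mem_Icc]
  constructor
  · rintro ⟨⟨⟨_, h1⟩, h2, h3, h4⟩, h5⟩
    exact ⟨⟨h2, h3, h4, h1⟩, h5⟩
  · rintro ⟨⟨h1, h2, h3, h4⟩, h5⟩
    exact ⟨⟨⟨h1.one_lt.le, h4⟩, h1, h2, h3⟩, h5⟩

/-- one pair of classes -/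
lemma pair_all2 {w N M M' H : ℕ} {κ ε₁ : ℝ} (hκ : 0 < κ) (hκ1 : κ ≤ 1 / 4) (hε : 0 < ε₁)
    (hmix : MixAt2 w N M M' H κ ε₁)
    (hH : 0 < (H : ℝ) / Wp w) (hH1 : 1 ≤ ε₁ * ((H : ℝ) / Wp w)) (hp : 0 < pp w M)
    (hp1 : 1 ≤ κ * pp w M)
    {E : Finset ℕ} (hE : E ⊆ Ioc M' (M' + H)) {B : Finset ℕ}
    (hB : ∀ b ∈ B, b.Prime ∧ √(N : ℝ) < b ∧ M' + H < b ∧ b ≤ M) {a t : ZMod (Wp w)}
    (hta : IsUnit (t - a))
    (hP1 : 2 * κ * pp w M ≤ (PP w N (M' + H) M a).card)
    (hP2 : ((PP w N (M' + H) M a).card : ℝ) ≤ 2 * pp w M) :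
    |∑ n ∈ cls w E t, ∑ b ∈ cls w B a, ArithmeticFunction.vonMangoldt (b - n) -
      YY w M H * (bbf w M B a * eef w H E t)| ≤ (2 * κ + 4 * ε₁) * YY w M H := by
  classical
  have hY : 0 < YY w M H := by
    unfold YY
    have := inv_pos.2 (Vz_pos w)
    positivity
  have he0 := eef_nonneg w H E t
  have he1 := eef_le_one hE t
  set P := PP w N (M' + H) M a with hP
  have hPmem : ∀ b ∈ P, b.Prime ∧ √(N : ℝ) < b ∧ M' + H < b ∧ b ≤ M := fun b hb => (mem_PP.1 hb).1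
  have hPa : ∀ b ∈ P, (b : ZMod (Wp w)) = a := fun b hb => (mem_PP.1 hb).2
  have hBP : cls w B a ⊆ P := by
    intro b hb
    rw [mem_cls] at hb
    exact mem_PP.2 ⟨hB b hb.1, hb.2⟩
  have hBmem : ∀ b ∈ cls w B a, b.Prime ∧ √(N : ℝ) < b ∧ M' + H < b ∧ b ≤ M :=
    fun b hb => hPmem b (hBP hb)
  have hBa : ∀ b ∈ cls w B a, (b : ZMod (Wp w)) = a := fun b hb => hPa b (hBP hb)
  have hb2 : ((cls w B a).card : ℝ) ≤ 2 * pp w M :=
    le_trans (by exact_mod_cast card_le_card hBP) hP2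
  rcases le_or_gt (κ * pp w M) ((cls w B a).card : ℝ) with hcase | hcase
  · refine (pair_good2 hε hmix hH hH1 hp hE hBmem hBa hta hcase hb2).trans ?_
    apply mul_le_mul_of_nonneg_right _ hY.le
    linarith
  · -- enlarge
    have hc1 : (cls w B a).card ≤ ⌈κ * pp w M⌉₊ := by
      have : ((cls w B a).card : ℝ) ≤ (⌈κ * pp w M⌉₊ : ℝ) := hcase.le.trans (Nat.le_ceil _)
      exact_mod_cast this
    have hc2 : (⌈κ * pp w M⌉₊ : ℝ) ≤ 2 * (κ * pp w M) := by
      have := Nat.ceil_lt_add_one (show 0 ≤ κ * pp w M by positivity)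
      linarith
    have hc3 : ⌈κ * pp w M⌉₊ ≤ P.card := by
      have h1 : (⌈κ * pp w M⌉₊ : ℝ) ≤ P.card := by
        refine hc2.trans (le_trans ?_ hP1)
        linarith
      exact_mod_cast h1
    obtain ⟨B', hB1, hB2, hB3⟩ := Finset.exists_subsuperset_card_eq hBP hc1 hc3
    have hB'2 : (B'.card : ℝ) ≤ 2 * (κ * pp w M) := by rw [hB3]; exact hc2
    have hg := pair_good2 hε hmix hH hH1 hp hE (B := B') (a := a) (t := t)
      (fun b hb => hPmem b (hB2 hb)) (fun b hb => hPa b (hB2 hb)) hta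
      (by rw [hB3]; exact Nat.le_ceil _) (hB'2.trans (by nlinarith))
    rw [abs_le] at hg
    set S' := ∑ n ∈ cls w E t, ∑ b ∈ B', ArithmeticFunction.vonMangoldt (b - n) with hS'
    set S := ∑ n ∈ cls w E t, ∑ b ∈ cls w B a, ArithmeticFunction.vonMangoldt (b - n) with hS
    have hS0 : 0 ≤ S := sum_nonneg fun n _ => sum_nonneg fun b _ =>
      ArithmeticFunction.vonMangoldt_nonneg
    have hSS : S ≤ S' := sum_le_sum fun n _ => dsum_mono hB1 n
    have hq : (B'.card : ℝ) / pp w M * eef w H E t ≤ 2 * κ := by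
      have h1 : (B'.card : ℝ) / pp w M ≤ 2 * κ := by
        rw [div_le_iff₀ hp]
        linarith
      calc (B'.card : ℝ) / pp w M * eef w H E t ≤ 2 * κ * 1 :=
            mul_le_mul h1 he1 he0 (by positivity)
        _ = 2 * κ := mul_one _
    have hm1 : YY w M H * ((B'.card : ℝ) / pp w M * eef w H E t) ≤ 2 * κ * YY w M H := by
      rw [mul_comm]
      exact mul_le_mul_of_nonneg_right hq hY.le
    have hbb : bbf w M B a ≤ κ := by
      unfold bbf
      rw [div_le_iff₀ hp]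
      exact hcase.le
    have hbb0 : 0 ≤ bbf w M B a := by
      unfold bbf
      positivity
    have hm2 : YY w M H * (bbf w M B a * eef w H E t) ≤ κ * YY w M H := by
      rw [mul_comm]
      apply mul_le_mul_of_nonneg_right _ hY.le
      calc bbf w M B a * eef w H E t ≤ κ * 1 := mul_le_mul hbb he1 he0 hκ.le
        _ = κ := mul_one _
    have hm3 : 0 ≤ YY w M H * (bbf w M B a * eef w H E t) := by positivity
    have hκY : 0 ≤ κ * YY w M H := by positivity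
    have hεY : 0 ≤ ε₁ * YY w M H := by positivity
    rw [abs_le]
    constructor
    · linarith
    · linarith [hg.2]

/-- `x / log x` at two places -/
lemma quot_log {x y ρ L : ℝ} (hρ : 0 < ρ) (hρ1 : ρ ≤ 1) (hy : 1 < y) (hx : ρ * y ≤ x)
    (hx1 : 1 < x) (hxy : x ≤ (1 - ρ) * y) (hL : L = |Real.log ρ|) (hlog : 2 * L ≤ ρ * Real.log y) :
    x / Real.log x ≤ (1 - ρ / 2) * (y / Real.log y) := by
  have hL0 : 0 ≤ L := by rw [hL]; exact abs_nonneg _
  have hly : 0 < Real.log y := Real.log_pos hy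
  have hlx : 0 < Real.log x := Real.log_pos hx1
  have h1 : Real.log y - L ≤ Real.log x := by
    have h2 := Real.log_le_log (by positivity) hx
    rw [Real.log_mul hρ.ne' (by positivity)] at h2
    have h3 := neg_abs_le (Real.log ρ)
    rw [← hL] at h3
    linarith
  rw [← mul_div_assoc, div_le_div_iff₀ hlx hly]
  -- x log y ≤ (1-ρ/2) y log x
  have h4 : x * Real.log y ≤ (1 - ρ) * y * Real.log y := mul_le_mul_of_nonneg_right hxy hly.le
  have h5 : (1 - ρ / 2) * y * (Real.log y - L) ≤ (1 - ρ / 2) * y * Real.log x :=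
    mul_le_mul_of_nonneg_left h1 (by nlinarith)
  have h6 : (1 - ρ) * y * Real.log y ≤ (1 - ρ / 2) * y * (Real.log y - L) := by
    have h7 : (1 - ρ / 2) * L ≤ ρ / 2 * Real.log y := by nlinarith
    nlinarith
  linarith

/-- the number of primes of a class in `(max (√N) X, M]` -/
lemma PP_card {w N X M : ℕ} {a : ZMod (Wp w)} {ρ τ : ℝ} (hρ : 0 < ρ)
    (hτ : τ ≤ ρ / 8) (hτ2 : τ ≤ 1 / 2) (hτ0 : 0 ≤ τ) (hXM : X ≤ M)
    (hpX : 0 < pp w X) (hp : 0 < pp w M)
    (h1 : |bbf w M ((Icc 1 M).filter (fun p : ℕ => p.Prime ∧ √(N : ℝ) < p)) a - 1| ≤ τ)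
    (h2 : |bbf w X ((Icc 1 X).filter (fun p : ℕ => p.Prime ∧ √(N : ℝ) < p)) a - 1| ≤ τ)
    (h3 : pp w X ≤ (1 - ρ / 2) * pp w M) :
    ρ / 4 * pp w M ≤ (PP w N X M a).card ∧ ((PP w N X M a).card : ℝ) ≤ 2 * pp w M := by
  classical
  set PM := cls w ((Icc 1 M).filter (fun p : ℕ => p.Prime ∧ √(N : ℝ) < p)) a with hPM
  set PX := cls w ((Icc 1 X).filter (fun p : ℕ => p.Prime ∧ √(N : ℝ) < p)) a with hPX
  have h1' : |(PM.card : ℝ) / pp w M - 1| ≤ τ := h1
  have h2' : |(PX.card : ℝ) / pp w X - 1| ≤ τ := h2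
  rw [abs_le] at h1' h2'
  have k1 : (1 - τ) * pp w M ≤ PM.card := by
    have : 1 - τ ≤ (PM.card : ℝ) / pp w M := by linarith [h1'.1]
    rwa [le_div_iff₀ hp] at this
  have k2 : (PM.card : ℝ) ≤ (1 + τ) * pp w M := by
    have : (PM.card : ℝ) / pp w M ≤ 1 + τ := by linarith [h1'.2]
    rwa [div_le_iff₀ hp] at this
  have k3 : (PX.card : ℝ) ≤ (1 + τ) * pp w X := by
    have : (PX.card : ℝ) / pp w X ≤ 1 + τ := by linarith [h2'.2]
    rwa [div_le_iff₀ hpX] at this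
  have hsub : PM ⊆ PP w N X M a ∪ PX := by
    intro b hb
    rw [hPM, mem_cls, mem_filter, mem_Icc] at hb
    obtain ⟨⟨⟨a1, a2⟩, a3, a4⟩, a5⟩ := hb
    rw [mem_union]
    rcases le_or_gt b X with h | h
    · right
      rw [hPX, mem_cls, mem_filter, mem_Icc]
      exact ⟨⟨⟨a1, h⟩, a3, a4⟩, a5⟩
    · left
      rw [mem_PP]
      exact ⟨⟨a3, a4, h, a2⟩, a5⟩
  have hsub2 : PP w N X M a ⊆ PM := by
    intro b hb
    rw [mem_PP] at hb
    obtain ⟨⟨a1, a2, a3, a4⟩, a5⟩ := hb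
    rw [hPM, mem_cls, mem_filter, mem_Icc]
    exact ⟨⟨⟨a1.one_lt.le, a4⟩, a1, a2⟩, a5⟩
  have k4 : (PM.card : ℝ) ≤ (PP w N X M a).card + PX.card := by
    exact_mod_cast (card_le_card hsub).trans (card_union_le _ _)
  have k5 : ((PP w N X M a).card : ℝ) ≤ PM.card := by exact_mod_cast card_le_card hsub2
  have k6 : (1 + τ) * pp w X ≤ (1 + τ) * ((1 - ρ / 2) * pp w M) :=
    mul_le_mul_of_nonneg_left h3 (by linarith)
  constructor
  · have k7 : ρ / 4 * pp w M ≤ ((1 - τ) - (1 + τ) * (1 - ρ / 2)) * pp w M := by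
      apply mul_le_mul_of_nonneg_right _ hp.le
      nlinarith
    nlinarith
  · nlinarith

lemma pp_quot {w X M : ℕ} {ρ : ℝ} (h : (X : ℝ) / Real.log X ≤ (1 - ρ / 2) * (M / Real.log M)) :
    pp w X ≤ (1 - ρ / 2) * pp w M := by
  have hφ := totient_Wp_pos w
  unfold pp
  have e1 : (X : ℝ) / (Nat.totient (Wp w) * Real.log X) =
      (X / Real.log X) / Nat.totient (Wp w) := by
    rw [div_div, mul_comm]
  have e2 : (M : ℝ) / (Nat.totient (Wp w) * Real.log M) =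
      (M / Real.log M) / Nat.totient (Wp w) := by
    rw [div_div, mul_comm]
  rw [e1, e2, ← mul_div_assoc]
  exact div_le_div_of_nonneg_right h hφ.le

theorem bilinearD2 (hPC : StPC) : StBD2 := by
  classical
  intro ε ρ0 hε hρ0
  obtain ⟨ρ, hρd⟩ : ∃ ρ : ℝ, ρ = min ρ0 1 := ⟨_, rfl⟩
  have hρ : 0 < ρ := by rw [hρd]; positivity
  have hρ1 : ρ ≤ 1 := by rw [hρd]; exact min_le_right _ _
  have hρρ : ρ ≤ ρ0 := by rw [hρd]; exact min_le_left _ _
  obtain ⟨κ, hκd⟩ : ∃ κ : ℝ, κ = min (1 / 4) (min (ε / 16) (ρ / 8)) := ⟨_, rfl⟩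
  have hκ : 0 < κ := by rw [hκd]; positivity
  have hκ1 : κ ≤ 1 / 4 := by rw [hκd]; exact min_le_left _ _
  have hκ2 : κ ≤ ε / 16 := by rw [hκd]; exact (min_le_right _ _).trans (min_le_left _ _)
  have hκ3 : κ ≤ ρ / 8 := by rw [hκd]; exact (min_le_right _ _).trans (min_le_right _ _)
  obtain ⟨τ, hτd⟩ : ∃ τ : ℝ, τ = min (1 / 2) (ρ / 8) := ⟨_, rfl⟩
  have hτ0 : 0 < τ := by rw [hτd]; positivity
  have hτ1 : τ ≤ 1 / 2 := by rw [hτd]; exact min_le_left _ _
  have hτ2 : τ ≤ ρ / 8 := by rw [hτd]; exact min_le_right _ _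
  obtain ⟨w0, hw0⟩ := mixD2 stPM κ κ ρ hκ (by linarith) hκ (by linarith) hρ
  refine ⟨w0, fun w hw => ?_⟩
  obtain ⟨N1, hN1⟩ := hw0 w hw
  obtain ⟨N2, hN2⟩ := hPC w τ ρ hτ0 hρ
  have hWr : (0 : ℝ) < Wp w := by exact_mod_cast Wp_pos w
  have hφ := totient_Wp_pos w
  obtain ⟨N3, hN3⟩ := large w (Wp w) (Nat.totient (Wp w)) κ κ (ρ / 2) (ε / 2) hWr hφ hκ hκ
    (by positivity) (by positivity)
  obtain ⟨L, hL⟩ : ∃ L : ℝ, L = |Real.log ρ| := ⟨_, rfl⟩
  obtain ⟨N4, hN4⟩ := exists_nat_ge (max ((w : ℝ) ^ 2) (max (2 / ρ) (Real.exp (2 * L / ρ) / ρ)))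
  refine ⟨max N1 (max N2 (max N3 N4)), fun N hN M M' H hMN hH0 hM0' E hE B hB => ?_⟩
  simp only [max_le_iff] at hN
  obtain ⟨hNa, hNb, hNc, hNd⟩ := hN
  have hN4' : max ((w : ℝ) ^ 2) (max (2 / ρ) (Real.exp (2 * L / ρ) / ρ)) ≤ N :=
    hN4.trans (by exact_mod_cast hNd)
  simp only [max_le_iff] at hN4'
  obtain ⟨n1, n2, n3⟩ := hN4'
  have hNnn : (0 : ℝ) ≤ N := Nat.cast_nonneg N
  have hρN : ρ * N ≤ ρ0 * N := mul_le_mul_of_nonneg_right hρρ hNnn
  have hH : ρ * N ≤ H := hρN.trans hH0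
  have hM : ρ * N ≤ (M : ℝ) - M' - H - 1 := hρN.trans hM0'
  have hMNr : (M : ℝ) ≤ N := by exact_mod_cast hMN
  have n2' : 2 ≤ ρ * N := by
    rw [div_le_iff₀ hρ] at n2; linarith
  have n3' : Real.exp (2 * L / ρ) ≤ ρ * N := by
    rw [div_le_iff₀ hρ] at n3; linarith
  obtain ⟨X, hX⟩ : ∃ X : ℕ, X = M' + H := ⟨_, rfl⟩
  have hXr : (X : ℝ) = M' + H := by rw [hX]; push_cast; ring
  have hM'0 : (0 : ℝ) ≤ M' := Nat.cast_nonneg _
  have hXM' : (X : ℝ) + ρ * N ≤ M := by rw [hXr]; linarith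
  have hXM : X ≤ M := by
    have : (X : ℝ) ≤ M := by nlinarith
    exact_mod_cast this
  have hρX : ρ * N ≤ X := by rw [hXr]; linarith
  have hρM : ρ * N ≤ M := by
    have : (0 : ℝ) ≤ X := Nat.cast_nonneg _
    linarith
  have hHM : H ≤ N := by omega
  obtain ⟨l1, l2, l3, l4, l5, _, l7⟩ := hN3 (2 * N) (by omega) M H (by omega)
    (by push_cast; linarith) (by push_cast; linarith)
  have l6 : (w : ℝ) ≤ √(N : ℝ) := Real.le_sqrt_of_sq_le n1
  have hmix : MixAt2 w N M M' H κ κ := fun t h1 h2 B' a1 a2 a3 a4 a5 a6 E' a7 =>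
    hN1 N hNa M M' H t h1 h2 hMN hH hM B' a1 a2 a3 a4 a5 a6 E' a7
  have hp : 0 < pp w M := l3
  have hX2 : 2 ≤ X := by
    have : (2 : ℝ) ≤ X := n2'.trans hρX
    exact_mod_cast this
  have hpX : 0 < pp w X := pp_pos w X hX2
  have hquot : pp w X ≤ (1 - ρ / 2) * pp w M := by
    refine pp_quot (quot_log hρ hρ1 (by linarith) ?_ (by linarith) ?_ hL ?_)
    · nlinarith
    · nlinarith
    · have h1 : 2 * L / ρ ≤ Real.log M := by
        rw [← Real.log_exp (2 * L / ρ)]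
        exact Real.log_le_log (Real.exp_pos _) (n3'.trans hρM)
      rw [div_le_iff₀ hρ] at h1
      linarith
  have hPcard : ∀ a : ZMod (Wp w), IsUnit a → ρ / 4 * pp w M ≤ (PP w N (M' + H) M a).card ∧
      ((PP w N (M' + H) M a).card : ℝ) ≤ 2 * pp w M := by
    intro a ha
    rw [← hX]
    exact PP_card hρ hτ2 hτ1 hτ0.le hXM hpX hp (hN2 N hNb M hMN hρM a ha)
      (hN2 N hNb X (hXM.trans hMN) hρX a ha) hquot
  have hY : 0 < YY w M H := by
    unfold YY
    have := inv_pos.2 (Vz_pos w)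
    positivity
  -- primes of `B` are units
  have hBu : ∀ b ∈ B, IsUnit (b : ZMod (Wp w)) := by
    intro b hb
    obtain ⟨h1, h2, _⟩ := hB b hb
    rw [ZMod.isUnit_iff_coprime, Nat.Prime.coprime_iff_not_dvd h1, prime_dvd_Wp h1]
    intro h3
    have h4 : (b : ℝ) ≤ w := by exact_mod_cast h3
    linarith
  have hEN : ∀ n ∈ E, M' < n ∧ n ≤ M' + H := fun n hn => mem_Ioc.1 (hE hn)
  have hlt : ∀ n ∈ E, ∀ b ∈ B, n < b ∧ b ≤ N := fun n hn b hb =>
    ⟨lt_of_le_of_lt (hEN n hn).2 (hB b hb).2.2.1, (hB b hb).2.2.2.trans hMN⟩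
  -- the sum over the pairs of classes
  set T : ZMod (Wp w) → ZMod (Wp w) → ℝ := fun a t =>
    ∑ n ∈ cls w E t, ∑ b ∈ cls w B a, ArithmeticFunction.vonMangoldt (b - n) with hT
  have hS : ∑ n ∈ E, ∑ b ∈ B, ArithmeticFunction.vonMangoldt (b - n) =
      ∑ a ∈ UU w, ∑ t : ZMod (Wp w), T a t := by
    rw [split w E B hBu]
  have hmain : YY w M H * ∑ a ∈ UU w, bbf w M B a * rr w (eef w H E) a =
      ∑ a ∈ UU w, ∑ t : ZMod (Wp w), (if IsUnit (t - a) then
        YY w M H * (bbf w M B a * eef w H E t) else 0) := by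
    rw [mul_sum]
    refine sum_congr rfl fun a _ => ?_
    unfold rr
    rw [mul_sum, mul_sum]
    refine sum_congr rfl fun t _ => ?_
    by_cases h : IsUnit (t - a)
    · rw [if_pos h, if_pos h]
    · rw [if_neg h, if_neg h, mul_zero, mul_zero]
  have hT0 : ∀ a t, 0 ≤ T a t := fun a t =>
    sum_nonneg fun n _ => sum_nonneg fun b _ => ArithmeticFunction.vonMangoldt_nonneg
  -- the pairs with `t - a` not a unit
  have hbad : ∑ a ∈ UU w, ∑ t : ZMod (Wp w), (if IsUnit (t - a) then 0 else T a t) ≤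
      (H : ℝ) * ((w * Nat.log 2 (2 * N) : ℝ) * Real.log w) := by
    have h1 : ∑ a ∈ UU w, ∑ t : ZMod (Wp w), (if IsUnit (t - a) then 0 else T a t) =
        ∑ n ∈ E, ∑ b ∈ B, (if ¬ (b - n).Coprime (Wp w) then
          ArithmeticFunction.vonMangoldt (b - n) else 0) := by
      rw [split w E B hBu]
      refine sum_congr rfl fun a _ => sum_congr rfl fun t _ => ?_
      have hiff : ∀ n ∈ cls w E t, ∀ b ∈ cls w B a, ((b - n).Coprime (Wp w) ↔ IsUnit (t - a)) := by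
        intro n hn b hb
        rw [mem_cls] at hn hb
        have := hlt n hn.1 b hb.1
        rw [← ZMod.isUnit_iff_coprime, Nat.cast_sub this.1.le, hn.2, hb.2, ← neg_sub,
          IsUnit.neg_iff]
      by_cases h : IsUnit (t - a)
      · rw [if_pos h]
        symm
        refine sum_eq_zero fun n hn => sum_eq_zero fun b hb => ?_
        rw [if_neg]
        intro h3
        exact h3 ((hiff n hn b hb).2 h)
      · rw [if_neg h, hT]
        refine sum_congr rfl fun n hn => ?_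
        refine sum_congr rfl fun b hb => ?_
        have h2 : ¬ (b - n).Coprime (Wp w) := fun h3 => h ((hiff n hn b hb).1 h3)
        rw [if_pos h2]
    rw [h1]
    have h5 := Real.log_natCast_nonneg w
    calc _ ≤ ∑ _n ∈ E, (w * Nat.log 2 N : ℝ) * Real.log w :=
          sum_le_sum fun n hn => bad_one2 w N n B (fun b hb => hlt n hn b hb)
      _ = E.card * ((w * Nat.log 2 N : ℝ) * Real.log w) := by rw [sum_const, nsmul_eq_mul]
      _ ≤ E.card * ((w * Nat.log 2 (2 * N) : ℝ) * Real.log w) := by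
          have h6 : (Nat.log 2 N : ℝ) ≤ Nat.log 2 (2 * N) := by
            exact_mod_cast Nat.log_mono_right (by omega)
          have h7 : (w : ℝ) * Nat.log 2 N ≤ w * Nat.log 2 (2 * N) :=
            mul_le_mul_of_nonneg_left h6 (Nat.cast_nonneg _)
          exact mul_le_mul_of_nonneg_left (mul_le_mul_of_nonneg_right h7 h5) (Nat.cast_nonneg _)
      _ ≤ _ := by
          have hcard : E.card ≤ H := by
            have := card_le_card hE
            rw [Nat.card_Ioc] at this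
            omega
          apply mul_le_mul_of_nonneg_right _ (by positivity)
          exact_mod_cast hcard
  -- `YY φ² = H M / log M`
  have hYφ : YY w M H * (Nat.totient (Wp w) : ℝ) ^ 2 = H * ((M : ℝ) / Real.log M) := by
    unfold YY pp
    have hV := Vz_pos w
    have hlog : Real.log (M : ℝ) ≠ 0 := by
      intro h0
      rw [h0, div_zero] at l7
      exact lt_irrefl _ l7
    rw [totient_Wp w]
    field_simp
  rw [hS, hmain, ← sum_sub_distrib]
  calc |∑ a ∈ UU w, (∑ t : ZMod (Wp w), T a t - ∑ t : ZMod (Wp w), (if IsUnit (t - a) then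
        YY w M H * (bbf w M B a * eef w H E t) else 0))|
      ≤ ∑ a ∈ UU w, ∑ t : ZMod (Wp w), ((if IsUnit (t - a) then (ε / 2) * YY w M H else 0) +
          (if IsUnit (t - a) then 0 else T a t)) := by
        refine (abs_sum_le_sum_abs _ _).trans (sum_le_sum fun a ha => ?_)
        rw [← sum_sub_distrib]
        refine (abs_sum_le_sum_abs _ _).trans (sum_le_sum fun t _ => ?_)
        by_cases h : IsUnit (t - a)
        · rw [if_pos h, if_pos h, if_pos h, add_zero]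
          obtain ⟨c1, c2⟩ := hPcard a (mem_UU.1 ha)
          have c1' : 2 * κ * pp w M ≤ (PP w N (M' + H) M a).card := by
            refine le_trans ?_ c1
            exact mul_le_mul_of_nonneg_right (by linarith) hp.le
          refine (pair_all2 hκ hκ1 hκ hmix l1 l2 hp l4 hE hB h c1' c2).trans ?_
          apply mul_le_mul_of_nonneg_right _ hY.le
          linarith
        · rw [if_neg h, if_neg h, if_neg h, zero_add, sub_zero, abs_of_nonneg (hT0 a t)]
    _ = ∑ a ∈ UU w, ∑ t : ZMod (Wp w), (if IsUnit (t - a) then (ε / 2) * YY w M H else 0) +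
          ∑ a ∈ UU w, ∑ t : ZMod (Wp w), (if IsUnit (t - a) then 0 else T a t) := by
        rw [← sum_add_distrib]
        exact sum_congr rfl fun a _ => sum_add_distrib
    _ ≤ (ε / 2) * (YY w M H * (Nat.totient (Wp w) : ℝ) ^ 2) +
          (ε / 2) * (YY w M H * (Nat.totient (Wp w) : ℝ) ^ 2) := by
        refine add_le_add (le_of_eq ?_) (hbad.trans ?_)
        · rw [sum_congr rfl fun a _ => sum_units w a ((ε / 2) * YY w M H), sum_const, nsmul_eq_mul,
            card_UU]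
          ring
        · rw [hYφ]
          calc (H : ℝ) * ((w * Nat.log 2 (2 * N) : ℝ) * Real.log w)
              ≤ H * (ε / 2 * (M / Real.log M)) :=
                mul_le_mul_of_nonneg_left l5 (Nat.cast_nonneg _)
            _ = _ := by ring
    _ = ε * (YY w M H * (Nat.totient (Wp w) : ℝ) ^ 2) := by ring

end Pool.Agent.TH828.RGBD2
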