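import Mathlib
import Pool.Agent.TH202.FlRes
import Pool.Agent.TH202.Cen

set_option autoImplicit false
namespace Pool.Agent.TH828.FL_RA
open Pool.Agent.H436R3.Fol Pool.Agent.TH202 MvPolynomial

/-- Roots of nonzero polynomials with algebraic coefficients are algebraic. -/
theorem alg_of_root {κ : Type} [Field κ] (A : Subring κ) (p : Polynomial κ) (hp : p ≠ 0)
    (hc : ∀ i, IsAlgebraic A (p.coeff i)) {x : κ} (hx : p.eval x = 0) : IsAlgebraic A x := by
  set C := Subalgebra.algebraicClosure A κ with hC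
  have hmem : ∀ i, p.coeff i ∈ C := fun i => hc i
  have hs : (p.coeffs : Set κ) ⊆ C.toSubring := by
    intro x hx
    rw [Finset.mem_coe, Polynomial.mem_coeffs_iff] at hx
    obtain ⟨i, _, rfl⟩ := hx
    exact hmem i
  have h1 : (p.toSubring C.toSubring hs).map (algebraMap C.toSubring κ) = p := by
    ext i
    rw [Polynomial.coeff_map]
    exact Polynomial.coeff_toSubring _ _ _
  have h2 : IsAlgebraic C x := by
    refine ⟨p.toSubring C.toSubring hs, ?_, ?_⟩
    · intro h0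
      apply hp
      rw [← h1]
      have : p.toSubring C.toSubring hs = 0 := h0
      rw [this, Polynomial.map_zero]
    · change Polynomial.aeval x (p.toSubring C.toSubring hs) = 0
      rw [Polynomial.aeval_def, ← Polynomial.eval_map, h1]
      exact hx
  have : Algebra.IsAlgebraic A C := ⟨fun y => by
    have hy : IsAlgebraic A (y : κ) := y.2
    exact (isAlgebraic_algebraMap_iff (Subtype.val_injective)).1 hy⟩
  exact h2.restrictScalars A

variable {K : Type} [Field K] [Algebra ℂ K] {w : DVal K} {S : Set K}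

theorem RA_reg {f : K} (h : RA w S f) : w.Reg f := by
  obtain ⟨hf, _⟩ := h
  exact hf

theorem mem_rsub {f : K} (hf : f ∈ VS w) (h : f ∈ Algebra.adjoin ℂ S) :
    IsLocalRing.residue (VS w) ⟨f, hf⟩ ∈ rsub w S :=
  ⟨⟨f, hf⟩, h, rfl⟩

theorem RA_of_mem_adjoin {f : K} (hf : w.Reg f) (h : f ∈ Algebra.adjoin ℂ S) : RA w S f :=
  ⟨hf, isAlgebraic_algebraMap (R := rsub w S)
    (⟨IsLocalRing.residue (VS w) ⟨f, hf⟩, mem_rsub hf h⟩ : rsub w S)⟩

theorem RA_mem {f : K} (hf : w.Reg f) (h : f ∈ S) : RA w S f :=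
  RA_of_mem_adjoin hf (Algebra.subset_adjoin h)

theorem reg_const (z : ℂ) : w.Reg (algebraMap ℂ K z) := by
  by_cases hz : z = 0
  · left; rw [hz, map_zero]
  · right; rw [w.const z hz]

theorem RA_const (z : ℂ) : RA w S (algebraMap ℂ K z) :=
  RA_of_mem_adjoin (reg_const z) (Subalgebra.algebraMap_mem _ z)

theorem residue_eq_zero {f : K} (hf : f ∈ VS w) (h : w.Pos f) :
    IsLocalRing.residue (VS w) ⟨f, hf⟩ = 0 := by
  rw [IsLocalRing.residue_eq_zero_iff, IsLocalRing.mem_maximalIdeal, mem_nonunits_iff]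
  intro hu
  obtain ⟨⟨a, b, hab, hba⟩, ha⟩ := hu
  simp only at ha
  have hab' : (a : K) * (b : K) = 1 := by
    have := congrArg (Subtype.val) hab
    simpa using this
  rw [ha] at hab'
  simp only at hab'
  rcases h with h | h
  · rw [h, zero_mul] at hab'
    exact zero_ne_one hab'
  · have hf0 : f ≠ 0 := by
      rintro rfl
      rw [zero_mul] at hab'
      exact zero_ne_one hab'
    have hb0 : (b : K) ≠ 0 := by
      intro hb
      rw [hb, mul_zero] at hab'
      exact zero_ne_one hab'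
    have h1 := w.map_mul f b hf0 hb0
    rw [hab', w.ord_one] at h1
    have h2 : w.Reg (b : K) := b.2
    have h3 := h2.resolve_left hb0
    omega

theorem RA_pos {f : K} (h : w.Pos f) : RA w S f := by
  have hf : w.Reg f := h.imp id le_of_lt
  refine ⟨hf, ?_⟩
  rw [residue_eq_zero hf h]
  exact isAlgebraic_zero

theorem RA_add {f g : K} (hf : RA w S f) (hg : RA w S g) : RA w S (f + g) := by
  obtain ⟨hf, hf'⟩ := hf
  obtain ⟨hg, hg'⟩ := hg
  refine ⟨add_mem hf hg, ?_⟩
  have : IsLocalRing.residue (VS w) ⟨f + g, add_mem hf hg⟩ =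
      IsLocalRing.residue (VS w) ⟨f, hf⟩ + IsLocalRing.residue (VS w) ⟨g, hg⟩ := by
    rw [← map_add]; rfl
  rw [this]
  exact hf'.add hg'

theorem RA_mul {f g : K} (hf : RA w S f) (hg : RA w S g) : RA w S (f * g) := by
  obtain ⟨hf, hf'⟩ := hf
  obtain ⟨hg, hg'⟩ := hg
  refine ⟨mul_mem hf hg, ?_⟩
  have : IsLocalRing.residue (VS w) ⟨f * g, mul_mem hf hg⟩ =
      IsLocalRing.residue (VS w) ⟨f, hf⟩ * IsLocalRing.residue (VS w) ⟨g, hg⟩ := by
    rw [← map_mul]; rfl
  rw [this]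
  exact hf'.mul hg'

theorem RA_inv {f : K} (h0 : f ≠ 0) (hf : RA w S f) (h : w.ord f = 0) : RA w S f⁻¹ := by
  obtain ⟨hf, hf'⟩ := hf
  have hi : w.Reg f⁻¹ := by
    right
    rw [w.ord_inv h0, h, neg_zero]
  refine ⟨hi, ?_⟩
  have : IsLocalRing.residue (VS w) ⟨f⁻¹, hi⟩ = (IsLocalRing.residue (VS w) ⟨f, hf⟩)⁻¹ := by
    apply eq_inv_of_mul_eq_one_left
    rw [← map_mul]
    have h1 : (⟨f⁻¹, hi⟩ * ⟨f, hf⟩ : VS w) = 1 := Subtype.ext (inv_mul_cancel₀ h0)
    rw [h1, map_one]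
  rw [this]
  exact hf'.inv

theorem RA_int {B : Subalgebra ℂ K} (hB : ∀ b ∈ B, RA w S b) {f : K} (hf : IsIntegral B f) :
    RA w S f := by
  have hreg : w.Reg f := reg_of_isIntegral w (fun b hb => RA_reg (hB b hb)) hf
  refine ⟨hreg, ?_⟩
  let β : B →+* VS w :=
    { toFun := fun b => ⟨b, RA_reg (hB b b.2)⟩
      map_one' := rfl
      map_mul' := fun _ _ => rfl
      map_zero' := rfl
      map_add' := fun _ _ => rfl }
  obtain ⟨p, hp, h0⟩ := hf
  refine alg_of_root (rsub w S) (p.map ((IsLocalRing.residue (VS w)).comp β))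
    (hp.map _).ne_zero (fun i => ?_) ?_
  · rw [Polynomial.coeff_map]
    obtain ⟨h1, h2⟩ := hB _ (p.coeff i).2
    exact h2
  · rw [Polynomial.eval_map, ← Polynomial.hom_eval₂]
    have h1 : p.eval₂ β ⟨f, hreg⟩ = 0 := by
      apply (VS w).subtype_injective
      rw [map_zero, Polynomial.hom_eval₂]
      exact h0
    rw [h1, map_zero]

theorem RA_adjoin {T : Set K} (hT : ∀ t ∈ T, RA w S t) {f : K} (hf : f ∈ Algebra.adjoin ℂ T) :
    RA w S f := by
  refine Algebra.adjoin_induction (p := fun f _ => RA w S f) hT RA_const ?_ ?_ hf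
  · intro x y _ _ hx hy; exact RA_add hx hy
  · intro x y _ _ hx hy; exact RA_mul hx hy

theorem RA_trans {S' : Set K} (hS : ∀ t ∈ S', RA w S t) {f : K} (hf : RA w S' f) : RA w S f := by
  obtain ⟨hf, p, hp, h0⟩ := hf
  refine ⟨hf, alg_of_root (rsub w S) (p.map (rsub w S').subtype) ?_ (fun i => ?_) ?_⟩
  · exact (Polynomial.map_ne_zero_iff Subtype.val_injective).2 hp
  · rw [Polynomial.coeff_map]
    obtain ⟨g, hg, hg'⟩ := (p.coeff i).2
    obtain ⟨h1, h2⟩ := RA_adjoin hS hg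
    have : (rsub w S').subtype (p.coeff i) = IsLocalRing.residue (VS w) ⟨g, h1⟩ := hg'.symm
    rw [this]
    exact h2
  · rw [Polynomial.eval_map]
    exact h0

theorem RA_all {T : Set K} (hT : ∀ t ∈ T, RA w S t) (hw : IsLocalRing' (ICs T) w) {f : K}
    (hf : w.Reg f) : RA w S f := by
  obtain ⟨a, b, ha, hb, hb0, hbo, hab⟩ := hw.2 f hf
  have key : ∀ x ∈ ICs T, RA w S x := fun x hx =>
    RA_int (B := Algebra.adjoin ℂ T) (fun b hb => RA_adjoin hT hb) hx
  have : f = a * b⁻¹ := by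
    rw [← hab, mul_assoc, mul_inv_cancel₀ hb0, mul_one]
  rw [this]
  exact RA_mul (key a ha) (RA_inv hb0 (key b hb) hbo)

end Pool.Agent.TH828.FL_RA
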