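import Mathlib
import Pool.Agent.TH202.FlRes
import Pool.Agent.TH202.RL
import Pool.Agent.TH202.Cen
import Pool.Agent.TH796.C8_XM2
import Pool.Agent.TH551.C8_XM1
import Pool.Agent.TH573.C8_BPF
import Pool.Agent.TH828.FL_RA
import Pool.Agent.TH592.FL_IR
import Pool.Agent.TH75.FL_PAIR
import Pool.Agent.TH142.FL_PRIME
import Pool.Agent.TH75.FL_DOM
set_option autoImplicit false
namespace Pool.Agent.TH828.FL_SMF
open Pool.Agent.H436R3.Fol Pool.Agent.TH202 MvPolynomial
open Pool.Agent.TH828.FL_RA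
open Pool.Agent.TH592.FL_IR (ind2_of_RA)
open Pool.Agent.TH75.FL_PAIR (exists_pair)
open Pool.Agent.TH142.FL_PRIME (prime_of_ind2 trdeg_eq)
open Pool.Agent.TH75.FL_DOM (mem_of_dom)
open Pool.Agent.TH573.C8_BPF (St step)
open Pool.Agent.TH796.C8_XM2 (prime_cases alg_of mem_field_a)

section basic

variable {K : Type} [Field K] [Algebra ℂ K]

/-- Elements of order zero at the centre are units. -/
theorem mem_inv_of_ord {M : Model K} {y : Pt M} {w : DVal K}
    (hthr : y.Thr w) (hp : ∀ s : M.R y.i, s ∈ y.p ↔ w.Pos (s : K)) {u : K} (hu : y.Mem u)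
    (hu0 : u ≠ 0) (h0 : w.ord u = 0) : y.Mem u⁻¹ := by
  obtain ⟨s, hs, hsu⟩ := hu
  have hs0 : (s : K) ≠ 0 := fun h => hs ((hp s).2 (Or.inl h))
  have hs1 : ¬ 0 < w.ord (s : K) := fun h => hs ((hp s).2 (Or.inr h))
  have ht : (⟨(s : K) * u, hsu⟩ : M.R y.i) ∉ y.p := by
    intro hmem
    rcases (hp _).1 hmem with h | h
    · exact mul_ne_zero hs0 hu0 h
    · change 0 < w.ord ((s : K) * u) at h
      rw [w.map_mul _ _ hs0 hu0] at h
      omega
  have h1 := y.mem_mul (y.mem_of_R s.2) (y.mem_inv ht)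
  have h2 : (s : K) * ((⟨(s : K) * u, hsu⟩ : M.R y.i) : K)⁻¹ = u⁻¹ := by
    change (s : K) * ((s : K) * u)⁻¹ = u⁻¹
    field_simp
  rwa [h2] at h1

theorem down {P : ℕ → Prop} (hstep : ∀ n, 1 ≤ n → P (n + 1) → P n) {k : ℕ} (hk : 1 ≤ k)
    (h : P k) : P 1 := by
  induction k, hk using Nat.le_induction with
  | base => exact h
  | succ n hn ih => exact ih (hstep n hn h)

theorem reg_gen {t : Fin 3 → K} {w : DVal K} (hl : IsLocalRing' (IC t) w) (j : Fin 3) :
    w.Reg (t j) := by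
  apply hl.1
  have : t j ∈ Algebra.adjoin ℂ (Set.range t) := Algebra.subset_adjoin ⟨j, rfl⟩
  exact isIntegral_algebraMap (R := Algebra.adjoin ℂ (Set.range t))
    (x := (⟨t j, this⟩ : Algebra.adjoin ℂ (Set.range t)))

/-- `x` and `x⁻¹`. -/
theorem RA_flip {w : DVal K} {S : Set K} {x t t' : K} (hx : x ≠ 0) (ht : t = x ∨ t = x⁻¹)
    (ht' : t' = x ∨ t' = x⁻¹) (h : w.Reg t) (h' : w.Reg t') (hS : t' ∈ S) : RA w S t := by
  by_cases he : t = t'
  · rw [he]; exact RA_mem h' hS
  · have hx' : x⁻¹ ≠ 0 := inv_ne_zero hx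
    have hte : t = t'⁻¹ := by
      rcases ht with rfl | rfl <;> rcases ht' with rfl | rfl
      · exact absurd rfl he
      · rw [inv_inv]
      · rfl
      · exact absurd rfl he
    have ht0 : t ≠ 0 := by rcases ht with rfl | rfl <;> assumption
    have ht0' : t' ≠ 0 := by rcases ht' with rfl | rfl <;> assumption
    have h1 := h.resolve_left ht0
    have h2 := h'.resolve_left ht0'
    rw [hte, w.ord_inv ht0'] at h1
    rw [hte]
    exact RA_inv ht0' (RA_mem h' hS) (by omega)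

end basic

variable {K : Type} [Field K] [Algebra ℂ K] [Algebra.EssFiniteType ℂ K]

theorem small_from {d : Dat K} (h : XiAlg d) (s : Sq d) (hfil : FilV s) {M : Model K} (k : ℕ)
    (hk : 1 ≤ k) (f0 : IsFree M (e3 s k)) (f1 : IsFree M (e3 s (k + 1))) (fc : IsFree M (e2 d))
    (w : DVal K) (hw : IsPrimeOn (Xd d h) w) (hS : Sb d w = 0) : IsPrimeOn M w := by
  obtain ⟨y, hthr, hmin, hp⟩ := exists_cen M w
  have hreg : ∀ f ∈ M.R y.i, w.Reg f := ((Pt.thr_iff y w).1 hthr).1
  have hc0 := d.c_ne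
  have ha0 := d.a_ne
  have hb0 := d.b_ne
  have hone : y.Mem (1 : K) := y.mem_of_R (one_mem _)
  -- the end of the proof
  have fin : ∀ (t : Fin 3 → K) (S : Set K), IsLocalRing' (IC t) w →
      (∀ f : K, IsAlgebraic (Algebra.adjoin ℂ (Set.range t)) f) →
      (∀ j, RA w S (t j)) → (∀ u ∈ S, y.Mem u) → IsPrimeOn M w := by
    intro t S hl halg hRA hSm
    obtain ⟨f, g, hfg⟩ := exists_pair (trdeg_eq d) (Set.range t) (Set.finite_range t) halg w hl
    have hT : ∀ u ∈ Set.range t, RA w S u := by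
      rintro _ ⟨j, rfl⟩
      exact hRA j
    have hf := RA_all hT hl hfg.1
    have hg := RA_all hT hl hfg.2.1
    obtain ⟨f', hf', g', hg', hfg'⟩ := ind2_of_RA (fun u hu => hthr u (hSm u hu)) hfg hf hg
    exact prime_of_ind2 (trdeg_eq d) y w hp hreg (hSm f' hf') (hSm g' hg') hfg'
  rcases le_or_gt (w.ord d.c) 0 with hc | hc
  · -- the case `w(c) ≤ 0`
    have hlam : y.Mem d.c⁻¹ := by
      obtain ⟨l, hl⟩ := fc.2 y
      fin_cases l
      · simpa [e2] using hl 1
      · have h1 : y.Mem d.c := by simpa [e2] using hl 0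
        have h2 := (hthr _ h1).resolve_left hc0
        exact mem_inv_of_ord hthr hp h1 hc0 (by omega)
    have hst : ∀ i, IsFree M (e3 s i) → St y (s.y i) := by
      intro i hi
      obtain ⟨l, hl⟩ := hi.2 y
      fin_cases l
      · left; simpa [e3] using hl 1
      · right; simpa [e3] using hl 0
      · left
        have h1 : y.Mem (s.y i * d.c) := by simpa [e3] using hl 1
        have h2 := y.mem_mul h1 hlam
        rwa [mul_assoc, mul_inv_cancel₀ hc0, mul_one] at h2
    have hall : St y (s.y 1) ∧ St y (s.y 2) :=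
      down (P := fun n => St y (s.y n) ∧ St y (s.y (n + 1)))
        (fun n _ hn => ⟨(step s y n hn.1 hn.2).2, hn.1⟩) hk ⟨hst k f0, hst (k + 1) f1⟩
    rw [s.y1, s.y2] at hall
    obtain ⟨tb', htb', mtb'⟩ : ∃ t', (t' = d.b ∨ t' = d.b⁻¹) ∧ y.Mem t' := by
      rcases hall.1 with h1 | h1
      · exact ⟨_, Or.inr rfl, h1⟩
      · rw [inv_inv] at h1
        exact ⟨_, Or.inl rfl, h1⟩
    obtain ⟨ta', hta', mta'⟩ : ∃ t', (t' = d.a ∨ t' = d.a⁻¹) ∧ y.Mem t' := by
      rcases hall.2 with h1 | h1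
      · exact ⟨_, Or.inr rfl, h1⟩
      · rw [inv_inv] at h1
        exact ⟨_, Or.inl rfl, h1⟩
    rcases prime_cases d h w hw with ⟨ta, tb, tc, ha, hb, hc', hl⟩ | ⟨hl, hwa⟩
    · refine fin ![ta, tb, tc] {ta', tb', d.c⁻¹} hl
        (alg_of d _ (mem_field_a ![ta, tb, tc] (j := 0) rfl ha)
          (mem_field_a ![ta, tb, tc] (j := 1) rfl hb)
          (mem_field_a ![ta, tb, tc] (j := 2) rfl hc')) ?_ ?_
      · intro j
        fin_cases j
        · exact RA_flip ha0 ha hta' (reg_gen hl 0) (hthr _ mta') (by simp)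
        · exact RA_flip hb0 hb htb' (reg_gen hl 1) (hthr _ mtb') (by simp)
        · exact RA_flip hc0 hc' (Or.inr rfl) (reg_gen hl 2) (hthr _ hlam) (by simp)
      · rintro u (rfl | rfl | rfl)
        · exact mta'
        · exact mtb'
        · exact hlam
    · exfalso
      have h1 : w.Reg (d.c / d.a) := reg_gen hl 2
      have h2 := h1.resolve_left (div_ne_zero hc0 ha0)
      rw [w.ord_div hc0 ha0] at h2
      omega
  · -- the case `w(c) > 0`
    have hab : w.ord d.c ≤ w.ord d.a ∧ w.ord d.c ≤ w.ord d.b := by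
      have hcR : (0 : ℝ) < (w.ord d.c : ℝ) := by exact_mod_cast hc
      unfold Sb ps mn at hS
      rw [max_eq_right hcR.le] at hS
      have h1 : max 0 (min (w.ord d.a : ℝ) (min (w.ord d.b : ℝ) (w.ord d.c : ℝ))) =
          (w.ord d.c : ℝ) := by linarith
      have h2 : (w.ord d.c : ℝ) ≤ min (w.ord d.a : ℝ) (min (w.ord d.b : ℝ) (w.ord d.c : ℝ)) := by
        rcases max_choice 0 (min (w.ord d.a : ℝ) (min (w.ord d.b : ℝ) (w.ord d.c : ℝ))) with h3 | h3
        · rw [h3] at h1
          linarith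
        · rw [h3] at h1
          exact h1.ge
      have h3 := (le_min_iff.1 h2)
      have h4 := (le_min_iff.1 h3.2)
      exact ⟨by exact_mod_cast h3.1, by exact_mod_cast h4.1⟩
    have hc_inv : ¬ w.Reg d.c⁻¹ := by
      rintro (h1 | h1)
      · exact inv_ne_zero hc0 h1
      · rw [w.ord_inv hc0] at h1
        omega
    have hcm : y.Mem d.c := by
      obtain ⟨l, hl⟩ := fc.2 y
      fin_cases l
      · have h1 : y.Mem d.c⁻¹ := by simpa [e2] using hl 1
        exact absurd (hthr _ h1) hc_inv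
      · simpa [e2] using hl 0
    have hcm' : ¬ y.Mem d.c⁻¹ := fun h1 => hc_inv (hthr _ h1)
    have hb1 : (s.y 1)⁻¹ * d.c⁻¹ = d.b / d.c := by rw [s.y1, inv_inv, div_eq_mul_inv]
    have ha1 : (s.y 2)⁻¹ * d.c⁻¹ = d.a / d.c := by rw [s.y2, inv_inv, div_eq_mul_inv]
    have hD : ∀ j, 1 ≤ j → ((s.y j)⁻¹ * d.c⁻¹ ∈ VS w ∧ (s.y (j + 1))⁻¹ * d.c⁻¹ ∈ VS w) := by
      intro j hj
      induction j, hj using Nat.le_induction with
      | base =>
        refine ⟨?_, ?_⟩
        · rw [hb1]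
          right
          rw [w.ord_div hb0 hc0]
          omega
        · change (s.y 2)⁻¹ * d.c⁻¹ ∈ VS w
          rw [ha1]
          right
          rw [w.ord_div ha0 hc0]
          omega
      | succ n hn ih =>
        exact ⟨ih.2, (hfil (VS w) (fun z => w.reg_const z) d.c hc0 (Or.inr hc.le) hc_inv n hn).1
          ih.1 ih.2⟩
    have hdeep : ∀ i, 1 ≤ i → IsFree M (e3 s i) → y.Mem ((s.y i)⁻¹ * d.c⁻¹) := by
      intro i hi1 hi
      have hyi := s.y_ne i
      obtain ⟨l, hl⟩ := hi.2 y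
      fin_cases l
      · exact absurd (by simpa [e3] using hl 2) hcm'
      · have h1 : y.Mem (d.c⁻¹ / s.y i) := by simpa [e3] using hl 2
        rwa [div_eq_mul_inv, mul_comm] at h1
      · have h1 : y.Mem (s.y i * d.c) := by simpa [e3] using hl 1
        have hne : s.y i * d.c ≠ 0 := mul_ne_zero hyi hc0
        have h2 := (hthr _ h1).resolve_left hne
        have h3 : w.Reg ((s.y i)⁻¹ * d.c⁻¹) := (hD i hi1).1
        have e : (s.y i)⁻¹ * d.c⁻¹ = (s.y i * d.c)⁻¹ := by rw [mul_inv]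
        rw [e] at h3 ⊢
        have h4 := h3.resolve_left (inv_ne_zero hne)
        rw [w.ord_inv hne] at h4
        exact mem_inv_of_ord hthr hp h1 hne (by omega)
    have hdom : ∀ V : ValuationSubring K, (∀ g, y.Mem g → g ∈ V) →
        (∀ g, y.Mem g → ¬ y.Mem g⁻¹ → g⁻¹ ∉ V) →
        (s.y 1)⁻¹ * d.c⁻¹ ∈ V ∧ (s.y 2)⁻¹ * d.c⁻¹ ∈ V := by
      intro V hV1 hV2
      refine down (P := fun n => (s.y n)⁻¹ * d.c⁻¹ ∈ V ∧ (s.y (n + 1))⁻¹ * d.c⁻¹ ∈ V)
        (fun n hn hn' => ⟨?_, hn'.1⟩) hk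
        ⟨hV1 _ (hdeep k hk f0), hV1 _ (hdeep (k + 1) (by omega) f1)⟩
      exact (hfil V (fun z => hV1 _ (y.loc.algebraMap_mem z)) d.c hc0 (hV1 _ hcm)
        (hV2 _ hcm hcm') n hn).2.1 hn'.1 hn'.2
    have mb : y.Mem (d.b / d.c) := by
      rw [← hb1]
      exact mem_of_dom y _ fun V h1 h2 => (hdom V h1 h2).1
    have ma : y.Mem (d.a / d.c) := by
      rw [← ha1]
      exact mem_of_dom y _ fun V h1 h2 => (hdom V h1 h2).2
    rcases prime_cases d h w hw with ⟨ta, tb, tc, ha, hb, hc', hl⟩ | ⟨hl, hwa⟩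
    · refine fin ![ta, tb, tc] ∅ hl
        (alg_of d _ (mem_field_a ![ta, tb, tc] (j := 0) rfl ha)
          (mem_field_a ![ta, tb, tc] (j := 1) rfl hb)
          (mem_field_a ![ta, tb, tc] (j := 2) rfl hc')) ?_ (fun u hu => absurd hu (Set.notMem_empty u))
      have key : ∀ x t : K, x ≠ 0 → 0 < w.ord x → (t = x ∨ t = x⁻¹) → w.Reg t → RA w ∅ t := by
        intro x t hx hx1 ht htr
        rcases ht with rfl | rfl
        · exact RA_pos (Or.inr hx1)
        · exfalso
          have h1 := htr.resolve_left (inv_ne_zero hx)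
          rw [w.ord_inv hx] at h1
          omega
      intro j
      fin_cases j
      · exact key d.a ta ha0 (by omega) ha (reg_gen hl 0)
      · exact key d.b tb hb0 (by omega) hb (reg_gen hl 1)
      · exact key d.c tc hc0 (by omega) hc' (reg_gen hl 2)
    · have mfa : d.a ∈ IntermediateField.adjoin ℂ (Set.range ![d.a, d.b / d.a, d.c / d.a]) :=
        IntermediateField.subset_adjoin _ _ ⟨0, rfl⟩
      have mfb : d.b ∈ IntermediateField.adjoin ℂ (Set.range ![d.a, d.b / d.a, d.c / d.a]) := by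
        have h1 : d.b / d.a ∈ IntermediateField.adjoin ℂ
            (Set.range ![d.a, d.b / d.a, d.c / d.a]) :=
          IntermediateField.subset_adjoin _ _ ⟨1, rfl⟩
        have h2 := mul_mem h1 mfa
        rwa [div_mul_cancel₀ _ ha0] at h2
      have mfc : d.c ∈ IntermediateField.adjoin ℂ (Set.range ![d.a, d.b / d.a, d.c / d.a]) := by
        have h1 : d.c / d.a ∈ IntermediateField.adjoin ℂ
            (Set.range ![d.a, d.b / d.a, d.c / d.a]) :=
          IntermediateField.subset_adjoin _ _ ⟨2, rfl⟩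
        have h2 := mul_mem h1 mfa
        rwa [div_mul_cancel₀ _ ha0] at h2
      have rc : RA w {d.a / d.c, d.b / d.c} (d.c / d.a) := by
        have h1 : w.Reg (d.c / d.a) := reg_gen hl 2
        have h2 := h1.resolve_left (div_ne_zero hc0 ha0)
        rw [w.ord_div hc0 ha0] at h2
        have e : d.c / d.a = (d.a / d.c)⁻¹ := by rw [inv_div]
        rw [e]
        refine RA_inv (div_ne_zero ha0 hc0) (RA_mem (hthr _ ma) (by simp)) ?_
        rw [w.ord_div ha0 hc0]
        omega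
      refine fin ![d.a, d.b / d.a, d.c / d.a] {d.a / d.c, d.b / d.c} hl
        (alg_of d _ mfa mfb mfc) ?_ ?_
      · intro j
        fin_cases j
        · exact RA_pos (Or.inr hwa)
        · have e : d.b / d.a = (d.b / d.c) * (d.c / d.a) := by field_simp
          change RA w _ (d.b / d.a)
          rw [e]
          exact RA_mul (RA_mem (hthr _ mb) (by simp)) rc
        · exact rc
      · rintro u (rfl | rfl)
        · exact ma
        · exact mb

end Pool.Agent.TH828.FL_SMF
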