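import Pool.Agent.TH280.BR.Stm

/-!
Job 2478 (BRM-TB2, requested by helper280): the `L²` bound.
Adapted by helper828 from `Pool/Agent/TH902/LS_T2.lean`.
-/

set_option autoImplicit false

open MeasureTheory Set Pool.Agent.TH280.LS Pool.Agent.TH280.BR
open scoped ENNReal

namespace Pool.Agent.TH828.TB2

/-! ### planar Plancherel -/

theorem planch2 (q : ℝ × ℝ → ℂ) (h1 : Integrable q) (h2 : MemLp q 2) :
    ∫⁻ z : ℝ × ℝ, ‖∫ ξ : ℝ × ℝ, e (z.1 * ξ.1 + z.2 * ξ.2) * q ξ‖ₑ ^ 2 =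
      ∫⁻ ξ : ℝ × ℝ, ‖q ξ‖ₑ ^ 2 := by
  have mp0 := volume_preserving_finTwoArrow ℝ
  set T : (Fin 2 → ℝ) ≃ᵐ ℝ × ℝ := MeasurableEquiv.finTwoArrow with hT
  have mp : MeasurePreserving T := mp0
  have h3 := ftm_planch (fun η : Fin 2 → ℝ => q (T η)) (mp.integrable_comp_of_integrable h1)
    (h2.comp_measurePreserving mp)
  rw [← mp.lintegral_comp_emb T.measurableEmbedding (fun ξ => ‖q ξ‖ₑ ^ 2), ← h3,
    ← mp.lintegral_comp_emb T.measurableEmbedding]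
  refine lintegral_congr fun y => ?_
  congr 2
  rw [← mp.integral_comp T.measurableEmbedding]
  refine integral_congr_ae (Filter.Eventually.of_forall fun v => ?_)
  simp only [Fin.sum_univ_two]
  rfl

theorem ft2_planch (g : ℝ × ℝ → ℂ) (h1 : Integrable g) (h2 : MemLp g 2) :
    ∫⁻ ξ : ℝ × ℝ, ‖ft2 g ξ‖ₑ ^ 2 = ∫⁻ z : ℝ × ℝ, ‖g z‖ₑ ^ 2 := by
  rw [← planch2 g h1 h2]
  rw [← (Measure.measurePreserving_neg (volume : Measure (ℝ × ℝ))).lintegral_comp_emb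
    (MeasurableEquiv.neg (ℝ × ℝ)).measurableEmbedding
    (fun z => ‖∫ ξ : ℝ × ℝ, e (z.1 * ξ.1 + z.2 * ξ.2) * g ξ‖ₑ ^ 2)]
  refine lintegral_congr fun x => ?_
  congr 2
  unfold ft2
  refine integral_congr_ae (Filter.Eventually.of_forall fun ξ => ?_)
  change e (-(ξ.1 * x.1 + ξ.2 * x.2)) * g ξ = e (-x.1 * ξ.1 + -x.2 * ξ.2) * g ξ
  congr 2
  ring

theorem norm_ft2_le (g : ℝ × ℝ → ℂ) (ξ : ℝ × ℝ) : ‖ft2 g ξ‖ ≤ ∫ z, ‖g z‖ := by
  unfold ft2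
  refine (norm_integral_le_integral_norm _).trans (le_of_eq ?_)
  refine integral_congr_ae (Filter.Eventually.of_forall fun x => ?_)
  simp only [norm_mul, norm_e, one_mul]

theorem memLp_two_of_bound {X : Type*} [MeasurableSpace X] {μ : Measure X} {f : X → ℂ}
    (hf : Integrable f μ) {K : ℝ} (hK : ∀ x, ‖f x‖ ≤ K) : MemLp f 2 μ := by
  rw [memLp_two_iff_integrable_sq_norm hf.1]
  refine (hf.norm.const_mul K).mono' (hf.1.norm.pow 2) (Filter.Eventually.of_forall fun x => ?_)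
  rw [Real.norm_eq_abs, abs_of_nonneg (sq_nonneg _), sq]
  exact mul_le_mul_of_nonneg_right (hK x) (norm_nonneg _)

/-! ### the multiplier -/

/-- the multiplier -/
noncomputable def mu (m : ℕ) (δ : ℝ) (p : (Fin m → ℝ) × ℝ × ℝ) : ℝ :=
  (max (1 - ∑ i, p.1 i ^ 2 - (p.2.1 ^ 2 + p.2.2 ^ 2)) 0) ^ δ

theorem measurable_mu (m : ℕ) (δ : ℝ) : Measurable (mu m δ) := by
  unfold mu
  fun_prop

/-- the bound in the first variables -/
noncomputable def E2 (m : ℕ) (η : Fin m → ℝ) : ℝ :=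
  (Icc (-1 : Fin m → ℝ) 1).indicator (fun _ => (1:ℝ)) η

/-- the bound in the last variables -/
noncomputable def E1 (ξ : ℝ × ℝ) : ℝ := (Icc (-1 : ℝ × ℝ) 1).indicator (fun _ => (1:ℝ)) ξ

theorem E2_nonneg {m : ℕ} (η : Fin m → ℝ) : 0 ≤ E2 m η :=
  indicator_nonneg (fun _ _ => zero_le_one) _

theorem E1_nonneg (ξ : ℝ × ℝ) : 0 ≤ E1 ξ := indicator_nonneg (fun _ _ => zero_le_one) _

theorem E2_le {m : ℕ} (η : Fin m → ℝ) : E2 m η ≤ 1 :=
  indicator_le_self' (fun _ _ => zero_le_one) _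

theorem E1_le (ξ : ℝ × ℝ) : E1 ξ ≤ 1 := indicator_le_self' (fun _ _ => zero_le_one) _

theorem E2_int (m : ℕ) : Integrable (E2 m) := by
  have h : IsCompact (Icc (-1 : Fin m → ℝ) 1) := isCompact_Icc
  exact (integrable_indicator_iff measurableSet_Icc).2
    (integrableOn_const h.measure_lt_top.ne)

theorem E1_int : Integrable E1 := by
  have h : IsCompact (Icc (-1 : ℝ × ℝ) 1) := isCompact_Icc
  exact (integrable_indicator_iff measurableSet_Icc).2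
    (integrableOn_const h.measure_lt_top.ne)

theorem mu_nonneg {m : ℕ} {δ : ℝ} (p : (Fin m → ℝ) × ℝ × ℝ) : 0 ≤ mu m δ p :=
  Real.rpow_nonneg (le_max_right _ _) _

theorem mu_le_one {m : ℕ} {δ : ℝ} (hδ : 0 < δ) (p : (Fin m → ℝ) × ℝ × ℝ) : mu m δ p ≤ 1 := by
  refine Real.rpow_le_one (le_max_right _ _) (max_le ?_ zero_le_one) hδ.le
  have h : 0 ≤ ∑ i, p.1 i ^ 2 := Finset.sum_nonneg fun i _ => sq_nonneg _
  nlinarith [sq_nonneg p.2.1, sq_nonneg p.2.2]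

theorem mu_zero {m : ℕ} {δ : ℝ} (hδ : 0 < δ) {p : (Fin m → ℝ) × ℝ × ℝ}
    (h : 1 - ∑ i, p.1 i ^ 2 - (p.2.1 ^ 2 + p.2.2 ^ 2) ≤ 0) : mu m δ p = 0 := by
  unfold mu
  rw [max_eq_right h, Real.zero_rpow hδ.ne']

theorem mu_bound {m : ℕ} {δ : ℝ} (hδ : 0 < δ) (η : Fin m → ℝ) (ξ : ℝ × ℝ) :
    mu m δ (η, ξ) ≤ E2 m η * E1 ξ := by
  by_cases h1 : η ∈ Icc (-1 : Fin m → ℝ) 1
  · by_cases h2 : ξ ∈ Icc (-1 : ℝ × ℝ) 1
    · unfold E2 E1
      rw [indicator_of_mem h1, indicator_of_mem h2, one_mul]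
      exact mu_le_one hδ _
    · have h3 : 1 < ξ.1 ^ 2 ∨ 1 < ξ.2 ^ 2 := by
        by_contra hc
        push Not at hc
        apply h2
        have a1 := abs_le_one_iff_mul_self_le_one.2 (by nlinarith [hc.1] : ξ.1 * ξ.1 ≤ 1)
        have a2 := abs_le_one_iff_mul_self_le_one.2 (by nlinarith [hc.2] : ξ.2 * ξ.2 ≤ 1)
        rw [abs_le] at a1 a2
        exact ⟨⟨a1.1, a2.1⟩, ⟨a1.2, a2.2⟩⟩
      rw [mu_zero hδ]
      · exact mul_nonneg (E2_nonneg η) (E1_nonneg ξ)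
      · have h : 0 ≤ ∑ i, η i ^ 2 := Finset.sum_nonneg fun i _ => sq_nonneg _
        simp only
        rcases h3 with h3 | h3
        · nlinarith [sq_nonneg ξ.2]
        · nlinarith [sq_nonneg ξ.1]
  · have h3 : ∃ i, 1 < η i ^ 2 := by
      by_contra hc
      push Not at hc
      apply h1
      have a1 : ∀ i, |η i| ≤ 1 := fun i =>
        abs_le_one_iff_mul_self_le_one.2 (by nlinarith [hc i])
      exact ⟨fun i => (abs_le.1 (a1 i)).1, fun i => (abs_le.1 (a1 i)).2⟩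
    obtain ⟨i, hi⟩ := h3
    rw [mu_zero hδ]
    · exact mul_nonneg (E2_nonneg η) (E1_nonneg ξ)
    · have h : η i ^ 2 ≤ ∑ i, η i ^ 2 :=
        Finset.single_le_sum (f := fun i => η i ^ 2) (fun i _ => sq_nonneg _) (Finset.mem_univ i)
      simp only
      nlinarith [sq_nonneg ξ.1, sq_nonneg ξ.2]

/-! ### the estimate -/

section core

variable {m : ℕ} {δ : ℝ} {G : (Fin m → ℝ) → ℝ × ℝ → ℂ}

theorem measurable_ft2 (hG : Measurable (Function.uncurry G)) :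
    Measurable (fun p : (Fin m → ℝ) × ℝ × ℝ => ft2 (G p.1) p.2) := by
  have h : Measurable (fun p : ((Fin m → ℝ) × ℝ × ℝ) × ℝ × ℝ =>
      e (-(p.2.1 * p.1.2.1 + p.2.2 * p.1.2.2)) * G p.1.1 p.2) := by
    refine (measurable_e.comp ?_).mul ?_
    · fun_prop
    · exact hG.comp (by fun_prop :
        Measurable fun p : ((Fin m → ℝ) × ℝ × ℝ) × ℝ × ℝ => (p.1.1, p.2))
  exact (h.stronglyMeasurable.integral_prod_right (ν := (volume : Measure (ℝ × ℝ)))).measurable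

theorem measurable_q (hG : Measurable (Function.uncurry G)) :
    Measurable (fun p : (Fin m → ℝ) × ℝ × ℝ =>
      ((mu m δ p : ℝ) : ℂ) * ft2 (G p.1) p.2) :=
  (Complex.measurable_ofReal.comp (measurable_mu m δ)).mul (measurable_ft2 hG)

theorem measurable_U (hG : Measurable (Function.uncurry G)) :
    Measurable (fun p : (Fin m → ℝ) × ℝ × ℝ => UB δ (1 - ∑ i, p.1 i ^ 2) (G p.1) p.2) := by
  have h : Measurable (fun p : ((Fin m → ℝ) × ℝ × ℝ) × ℝ × ℝ =>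
      e (p.1.2.1 * p.2.1 + p.1.2.2 * p.2.2) *
      (((mu m δ (p.1.1, p.2) : ℝ) : ℂ) * ft2 (G p.1.1) p.2)) := by
    refine (measurable_e.comp ?_).mul ?_
    · fun_prop
    · exact (measurable_q (δ := δ) hG).comp (by fun_prop :
        Measurable fun p : ((Fin m → ℝ) × ℝ × ℝ) × ℝ × ℝ => (p.1.1, p.2))
  exact (h.stronglyMeasurable.integral_prod_right (ν := (volume : Measure (ℝ × ℝ)))).measurable

theorem core_bound (hδ : 0 < δ) (hG : AdmB m G) :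
    ∫⁻ z : ℝ × ℝ, ∫⁻ y : Fin m → ℝ, ‖TB m δ G y z‖ₑ ^ 2 ≤
      ∫⁻ z : ℝ × ℝ, ∫⁻ η : Fin m → ℝ, ‖G η z‖ₑ ^ 2 := by
  obtain ⟨hGm, g, hg, hGg⟩ := hG
  have hg0 : ∀ x, 0 ≤ g x := fun x => (norm_nonneg _).trans (hGg 0 x)
  set γ : ℝ := ∫ x, g x with hγ
  have hγ0 : 0 ≤ γ := integral_nonneg hg0
  have hGi : ∀ η, Integrable (G η) := fun η =>
    hg.mono' (hGm.comp measurable_prodMk_left).aestronglyMeasurable
      (Filter.Eventually.of_forall fun x => hGg η x)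
  have hft : ∀ η ξ, ‖ft2 (G η) ξ‖ ≤ γ := fun η ξ =>
    (norm_ft2_le _ _).trans (integral_mono (hGi η).norm hg fun x => hGg η x)
  -- the function q
  set q : (Fin m → ℝ) → ℝ × ℝ → ℂ := fun η ξ =>
    ((mu m δ (η, ξ) : ℝ) : ℂ) * ft2 (G η) ξ with hq
  have hqm : Measurable (fun p : (Fin m → ℝ) × ℝ × ℝ => q p.1 p.2) := measurable_q hGm
  have hqb : ∀ η ξ, ‖q η ξ‖ ≤ γ * E2 m η * E1 ξ := by
    intro η ξ
    simp only [hq, norm_mul, Complex.norm_real, Real.norm_eq_abs]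
    rw [abs_of_nonneg (mu_nonneg _)]
    calc mu m δ (η, ξ) * ‖ft2 (G η) ξ‖
        ≤ (E2 m η * E1 ξ) * γ :=
          mul_le_mul (mu_bound hδ η ξ) (hft η ξ) (norm_nonneg _)
            (mul_nonneg (E2_nonneg η) (E1_nonneg ξ))
      _ = _ := by ring
  have hqi : ∀ η, Integrable (q η) := fun η =>
    (E1_int.const_mul (γ * E2 m η)).mono'
      (hqm.comp measurable_prodMk_left).aestronglyMeasurable
      (Filter.Eventually.of_forall fun ξ => hqb η ξ)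
  have hq2 : ∀ η, MemLp (q η) 2 := fun η => by
    refine memLp_two_of_bound (hqi η) (K := γ * E2 m η) fun ξ => ?_
    exact (hqb η ξ).trans (mul_le_of_le_one_right (mul_nonneg hγ0 (E2_nonneg η)) (E1_le ξ))
  -- the function U
  set U : (Fin m → ℝ) → ℝ × ℝ → ℂ := fun η z => UB δ (1 - ∑ i, η i ^ 2) (G η) z with hU
  have hUq : ∀ η z, U η z = ∫ ξ : ℝ × ℝ, e (z.1 * ξ.1 + z.2 * ξ.2) * q η ξ := fun η z => rfl
  have hUm : Measurable (fun p : (Fin m → ℝ) × ℝ × ℝ => U p.1 p.2) := measurable_U hGm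
  set K0 : ℝ := ∫ ξ : ℝ × ℝ, E1 ξ with hK0
  have hK00 : 0 ≤ K0 := integral_nonneg fun ξ => E1_nonneg ξ
  have hUb : ∀ η z, ‖U η z‖ ≤ γ * K0 * E2 m η := by
    intro η z
    rw [hUq]
    refine (norm_integral_le_integral_norm _).trans ?_
    have h1 : ∀ ξ : ℝ × ℝ, ‖e (z.1 * ξ.1 + z.2 * ξ.2) * q η ξ‖ ≤ γ * E2 m η * E1 ξ := fun ξ => by
      rw [norm_mul, norm_e, one_mul]
      exact hqb η ξ
    have h2 : Integrable (fun ξ : ℝ × ℝ => γ * E2 m η * E1 ξ) := E1_int.const_mul _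
    have h3 : Integrable (fun ξ : ℝ × ℝ => ‖e (z.1 * ξ.1 + z.2 * ξ.2) * q η ξ‖) := by
      have : (fun ξ : ℝ × ℝ => ‖e (z.1 * ξ.1 + z.2 * ξ.2) * q η ξ‖) = fun ξ => ‖q η ξ‖ := by
        funext ξ
        rw [norm_mul, norm_e, one_mul]
      rw [this]
      exact (hqi η).norm
    refine (integral_mono h3 h2 h1).trans (le_of_eq ?_)
    rw [integral_const_mul]
    ring
  have hUi : ∀ z, Integrable (fun η => U η z) := fun z =>
    ((E2_int m).const_mul (γ * K0)).mono'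
      (hUm.comp measurable_prodMk_right).aestronglyMeasurable
      (Filter.Eventually.of_forall fun η => hUb η z)
  have hU2 : ∀ z, MemLp (fun η => U η z) 2 := fun z => by
    refine memLp_two_of_bound (hUi z) (K := γ * K0) fun η => ?_
    exact (hUb η z).trans (mul_le_of_le_one_right (mul_nonneg hγ0 hK00) (E2_le η))
  -- the steps
  have s1 : ∀ z, ∫⁻ y : Fin m → ℝ, ‖TB m δ G y z‖ₑ ^ 2 = ∫⁻ η : Fin m → ℝ, ‖U η z‖ₑ ^ 2 :=
    fun z => ftm_planch (fun η => U η z) (hUi z) (hU2 z)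
  have s2 : ∀ η, ∫⁻ z : ℝ × ℝ, ‖U η z‖ₑ ^ 2 = ∫⁻ ξ : ℝ × ℝ, ‖q η ξ‖ₑ ^ 2 := fun η =>
    planch2 (q η) (hqi η) (hq2 η)
  have s3 : ∀ η, ∫⁻ ξ : ℝ × ℝ, ‖ft2 (G η) ξ‖ₑ ^ 2 ≤ ∫⁻ z : ℝ × ℝ, ‖G η z‖ₑ ^ 2 := by
    intro η
    by_cases h : MemLp (G η) 2
    · exact (ft2_planch (G η) (hGi η) h).le
    · have : ∫⁻ z : ℝ × ℝ, ‖G η z‖ₑ ^ 2 = ⊤ := by
        by_contra hne
        refine h ⟨(hGi η).1, ?_⟩
        rw [eLpNorm_lt_top_iff_lintegral_rpow_enorm_lt_top (by norm_num) (by norm_num)]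
        simp only [ENNReal.toReal_ofNat, ENNReal.rpow_ofNat]
        exact lt_top_iff_ne_top.mpr hne
      rw [this]
      exact le_top
  have s4 : ∀ η, ∫⁻ ξ : ℝ × ℝ, ‖q η ξ‖ₑ ^ 2 ≤ ∫⁻ z : ℝ × ℝ, ‖G η z‖ₑ ^ 2 := by
    intro η
    refine le_trans ?_ (s3 η)
    refine lintegral_mono fun ξ => ?_
    have h1 : ‖q η ξ‖ₑ ≤ ‖ft2 (G η) ξ‖ₑ := by
      simp only [hq]
      rw [enorm_mul]
      refine (mul_le_mul_left (b := ‖((mu m δ (η, ξ) : ℝ) : ℂ)‖ₑ) (c := 1) ?_ _).trans_eq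
        (one_mul _)
      rw [← ofReal_norm, Complex.norm_real, Real.norm_eq_abs, abs_of_nonneg (mu_nonneg _)]
      exact ENNReal.ofReal_le_one.2 (mu_le_one hδ _)
    gcongr
  calc ∫⁻ z : ℝ × ℝ, ∫⁻ y : Fin m → ℝ, ‖TB m δ G y z‖ₑ ^ 2
      = ∫⁻ z : ℝ × ℝ, ∫⁻ η : Fin m → ℝ, ‖U η z‖ₑ ^ 2 := lintegral_congr s1
    _ = ∫⁻ η : Fin m → ℝ, ∫⁻ z : ℝ × ℝ, ‖U η z‖ₑ ^ 2 := by
        refine lintegral_lintegral_swap ?_
        have : Measurable (fun p : (ℝ × ℝ) × (Fin m → ℝ) => U p.2 p.1) :=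
          hUm.comp measurable_swap
        exact (this.enorm.pow_const 2).aemeasurable
    _ ≤ ∫⁻ η : Fin m → ℝ, ∫⁻ z : ℝ × ℝ, ‖G η z‖ₑ ^ 2 := by
        refine lintegral_mono fun η => ?_
        rw [s2 η]
        exact s4 η
    _ = ∫⁻ z : ℝ × ℝ, ∫⁻ η : Fin m → ℝ, ‖G η z‖ₑ ^ 2 := by
        refine lintegral_lintegral_swap ?_
        exact (hGm.enorm.pow_const 2).aemeasurable

end core

theorem tb2_thm : S_TB2 := by
  intro m δ hδ
  refine ⟨1, one_pos, fun G hG => ?_⟩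
  rw [ENNReal.ofReal_one, one_mul]
  exact core_bound hδ hG

end Pool.Agent.TH828.TB2
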