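import Pool.Agent.TH490.StmN

/-!
Job 1183 (project MP_325b7c_co): one step of the nibble, functional `XX`.
-/

set_option autoImplicit false

namespace Pool.Agent.TH828.NX

open Pool.Agent.TH490
open Finset Classical

noncomputable section

variable {n : ℕ} {X ι : Type} [Fintype X] [Fintype ι]

lemma sum_ite_unique {X : Type} (V : Finset X) (P : X → Prop) [DecidablePred P] (f : X → ℝ)
    (r : ℝ) (hr : 0 ≤ r)
    (hf : ∀ v ∈ V, f v ≤ r)
    (hu : ∀ v ∈ V, ∀ v' ∈ V, P v → P v' → v = v') :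
    ∑ v ∈ V, (if P v then f v else 0) ≤ r := by
  rw [← Finset.sum_filter]
  have hc : (V.filter P).card ≤ 1 := by
    rw [Finset.card_le_one]
    intro a ha b hb
    rw [Finset.mem_filter] at ha hb
    exact hu a ha.1 b hb.1 ha.2 hb.2
  calc ∑ v ∈ V.filter P, f v ≤ (V.filter P).card • r :=
        Finset.sum_le_card_nsmul _ _ _ (fun v hv => hf v (Finset.mem_filter.1 hv).1)
    _ ≤ 1 • r := by
        simp only [nsmul_eq_mul]
        exact mul_le_mul_of_nonneg_right (by exact_mod_cast hc) hr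
    _ = r := one_smul _ _

lemma blk_share (D : Nib n X ι) {K R : ℕ} (hD : NHyp D K R) (s : NSt n X ι) {x v : X}
    (h : blk D s x v) : ∃ γ, x ∈ D.B γ ∧ v ∈ D.B γ := by
  rcases h with ⟨γ, _, e, he, htop, hx, _, _⟩ | ⟨γ, _, e, he, htop, hx, _, _⟩
  · exact ⟨γ, hD.conf_sub γ e he hx, hD.conf_sub γ e he htop.1⟩
  · exact ⟨γ, hD.conf_sub γ e he hx, hD.conf_sub γ e he htop.1⟩

lemma neg_form {X : Type} (S : Finset X) (p d : X → ℝ) (c : ℝ) :
    ∑ x ∈ S, p x * (-(c * d x)) = c * (-(∑ x ∈ S, p x * d x)) := by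
  rw [← Finset.sum_neg_distrib, Finset.mul_sum]
  apply Finset.sum_congr rfl
  intro x _
  ring

lemma abs_form {X : Type} (S : Finset X) (p d : X → ℝ) (c : ℝ) (hc : 0 < c) :
    ∑ x ∈ S, p x * |c * d x| = c * (∑ x ∈ S, p x * |d x|) := by
  rw [Finset.mul_sum]
  apply Finset.sum_congr rfl
  intro x _
  rw [abs_mul, abs_of_pos hc]
  ring

lemma exists_R (K : ℕ) : ∃ R₂ : ℕ, ∀ R : ℕ, R₂ ≤ R →
    1 ≤ Real.log R ∧ 2 * K * (R : ℝ) ^ (-(99 / 100) : ℝ) ≤ 1 / 100 := by
  have h1 : Filter.Tendsto (fun R : ℕ => Real.log (R : ℝ)) Filter.atTop Filter.atTop :=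
    Real.tendsto_log_atTop.comp tendsto_natCast_atTop_atTop
  have h2 : Filter.Tendsto (fun R : ℕ => 2 * K * ((R : ℝ) ^ (-(99 / 100) : ℝ)))
      Filter.atTop (nhds (2 * K * 0)) := by
    apply Filter.Tendsto.const_mul
    exact (tendsto_rpow_neg_atTop (by norm_num : (0:ℝ) < 99 / 100)).comp
      tendsto_natCast_atTop_atTop
  rw [mul_zero] at h2
  have h3 := (h1.eventually_ge_atTop 1).and
    (h2.eventually_le_const (by norm_num : (0:ℝ) < 1 / 100))
  exact Filter.eventually_atTop.1 h3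

theorem nxstep : N_elem → N_xstep := by
  intro hE K
  obtain ⟨R₁, hR₁⟩ := hE K
  obtain ⟨R₂, hR₂⟩ := exists_R K
  refine ⟨max R₁ R₂, fun R hR n X ι _ _ D hD s hs ht β hβ => ?_⟩
  obtain ⟨hS, hsum, hpr, hh, hm, hL⟩ := hR₁ R (le_trans (le_max_left _ _) hR) n X ι D hD s hs ht
  obtain ⟨hlog, hK⟩ := hR₂ R (le_trans (le_max_right _ _) hR)
  have hm := hm β hβ
  have hL := hL β hβ
  set r : ℝ := (R : ℝ) ^ (-(99 / 100) : ℝ) with hr
  have hr0 : 0 ≤ r := Real.rpow_nonneg (Nat.cast_nonneg R) _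
  set η : ℝ := 1 / Real.log R with hη
  have hη0 : 0 ≤ η := by positivity
  have hη1 : η ≤ 1 := by
    rw [hη, div_le_one (by linarith)]; exact hlog
  have hηlog : Real.log R * η = 1 := by
    rw [hη]; field_simp
  set m : ℝ := mB D s β with hmdef
  set Lam : ℝ := s.LB β with hLam
  have hLam0 : 0 ≤ Lam := hs.LB_nonneg β
  set V : Finset X := (D.B β).filter (fun v => s.t < (D.o v : ℕ)) with hV
  set T : Finset X := (D.B β).filter (fun v => (D.o v : ℕ) = s.t) with hT
  set WV : ℝ := ∑ v ∈ V, s.w v with hWV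
  set Wt : ℝ := ∑ v ∈ T, s.w v with hWt
  set W : ℝ := ∑ v ∈ (D.B β).filter (fun v => s.t ≤ (D.o v : ℕ)), s.w v with hW
  set hbo : X → ℝ := fun v =>
    ∑ x ∈ (lst D s.t).filter (fun x => x ∉ D.B β ∧ blk D s x v), pr D s x with hhbo
  set Sig : ℝ := ∑ v ∈ V, s.w v * hbo v with hSig
  set wt : X → X → ℝ := fun x v =>
    if (x ∉ D.B β ∧ blk D s x v) then 0 else s.w v * (1 + (1 - η) * hN D s v) with hwt
  have hw0 := hs.w_nonneg
  have hVmem : ∀ v ∈ V, v ∈ D.B β ∧ s.t < (D.o v : ℕ) := fun v hv => Finset.mem_filter.1 hv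
  have hTmem : ∀ v ∈ T, v ∈ D.B β ∧ (D.o v : ℕ) = s.t := fun v hv => Finset.mem_filter.1 hv
  have hwV : ∀ v ∈ V, s.w v ≤ r := fun v hv => hs.w_le v (hVmem v hv).2.le
  have hwT : ∀ v ∈ T, s.w v ≤ r := fun v hv => hs.w_le v (hTmem v hv).2.ge
  have hWV0 : 0 ≤ WV := Finset.sum_nonneg fun v _ => hw0 v
  have hWt0 : 0 ≤ Wt := Finset.sum_nonneg fun v _ => hw0 v
  have hpr0 : ∀ x ∈ lst D s.t, 0 ≤ pr D s x := fun x hx => (hpr x hx).1
  have hhbo0 : ∀ v, 0 ≤ hbo v := fun v =>
    Finset.sum_nonneg fun x hx => hpr0 x (Finset.mem_filter.1 hx).1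
  have hSig0 : 0 ≤ Sig := Finset.sum_nonneg fun v _ => mul_nonneg (hw0 v) (hhbo0 v)
  -- W = Wt + WV
  have hWsplit : W = Wt + WV := by
    have : (D.B β).filter (fun v => s.t ≤ (D.o v : ℕ)) = T ∪ V := by
      ext v
      simp only [hT, hV, Finset.mem_union, Finset.mem_filter]
      constructor
      · rintro ⟨h1, h2⟩
        rcases Nat.eq_or_lt_of_le h2 with h | h
        · exact Or.inl ⟨h1, h.symm⟩
        · exact Or.inr ⟨h1, h⟩
      · rintro (⟨h1, h2⟩ | ⟨h1, h2⟩)
        · exact ⟨h1, h2.ge⟩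
        · exact ⟨h1, h2.le⟩
    rw [hW, this, Finset.sum_union]
    rw [Finset.disjoint_left]
    intro v h1 h2
    have := (hTmem v h1).2
    have := (hVmem v h2).2
    omega
  -- W ≤ 1/16
  have hXX := hs.Xup β hβ
  have hexp1 : Real.exp (-Lam) ≤ 1 := by
    rw [Real.exp_le_one_iff]; linarith
  have hexp0 : 0 < Real.exp (-Lam) := Real.exp_pos _
  have hW0 : 0 ≤ W := by rw [hWsplit]; linarith
  have hW16 : W ≤ 1 / 16 := by
    have h1 : XX D s β = Real.exp (-Lam) * W + (1 / 4) * (1 - Real.exp (-Lam)) := rfl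
    rw [h1] at hXX
    by_contra hcon
    push Not at hcon
    have : 4 / 5 * (1 / 16) < Real.exp (-Lam) * W := by
      apply mul_lt_mul'' hL hcon <;> norm_num
    linarith
  -- m ≤ 2 Wt
  have hmeq : m = Wt / ∑ y ∈ lst D s.t, s.w y := by
    rw [hmdef, mB, hWt]
    have : (lst D s.t).filter (fun x => x ∈ D.B β) = T := by
      ext v
      simp only [lst, hT, Finset.mem_filter, Finset.mem_univ, true_and]
      tauto
    rw [this, Finset.sum_div]
    rfl
  have hm2 : m ≤ 2 * Wt := by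
    rw [hmeq, div_le_iff₀ (by linarith)]
    nlinarith
  have hm0 : 0 ≤ m := hm.1
  have hm100 : m ≤ 1 / 100 := le_trans hm.2 hK
  have hexpm1 : 1 - m ≤ Real.exp (-m) := by
    have := Real.add_one_le_exp (-m); linarith
  have hexpm2 : Real.exp (-m) ≤ 1 := by
    rw [Real.exp_le_one_iff]; linarith
  have hexpm3 : Real.exp (-m) * (1 + m) ≤ 1 := by
    have h1 : 1 + m ≤ Real.exp m := by have := Real.add_one_le_exp m; linarith
    calc Real.exp (-m) * (1 + m) ≤ Real.exp (-m) * Real.exp m :=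
          mul_le_mul_of_nonneg_left h1 (Real.exp_pos _).le
      _ = 1 := by rw [← Real.exp_add]; simp
  -- hN bounds
  have hhN0 : ∀ v ∈ V, 0 ≤ hN D s v := fun v hv => (hh v (hVmem v hv).2).1
  have hfac0 : ∀ v ∈ V, 0 ≤ s.w v * (1 + (1 - η) * hN D s v) := fun v hv =>
    mul_nonneg (hw0 v) (by
      have := mul_nonneg (sub_nonneg.2 hη1) (hhN0 v hv); linarith)
  have hhNb : ∀ v ∈ V, hN D s v ≤ hbo v + m := by
    intro v hv
    refine le_trans (hh v (hVmem v hv).2).2.1 ?_
    rw [hb, hhbo, hmdef, mB]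
    simp only [Finset.sum_filter]
    rw [← Finset.sum_add_distrib]
    apply Finset.sum_le_sum
    intro x hx
    have := hpr0 x hx
    by_cases h1 : blk D s x v <;> by_cases h2 : x ∈ D.B β <;> simp [h1, h2, this]
  -- expectation of Wt_x
  have hE : ∑ x ∈ lst D s.t, pr D s x * ∑ v ∈ V, wt x v ≤ WV + m * WV - η * Sig := by
    have h1 : ∑ x ∈ lst D s.t, pr D s x * ∑ v ∈ V, wt x v
        = ∑ v ∈ V, (s.w v * (1 + (1 - η) * hN D s v)) * (1 - hbo v) := by
      simp only [Finset.mul_sum]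
      rw [Finset.sum_comm]
      apply Finset.sum_congr rfl
      intro v hv
      have h2 : ∀ x ∈ lst D s.t, pr D s x * wt x v
          = (s.w v * (1 + (1 - η) * hN D s v)) * (pr D s x
            - (if (x ∉ D.B β ∧ blk D s x v) then pr D s x else 0)) := by
        intro x hx
        simp only [hwt]
        split_ifs <;> ring
      rw [Finset.sum_congr rfl h2, ← Finset.mul_sum, Finset.sum_sub_distrib, hsum,
        ← Finset.sum_filter]
    rw [h1]
    have h3 : WV + m * WV - η * Sig = ∑ v ∈ V, (s.w v + m * s.w v - η * (s.w v * hbo v)) := by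
      rw [Finset.sum_sub_distrib, Finset.sum_add_distrib, ← Finset.mul_sum, ← Finset.mul_sum]
    rw [h3]
    apply Finset.sum_le_sum
    intro v hv
    have h4 : (1 + (1 - η) * hN D s v) * (1 - hbo v) ≤ 1 + m - η * hbo v := by
      have a1 := hhNb v hv
      have a2 := hhN0 v hv
      have a3 := hhbo0 v
      have a4 : 0 ≤ 1 - η := sub_nonneg.2 hη1
      have a5 : 0 ≤ (1 - η) * hN D s v * hbo v := mul_nonneg (mul_nonneg a4 a2) a3
      have a6 : (1 - η) * hN D s v ≤ (1 - η) * (hbo v + m) := mul_le_mul_of_nonneg_left a1 a4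
      have a7 : 0 ≤ η * m := mul_nonneg hη0 hm0
      nlinarith
    calc s.w v * (1 + (1 - η) * hN D s v) * (1 - hbo v)
        = s.w v * ((1 + (1 - η) * hN D s v) * (1 - hbo v)) := by ring
      _ ≤ s.w v * (1 + m - η * hbo v) := mul_le_mul_of_nonneg_left h4 (hw0 v)
      _ = s.w v + m * s.w v - η * (s.w v * hbo v) := by ring
  -- pointwise bound of |wt - w|
  have hdiff : ∀ x ∈ lst D s.t, ∀ v ∈ V, |wt x v - s.w v|
      ≤ s.w v * hN D s v + (if (x ∉ D.B β ∧ blk D s x v) then s.w v else 0) := by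
    intro x hx v hv
    have a1 := hw0 v
    have a2 := hhN0 v hv
    have a3 : 0 ≤ s.w v * hN D s v := mul_nonneg a1 a2
    simp only [hwt]
    split_ifs with h
    · rw [zero_sub, abs_neg, abs_of_nonneg a1]; linarith
    · have : s.w v * (1 + (1 - η) * hN D s v) - s.w v = (1 - η) * (s.w v * hN D s v) := by ring
      rw [this, abs_of_nonneg (mul_nonneg (sub_nonneg.2 hη1) a3)]
      nlinarith
  set SN : ℝ := ∑ v ∈ V, s.w v * hN D s v with hSN
  have hSN0 : 0 ≤ SN := Finset.sum_nonneg fun v hv => mul_nonneg (hw0 v) (hhN0 v hv)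
  set bl : X → ℝ := fun x => ∑ v ∈ V, (if (x ∉ D.B β ∧ blk D s x v) then s.w v else 0) with hbl
  have hbl0 : ∀ x, 0 ≤ bl x := fun x => Finset.sum_nonneg fun v _ => by
    split_ifs
    · exact hw0 v
    · exact le_refl _
  set d0 : X → ℝ := fun x => Real.exp (-m) * (∑ v ∈ V, wt x v) - W + (1 / 4) * (1 - Real.exp (-m))
    with hd0
  have hd0abs : ∀ x ∈ lst D s.t, |d0 x| ≤ m * WV + Wt + SN + bl x + m / 4 := by
    intro x hx
    have h1 : d0 x = Real.exp (-m) * (∑ v ∈ V, (wt x v - s.w v)) - (1 - Real.exp (-m)) * WV - Wt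
        + (1 / 4) * (1 - Real.exp (-m)) := by
      simp only [hd0]
      rw [Finset.sum_sub_distrib, hWsplit]; ring
    have h2 : |∑ v ∈ V, (wt x v - s.w v)| ≤ SN + bl x := by
      refine le_trans (Finset.abs_sum_le_sum_abs _ _) ?_
      rw [hSN, hbl, ← Finset.sum_add_distrib]
      exact Finset.sum_le_sum fun v hv => hdiff x hx v hv
    have h3 : |Real.exp (-m) * (∑ v ∈ V, (wt x v - s.w v))| ≤ SN + bl x := by
      rw [abs_mul, abs_of_pos (Real.exp_pos _)]
      calc Real.exp (-m) * |∑ v ∈ V, (wt x v - s.w v)|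
          ≤ 1 * |∑ v ∈ V, (wt x v - s.w v)| :=
            mul_le_mul_of_nonneg_right hexpm2 (abs_nonneg _)
        _ = |∑ v ∈ V, (wt x v - s.w v)| := one_mul _
        _ ≤ _ := h2
    have h4 : 0 ≤ (1 - Real.exp (-m)) * WV := mul_nonneg (by linarith) hWV0
    have h5 : (1 - Real.exp (-m)) * WV ≤ m * WV :=
      mul_le_mul_of_nonneg_right (by linarith) hWV0
    rw [h1]
    rw [abs_le] at h3 ⊢
    constructor
    · linarith [h3.1]
    · linarith [h3.2]
  -- expectation of bl
  have hEbl : ∑ x ∈ lst D s.t, pr D s x * bl x = Sig := by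
    simp only [hbl, hSig, Finset.mul_sum]
    rw [Finset.sum_comm]
    apply Finset.sum_congr rfl
    intro v hv
    simp only [hhbo]
    rw [Finset.sum_filter, Finset.mul_sum]
    apply Finset.sum_congr rfl
    intro x hx
    split_ifs <;> ring
  have hSNb : SN ≤ Sig + m * WV := by
    rw [hSN, hSig, hWV, Finset.mul_sum, ← Finset.sum_add_distrib]
    apply Finset.sum_le_sum
    intro v hv
    have := mul_le_mul_of_nonneg_left (hhNb v hv) (hw0 v)
    linarith
  have hWVW : WV ≤ W := by rw [hWsplit]; linarith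
  have hmWV : m * WV ≤ Wt / 8 := by
    calc m * WV ≤ (2 * Wt) * (1 / 16) :=
          mul_le_mul hm2 (le_trans hWVW hW16) hWV0 (by linarith)
      _ = Wt / 8 := by ring
  -- share uniqueness
  have huniq : ∀ x, x ∉ D.B β → ∀ v ∈ V, ∀ v' ∈ V, blk D s x v → blk D s x v' → v = v' := by
    intro x hx v hv v' hv' h1 h2
    exact hD.H2 β x hx v (hVmem v hv).1 v' (hVmem v' hv').1 (blk_share D hD s h1)
      (blk_share D hD s h2)
  have hblr : ∀ x, bl x ≤ r := by
    intro x
    apply sum_ite_unique V (fun v => x ∉ D.B β ∧ blk D s x v) s.w r hr0 hwV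
    intro v hv v' hv' h1 h2
    exact huniq x h1.1 v hv v' hv' h1.2 h2.2
  -- bound of SN by r + m WV
  have hSNr : SN ≤ r + m * WV := by
    have h1 : SN = ∑ x ∈ lst D s.t, pr D s x * ∑ v ∈ V, (if blkN D s x v then s.w v else 0) := by
      simp only [Finset.mul_sum]
      rw [Finset.sum_comm, hSN]
      apply Finset.sum_congr rfl
      intro v hv
      rw [hN, Finset.sum_filter, Finset.mul_sum]
      apply Finset.sum_congr rfl
      intro x hx
      split_ifs <;> ring
    have h2 : ∀ x ∈ lst D s.t, pr D s x * ∑ v ∈ V, (if blkN D s x v then s.w v else 0)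
        ≤ pr D s x * r + (if x ∈ D.B β then pr D s x else 0) * WV := by
      intro x hx
      have hp := hpr0 x hx
      by_cases hxB : x ∈ D.B β
      · rw [if_pos hxB]
        have h3 : ∑ v ∈ V, (if blkN D s x v then s.w v else 0) ≤ WV := by
          rw [hWV]
          apply Finset.sum_le_sum
          intro v hv
          split_ifs
          · exact le_refl _
          · exact hw0 v
        have := mul_le_mul_of_nonneg_left h3 hp
        have := mul_nonneg hp hr0
        linarith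
      · rw [if_neg hxB, zero_mul, add_zero]
        apply mul_le_mul_of_nonneg_left _ hp
        apply sum_ite_unique V (fun v => blkN D s x v) s.w r hr0 hwV
        intro v hv v' hv' h1 h2
        exact huniq x hxB v hv v' hv' (Or.inl h1) (Or.inl h2)
    rw [h1]
    refine le_trans (Finset.sum_le_sum h2) ?_
    rw [Finset.sum_add_distrib, ← Finset.sum_mul, ← Finset.sum_mul, hsum, ← Finset.sum_filter]
    rw [one_mul]
    exact le_refl _
  -- Wt ≤ K r
  have hWtr : Wt ≤ K * r := by
    have hTcard : T.card ≤ K := by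
      have h1 : T = (D.B β) ∩ lst D s.t := by
        ext v
        simp only [lst, hT, Finset.mem_filter, Finset.mem_univ, true_and, Finset.mem_inter]
      rw [h1]
      exact hD.H9 β hβ s.t
    calc Wt ≤ T.card • r := Finset.sum_le_card_nsmul _ _ _ hwT
      _ = T.card * r := by rw [nsmul_eq_mul]
      _ ≤ K * r := mul_le_mul_of_nonneg_right (by exact_mod_cast hTcard) hr0
  refine ⟨fun x => Real.exp (-Lam) * d0 x, ?_, ?_, ?_⟩
  · intro x hx
    have h1 : XX D s β = Real.exp (-Lam) * W + (1 / 4) * (1 - Real.exp (-Lam)) := rfl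
    have h2 : XX D (stepS D R s x) β = Real.exp (-(Lam + m)) *
        (∑ v ∈ V, (if blk D s x v then 0 else s.w v * (1 + (1 - η) * hN D s v)))
        + (1 / 4) * (1 - Real.exp (-(Lam + m))) := rfl
    have h3 : ∑ v ∈ V, (if blk D s x v then 0 else s.w v * (1 + (1 - η) * hN D s v))
        ≤ ∑ v ∈ V, wt x v := by
      apply Finset.sum_le_sum
      intro v hv
      have := hfac0 v hv
      simp only [hwt]
      by_cases h1 : blk D s x v <;> by_cases h2 : x ∈ D.B β <;> simp [h1, h2, this]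
    have h4 : Real.exp (-(Lam + m)) = Real.exp (-Lam) * Real.exp (-m) := by
      rw [← Real.exp_add]; ring_nf
    rw [h1, h2, h4]
    simp only [hd0]
    have h5 := mul_le_mul_of_nonneg_left h3
      (mul_nonneg (Real.exp_pos (-Lam)).le (Real.exp_pos (-m)).le)
    nlinarith [h5]
  · intro x hx
    have h1 := hd0abs x hx
    have h2 := hblr x
    rw [abs_mul, abs_of_pos hexp0]
    have h3 : m / 4 ≤ K * r / 2 := by linarith [hm.2]
    have h5 : (0 : ℝ) ≤ K * r := mul_nonneg (Nat.cast_nonneg K) hr0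
    calc Real.exp (-Lam) * |d0 x| ≤ 1 * |d0 x| :=
          mul_le_mul_of_nonneg_right hexp1 (abs_nonneg _)
      _ = |d0 x| := one_mul _
      _ ≤ (10 * K + 10) * r := by
          have : (10 * (K:ℝ) + 10) * r = 10 * (K * r) + 10 * r := by ring
          rw [this]
          linarith
  · -- the ratio
    rw [neg_form, abs_form _ _ _ _ hexp0]
    have hEd : ∑ x ∈ lst D s.t, pr D s x * d0 x ≤ -(49 / 100 * Wt + 99 / 100 * η * Sig) := by
      have h1 : ∑ x ∈ lst D s.t, pr D s x * d0 x
          = Real.exp (-m) * (∑ x ∈ lst D s.t, pr D s x * ∑ v ∈ V, wt x v) - W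
            + (1 / 4) * (1 - Real.exp (-m)) := by
        have : ∀ x ∈ lst D s.t, pr D s x * d0 x
            = Real.exp (-m) * (pr D s x * ∑ v ∈ V, wt x v)
              + pr D s x * (- W + (1 / 4) * (1 - Real.exp (-m))) := by
          intro x _
          simp only [hd0]; ring
        rw [Finset.sum_congr rfl this, Finset.sum_add_distrib, ← Finset.mul_sum,
          ← Finset.sum_mul, hsum]
        ring
      rw [h1]
      have h2 := mul_le_mul_of_nonneg_left hE (Real.exp_pos (-m)).le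
      have h3 : Real.exp (-m) * (WV + m * WV - η * Sig)
          = (Real.exp (-m) * (1 + m)) * WV - Real.exp (-m) * (η * Sig) := by ring
      have h4 : (Real.exp (-m) * (1 + m)) * WV ≤ 1 * WV :=
        mul_le_mul_of_nonneg_right hexpm3 hWV0
      have h5 : (99 / 100) * (η * Sig) ≤ Real.exp (-m) * (η * Sig) :=
        mul_le_mul_of_nonneg_right (by linarith) (mul_nonneg hη0 hSig0)
      linarith
    have hEabs : ∑ x ∈ lst D s.t, pr D s x * |d0 x| ≤ 7 / 4 * Wt + 2 * Sig := by
      calc ∑ x ∈ lst D s.t, pr D s x * |d0 x|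
          ≤ ∑ x ∈ lst D s.t, (pr D s x * (m * WV + Wt + SN + m / 4) + pr D s x * bl x) := by
            apply Finset.sum_le_sum
            intro x hx
            have := mul_le_mul_of_nonneg_left (hd0abs x hx) (hpr0 x hx)
            linarith
        _ = (m * WV + Wt + SN + m / 4) + Sig := by
            rw [Finset.sum_add_distrib, ← Finset.sum_mul, hsum, hEbl, one_mul]
        _ ≤ 7 / 4 * Wt + 2 * Sig := by linarith
    have hfin : ∑ x ∈ lst D s.t, pr D s x * |d0 x|
        ≤ 40 * Real.log R * (-(∑ x ∈ lst D s.t, pr D s x * d0 x)) := by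
      refine le_trans hEabs ?_
      have h1 : 49 / 100 * Wt + 99 / 100 * η * Sig ≤ -(∑ x ∈ lst D s.t, pr D s x * d0 x) := by
        linarith
      have h2 := mul_le_mul_of_nonneg_left h1 (by linarith : 0 ≤ 40 * Real.log R)
      refine le_trans ?_ h2
      have h3 : 40 * Real.log R * (49 / 100 * Wt + 99 / 100 * η * Sig)
          = 40 * (49 / 100) * (Real.log R * Wt) + 40 * (99 / 100) * (Real.log R * η) * Sig := by
        ring
      rw [h3, hηlog]
      have h4 : Wt ≤ Real.log R * Wt := by nlinarith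
      linarith
    calc Real.exp (-Lam) * (∑ x ∈ lst D s.t, pr D s x * |d0 x|)
        ≤ Real.exp (-Lam) * (40 * Real.log R * (-(∑ x ∈ lst D s.t, pr D s x * d0 x))) :=
          mul_le_mul_of_nonneg_left hfin hexp0.le
      _ = _ := by ring

end

end Pool.Agent.TH828.NX
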