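import Pool.Agent.TH149.WR.Stm
import Pool.Agent.H974R3.RankEmb

set_option autoImplicit false

namespace Pool.Agent.TH828.J1054

open Finset Pool.Agent.TH149.WR

variable {V : Type} [DecidableEq V]

/-- number of pairs -/
def ed (A : V → V → Prop) [DecidableRel A] (X Y : Finset V) : ℕ :=
  ∑ x ∈ X, (Y.filter (A x)).card

theorem ed_mono (A : V → V → Prop) [DecidableRel A] {X X' Y Y' : Finset V} (h : X ⊆ X')
    (h' : Y ⊆ Y') : ed A X Y ≤ ed A X' Y' := by
  unfold ed
  refine (Finset.sum_le_sum_of_subset h).trans (Finset.sum_le_sum fun x _ => ?_)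
  exact Finset.card_le_card (Finset.filter_subset_filter _ h')

theorem ed_union_left (A : V → V → Prop) [DecidableRel A] {X X' Y : Finset V}
    (h : Disjoint X X') : ed A (X ∪ X') Y = ed A X Y + ed A X' Y := by
  unfold ed
  exact Finset.sum_union h

theorem ed_union_right (A : V → V → Prop) [DecidableRel A] {X Y Y' : Finset V}
    (h : Disjoint Y Y') : ed A X (Y ∪ Y') = ed A X Y + ed A X Y' := by
  unfold ed
  rw [← Finset.sum_add_distrib]
  refine Finset.sum_congr rfl fun x _ => ?_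
  rw [Finset.filter_union, Finset.card_union_of_disjoint]
  exact Finset.disjoint_filter_filter h

theorem ed_comm (A : V → V → Prop) [DecidableRel A] (hA : ∀ x y, A x y ↔ A y x)
    (X Y : Finset V) : ed A X Y = ed A Y X := by
  unfold ed
  simp only [Finset.card_filter]
  rw [Finset.sum_comm]
  refine Finset.sum_congr rfl fun x _ => Finset.sum_congr rfl fun y _ => ?_
  simp only [hA x y]

theorem ed_le (A : V → V → Prop) [DecidableRel A] (X : Finset V) : ed A X X ≤ X.card ^ 2 := by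
  unfold ed
  calc ∑ x ∈ X, (X.filter (A x)).card ≤ ∑ _x ∈ X, X.card :=
        Finset.sum_le_sum fun x _ => Finset.card_filter_le _ _
    _ = X.card ^ 2 := by rw [Finset.sum_const, smul_eq_mul, sq]

/-- averaging -/
theorem averaging (w : V → ℕ) (s : ℕ) : ∀ (n : ℕ) (Y : Finset V), Y.card = s + n →
    ∃ Y' ⊆ Y, Y'.card = s ∧ (∑ y ∈ Y', w y) * Y.card ≤ s * ∑ y ∈ Y, w y := by
  intro n
  induction n with
  | zero =>
    intro Y hY
    refine ⟨Y, Finset.Subset.refl _, by omega, ?_⟩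
    rw [hY, Nat.add_zero, mul_comm]
  | succ n ih =>
    intro Y hY
    have hne : Y.Nonempty := by
      rw [← Finset.card_pos]; omega
    obtain ⟨y0, hy0, hmax⟩ := Finset.exists_max_image Y w hne
    have hc : (Y.erase y0).card = s + n := by
      rw [Finset.card_erase_of_mem hy0]; omega
    obtain ⟨Y', hY', hcard, hw⟩ := ih (Y.erase y0) hc
    refine ⟨Y', hY'.trans (Finset.erase_subset _ _), hcard, ?_⟩
    have hsum : ∑ y ∈ Y, w y = ∑ y ∈ Y.erase y0, w y + w y0 := by
      rw [Finset.sum_erase_add _ _ hy0]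
    have hle : ∑ y ∈ Y, w y ≤ Y.card * w y0 := by
      have := Finset.sum_le_card_nsmul Y w (w y0) hmax
      simpa using this
    set W := ∑ y ∈ Y, w y with hW
    set W' := ∑ y ∈ Y.erase y0, w y with hW'
    set Z := ∑ y ∈ Y', w y with hZ
    rw [hc] at hw
    rw [hY] at hle ⊢
    by_cases h0 : s + n = 0
    · have hs : s = 0 := by omega
      have : Y' = ∅ := by rw [← Finset.card_eq_zero, hcard, hs]
      have hZ0 : Z = 0 := by rw [hZ, this, Finset.sum_empty]
      rw [hZ0, hs]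
      simp
    · have hpos : 0 < s + n := Nat.pos_of_ne_zero h0
      -- Z (s+n) ≤ s W', W = W' + w0, W ≤ (s+n+1) w0
      have h1 : W' * (s + (n + 1)) ≤ W * (s + n) := by nlinarith
      have h2 : (Z * (s + (n + 1))) * (s + n) ≤ (s * W) * (s + n) := by
        calc (Z * (s + (n + 1))) * (s + n) = (Z * (s + n)) * (s + (n + 1)) := by ring
          _ ≤ (s * W') * (s + (n + 1)) := Nat.mul_le_mul_right _ hw
          _ = s * (W' * (s + (n + 1))) := by ring
          _ ≤ s * (W * (s + n)) := Nat.mul_le_mul_left _ h1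
          _ = (s * W) * (s + n) := by ring
      exact Nat.le_of_mul_le_mul_right h2 hpos

/-- from a sparse pair to a disjoint pair of given sizes -/
theorem disj_pair (A : V → V → Prop) [DecidableRel A] {R s : ℕ} (hR : 1 ≤ R) (hs : 1 ≤ s)
    {X Y : Finset V}
    (hX : 4 * R * s ≤ X.card) (hY : 4 * R * s ≤ Y.card)
    (h : ∀ x ∈ X, (Y.filter (fun y => A x y)).card * (2 * R) ≤ Y.card) :
    ∃ X' ⊆ X, ∃ Y' ⊆ Y, Disjoint X' Y' ∧ X'.card = s ∧ Y'.card = s ∧ ed A X' Y' * R ≤ s ^ 2 := by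
  have hRs : 4 * s ≤ 4 * R * s := by nlinarith
  obtain ⟨X', hX', hXc⟩ := Finset.exists_subset_card_eq (show s ≤ X.card by omega)
  have hY1 : Y.card ≤ (Y \ X').card + s := by
    have := Finset.le_card_sdiff X' Y
    omega
  set Y1 := Y \ X' with hY1def
  have hd : Disjoint X' Y1 := Finset.disjoint_sdiff
  obtain ⟨n, hn⟩ : ∃ n, Y1.card = s + n := ⟨Y1.card - s, by omega⟩
  obtain ⟨Y', hY', hYc, hw⟩ := averaging (fun y => (X'.filter (fun x => A x y)).card) s n Y1 hn
  refine ⟨X', hX', Y', hY'.trans Finset.sdiff_subset, hd.mono_right hY', hXc, hYc, ?_⟩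
  have e1 : ∀ Z : Finset V, ∑ y ∈ Z, (X'.filter (fun x => A x y)).card = ed A X' Z := by
    intro Z
    unfold ed
    simp only [Finset.card_filter]
    rw [Finset.sum_comm]
  simp only [e1] at hw
  have h2 : ed A X' Y1 * R ≤ s * Y1.card := by
    have : ∀ x ∈ X', (Y1.filter (A x)).card * R ≤ Y1.card := by
      intro x hx
      have h3 := h x (hX' hx)
      have h4 : (Y1.filter (A x)).card ≤ (Y.filter (fun y => A x y)).card :=
        Finset.card_le_card (Finset.filter_subset_filter _ Finset.sdiff_subset)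
      have h5 : (Y1.filter (A x)).card * (2 * R) ≤ Y.card :=
        (Nat.mul_le_mul_right _ h4).trans h3
      have h6 : (Y1.filter (A x)).card * (2 * R) = 2 * ((Y1.filter (A x)).card * R) := by ring
      omega
    unfold ed
    rw [Finset.sum_mul]
    calc ∑ x ∈ X', (Y1.filter (A x)).card * R ≤ ∑ _x ∈ X', Y1.card := Finset.sum_le_sum this
      _ = s * Y1.card := by rw [Finset.sum_const, hXc, smul_eq_mul]
  have hpos : 0 < Y1.card := by omega
  have h3 : (ed A X' Y' * R) * Y1.card ≤ s ^ 2 * Y1.card := by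
    calc (ed A X' Y' * R) * Y1.card = (ed A X' Y' * Y1.card) * R := by ring
      _ ≤ (s * ed A X' Y1) * R := Nat.mul_le_mul_right _ hw
      _ = s * (ed A X' Y1 * R) := by ring
      _ ≤ s * (s * Y1.card) := Nat.mul_le_mul_left _ h2
      _ = s ^ 2 * Y1.card := by ring
  exact Nat.le_of_mul_le_mul_right h3 hpos

/-- union of two sparse sets with few edges in between -/
theorem combine (A : V → V → Prop) [DecidableRel A] (hA : ∀ x y, A x y ↔ A y x) {i s : ℕ}
    {X Y : Finset V} (hd : Disjoint X Y) (hX : X.card = 2 ^ i * s) (hY : Y.card = 2 ^ i * s)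
    (h1 : 4 ^ i * ed A X X ≤ 3 ^ i * X.card ^ 2) (h2 : 4 ^ i * ed A Y Y ≤ 3 ^ i * Y.card ^ 2)
    (h3 : 2 * ed A X Y ≤ s ^ 2) :
    (X ∪ Y).card = 2 ^ (i + 1) * s ∧
      4 ^ (i + 1) * ed A (X ∪ Y) (X ∪ Y) ≤ 3 ^ (i + 1) * (X ∪ Y).card ^ 2 := by
  have hc : (X ∪ Y).card = 2 ^ (i + 1) * s := by
    rw [Finset.card_union_of_disjoint hd, hX, hY, pow_succ]; ring
  refine ⟨hc, ?_⟩
  have e : ed A (X ∪ Y) (X ∪ Y) = ed A X X + ed A Y Y + 2 * ed A X Y := by
    rw [ed_union_left A hd, ed_union_right A hd, ed_union_right A hd, ed_comm A hA Y X]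
    ring
  rw [e, hc]
  rw [hX] at h1
  rw [hY] at h2
  have h4 : (2 ^ i * s) ^ 2 = 4 ^ i * s ^ 2 := by
    rw [mul_pow, ← pow_mul, mul_comm i 2, pow_mul]; norm_num
  have h5 : (2 ^ (i + 1) * s) ^ 2 = 4 * (4 ^ i * s ^ 2) := by
    rw [← h4, pow_succ]; ring
  rw [h5]
  rw [h4] at h1 h2
  have h6 : 1 ≤ 3 ^ i := Nat.one_le_pow _ _ (by norm_num)
  set m := 4 ^ i * s ^ 2 with hm
  have h7 : 4 ^ i * (2 * ed A X Y) ≤ m := Nat.mul_le_mul_left _ h3
  have h8 : m ≤ 3 ^ i * m := by nlinarith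
  calc 4 ^ (i + 1) * (ed A X X + ed A Y Y + 2 * ed A X Y)
      = 4 * (4 ^ i * ed A X X) + 4 * (4 ^ i * ed A Y Y) + 4 * (4 ^ i * (2 * ed A X Y)) := by
        rw [pow_succ]; ring
    _ ≤ 4 * (3 ^ i * m) + 4 * (3 ^ i * m) + 4 * (3 ^ i * m) := by omega
    _ = 3 ^ (i + 1) * (4 * m) := by rw [pow_succ]; ring

/-- the two parameter claim -/
def PP (k : ℕ) (H : SimpleGraph (Fin k)) (i j : ℕ) : Prop :=
  ∃ K : ℕ, 1 ≤ K ∧ ∀ (V : Type) [Fintype V] [DecidableEq V] (G : SimpleGraph V)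
    [DecidableRel G.Adj], ¬ Nonempty (H ↪g G) → ∀ (s : ℕ) (U : Finset V), 1 ≤ s →
    K * s ≤ U.card →
    (∃ X ⊆ U, X.card = 2 ^ i * s ∧ 4 ^ i * ed G.Adj X X ≤ 3 ^ i * X.card ^ 2) ∨
    (∃ X ⊆ U, X.card = 2 ^ j * s ∧ 4 ^ j * ed Gᶜ.Adj X X ≤ 3 ^ j * X.card ^ 2)

theorem PP_zero_left (k : ℕ) (H : SimpleGraph (Fin k)) (j : ℕ) : PP k H 0 j := by
  refine ⟨1, le_rfl, ?_⟩
  intro V _ _ G _ _ s U hs hU
  left
  obtain ⟨X, hX, hc⟩ := Finset.exists_subset_card_eq (show s ≤ U.card by omega)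
  refine ⟨X, hX, by simpa using hc, ?_⟩
  simpa using ed_le G.Adj X

theorem PP_zero_right (k : ℕ) (H : SimpleGraph (Fin k)) (i : ℕ) : PP k H i 0 := by
  refine ⟨1, le_rfl, ?_⟩
  intro V _ _ G _ _ s U hs hU
  right
  obtain ⟨X, hX, hc⟩ := Finset.exists_subset_card_eq (show s ≤ U.card by omega)
  refine ⟨X, hX, by simpa using hc, ?_⟩
  simpa using ed_le Gᶜ.Adj X

/-- a disjoint sparse or dense pair -/
theorem exists_pair (k : ℕ) (H : SimpleGraph (Fin k)) (R : ℕ) (hR : 1 ≤ R) {V : Type} [Fintype V]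
    [DecidableEq V] (G : SimpleGraph V) [DecidableRel G.Adj] (hG : ¬ Nonempty (H ↪g G)) (s : ℕ)
    (U : Finset V) (hs : 1 ≤ s) (hU : (4 * R * k * (4 * R) ^ k) * s ≤ U.card) :
    ∃ X ⊆ U, ∃ Y ⊆ U, Disjoint X Y ∧ X.card = s ∧ Y.card = s ∧
      (ed G.Adj X Y * R ≤ s ^ 2 ∨ ed Gᶜ.Adj X Y * R ≤ s ^ 2) := by
  have h4 : 4 * R ≤ 4 * R * s := by nlinarith
  rcases Pool.Agent.H974R3.RC.embed G R (4 * R * s) hR h4 k H (fun _ => U)
    (fun _ => le_trans (le_of_eq (by ring)) hU) with h | ⟨X, Y, hX, hY, ⟨_, hXU⟩, ⟨_, hYU⟩, h | h⟩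
  · exfalso
    obtain ⟨f, hf, _, hadj⟩ := h
    apply hG
    refine ⟨⟨⟨f, hf⟩, ?_⟩⟩
    intro a b
    by_cases hab : a = b
    · subst hab
      simp
    · exact hadj a b hab
  · obtain ⟨X', hX', Y', hY', hd, h1, h2, h3⟩ := disj_pair G.Adj hR hs hX hY h
    exact ⟨X', hX'.trans hXU, Y', hY'.trans hYU, hd, h1, h2, Or.inl h3⟩
  · have h' : ∀ x ∈ X, (Y.filter (fun y => Gᶜ.Adj x y)).card * (2 * R) ≤ Y.card := by
      intro x hx
      refine le_trans (Nat.mul_le_mul_right _ (Finset.card_le_card ?_)) (h x hx)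
      intro y hy
      rw [Finset.mem_filter] at hy ⊢
      exact ⟨hy.1, ((SimpleGraph.compl_adj _ _ _).1 hy.2).2⟩
    obtain ⟨X', hX', Y', hY', hd, h1, h2, h3⟩ := disj_pair Gᶜ.Adj hR hs hX hY h'
    exact ⟨X', hX'.trans hXU, Y', hY'.trans hYU, hd, h1, h2, Or.inr h3⟩

theorem PP_step (k : ℕ) (H : SimpleGraph (Fin k)) (i j : ℕ) (h1 : PP k H i (j + 1))
    (h2 : PP k H (i + 1) j) : PP k H (i + 1) (j + 1) := by
  obtain ⟨K1, hK1, h1⟩ := h1
  obtain ⟨K2, hK2, h2⟩ := h2
  set K' := max K1 K2 with hK'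
  have hK'1 : 1 ≤ K' := hK1.trans (le_max_left _ _)
  set R := 2 * K' ^ 2 with hR
  have hR1 : 1 ≤ R := by nlinarith
  refine ⟨4 * R * k * (4 * R) ^ k * K' + 1, by omega, ?_⟩
  intro V _ _ G _ hG s U hs hU
  have hs' : 1 ≤ K' * s := Nat.mul_pos hK'1 hs
  obtain ⟨A, hA, B, hB, hd, hAc, hBc, h⟩ := exists_pair k H R hR1 G hG (K' * s) U hs'
    (le_trans (by nlinarith) hU)
  have hbound : ∀ e : ℕ, e * R ≤ (K' * s) ^ 2 → 2 * e ≤ s ^ 2 := by
    intro e he
    have h3 : (2 * e) * K' ^ 2 ≤ s ^ 2 * K' ^ 2 := by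
      calc (2 * e) * K' ^ 2 = e * R := by rw [hR]; ring
        _ ≤ (K' * s) ^ 2 := he
        _ = s ^ 2 * K' ^ 2 := by ring
    exact Nat.le_of_mul_le_mul_right h3 (by positivity)
  have hAK1 : K1 * s ≤ A.card := by rw [hAc]; exact Nat.mul_le_mul_right _ (le_max_left _ _)
  have hBK1 : K1 * s ≤ B.card := by rw [hBc]; exact Nat.mul_le_mul_right _ (le_max_left _ _)
  have hAK2 : K2 * s ≤ A.card := by rw [hAc]; exact Nat.mul_le_mul_right _ (le_max_right _ _)
  have hBK2 : K2 * s ≤ B.card := by rw [hBc]; exact Nat.mul_le_mul_right _ (le_max_right _ _)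
  rcases h with h | h
  · rcases h1 V G hG s A hs hAK1 with ⟨X, hX, hXc, hXe⟩ | ⟨X, hX, hXc, hXe⟩
    · rcases h1 V G hG s B hs hBK1 with ⟨Y, hY, hYc, hYe⟩ | ⟨Y, hY, hYc, hYe⟩
      · left
        have h3 : 2 * ed G.Adj X Y ≤ s ^ 2 := by
          have := hbound _ h
          have h5 := ed_mono G.Adj hX hY
          omega
        have h4 := combine G.Adj (fun x y => G.adj_comm x y)
          (Finset.disjoint_of_subset_left hX (Finset.disjoint_of_subset_right hY hd)) hXc hYc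
          hXe hYe h3
        exact ⟨X ∪ Y, Finset.union_subset (hX.trans hA) (hY.trans hB), h4.1, h4.2⟩
      · right
        exact ⟨Y, hY.trans hB, hYc, hYe⟩
    · right
      exact ⟨X, hX.trans hA, hXc, hXe⟩
  · rcases h2 V G hG s A hs hAK2 with ⟨X, hX, hXc, hXe⟩ | ⟨X, hX, hXc, hXe⟩
    · left
      exact ⟨X, hX.trans hA, hXc, hXe⟩
    · rcases h2 V G hG s B hs hBK2 with ⟨Y, hY, hYc, hYe⟩ | ⟨Y, hY, hYc, hYe⟩
      · left
        exact ⟨Y, hY.trans hB, hYc, hYe⟩
      · right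
        have h3 : 2 * ed Gᶜ.Adj X Y ≤ s ^ 2 := by
          have := hbound _ h
          have h5 := ed_mono Gᶜ.Adj hX hY
          omega
        have h4 := combine Gᶜ.Adj (fun x y => Gᶜ.adj_comm x y)
          (Finset.disjoint_of_subset_left hX (Finset.disjoint_of_subset_right hY hd)) hXc hYc
          hXe hYe h3
        exact ⟨X ∪ Y, Finset.union_subset (hX.trans hA) (hY.trans hB), h4.1, h4.2⟩

theorem PP_all (k : ℕ) (H : SimpleGraph (Fin k)) : ∀ n i j : ℕ, i + j = n → PP k H i j := by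
  intro n
  induction n with
  | zero =>
    intro i j h
    have : i = 0 := by omega
    subst this
    exact PP_zero_left k H j
  | succ n ih =>
    intro i j h
    rcases i with _ | i
    · exact PP_zero_left k H j
    rcases j with _ | j
    · exact PP_zero_right k H (i + 1)
    exact PP_step k H i j (ih i (j + 1) (by omega)) (ih (i + 1) j (by omega))

/-- small degrees -/
theorem small_deg (A : V → V → Prop) [DecidableRel A] (r i s : ℕ)
    (hi : 4 * r * 3 ^ i ≤ 4 ^ i) (X : Finset V) (hs : 1 ≤ s) (hX : X.card = 2 ^ i * s)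
    (he : 4 ^ i * ed A X X ≤ 3 ^ i * X.card ^ 2) :
    ∃ X' ⊆ X, X'.Nonempty ∧ X.card ≤ 2 * X'.card ∧
      ∀ x ∈ X', r * (X'.filter (fun y => A x y)).card ≤ X'.card := by
  have hXpos : 0 < X.card := by rw [hX]; positivity
  have h1 : 4 * r * ed A X X ≤ X.card ^ 2 := by
    have h2 : 4 ^ i * (4 * r * ed A X X) ≤ 4 ^ i * X.card ^ 2 := by
      calc 4 ^ i * (4 * r * ed A X X) = 4 * r * (4 ^ i * ed A X X) := by ring
        _ ≤ 4 * r * (3 ^ i * X.card ^ 2) := Nat.mul_le_mul_left _ he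
        _ = (4 * r * 3 ^ i) * X.card ^ 2 := by ring
        _ ≤ 4 ^ i * X.card ^ 2 := Nat.mul_le_mul_right _ hi
    exact Nat.le_of_mul_le_mul_left h2 (by positivity)
  set X' := X.filter (fun x => 2 * r * (X.filter (A x)).card ≤ X.card) with hX'
  set B := X.filter (fun x => ¬ 2 * r * (X.filter (A x)).card ≤ X.card) with hB
  have hcard : X'.card + B.card = X.card := by
    rw [hX', hB]
    exact Finset.card_filter_add_card_filter_not _
  have h2 : B.card * X.card ≤ 2 * r * ed A X X := by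
    calc B.card * X.card = ∑ _x ∈ B, X.card := by rw [Finset.sum_const, smul_eq_mul]
      _ ≤ ∑ x ∈ B, 2 * r * (X.filter (A x)).card := by
          refine Finset.sum_le_sum fun x hx => ?_
          rw [hB, Finset.mem_filter] at hx
          omega
      _ ≤ ∑ x ∈ X, 2 * r * (X.filter (A x)).card :=
          Finset.sum_le_sum_of_subset (Finset.filter_subset _ _)
      _ = 2 * r * ed A X X := by unfold ed; rw [Finset.mul_sum]
  have h3 : 2 * B.card ≤ X.card := by
    have : (2 * B.card) * X.card ≤ X.card * X.card := by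
      calc (2 * B.card) * X.card = 2 * (B.card * X.card) := by ring
        _ ≤ 2 * (2 * r * ed A X X) := Nat.mul_le_mul_left _ h2
        _ = 4 * r * ed A X X := by ring
        _ ≤ X.card ^ 2 := h1
        _ = X.card * X.card := sq _
    exact Nat.le_of_mul_le_mul_right this hXpos
  have h4 : X.card ≤ 2 * X'.card := by omega
  refine ⟨X', Finset.filter_subset _ _, Finset.card_pos.1 (by omega), h4, ?_⟩
  intro x hx
  have h5 : 2 * r * (X.filter (A x)).card ≤ X.card := (Finset.mem_filter.1 hx).2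
  have h6 : (X'.filter (fun y => A x y)).card ≤ (X.filter (A x)).card :=
    Finset.card_le_card (Finset.filter_subset_filter _ (Finset.filter_subset _ _))
  have h7 : 2 * r * (X'.filter (fun y => A x y)).card ≤ 2 * r * (X.filter (A x)).card :=
    Nat.mul_le_mul_left _ h6
  have h8 : 2 * r * (X'.filter (fun y => A x y)).card =
    2 * (r * (X'.filter (fun y => A x y)).card) := by ring
  omega

theorem exists_i (r : ℕ) : ∃ i : ℕ, 4 * r * 3 ^ i ≤ 4 ^ i := by
  obtain ⟨n, hn⟩ := pow_unbounded_of_one_lt ((4 * r : ℕ) : ℝ) (show (1 : ℝ) < 4 / 3 by norm_num)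
  refine ⟨n, ?_⟩
  rw [div_pow, lt_div_iff₀ (by positivity)] at hn
  exact_mod_cast hn.le

theorem rodl : S_rodl := by
  intro k H r
  obtain ⟨i, hi⟩ := exists_i r
  obtain ⟨K, hK, hP⟩ := PP_all k H (i + i) i i rfl
  refine ⟨4 * K, ?_⟩
  intro V _ _ G _ hG U hU
  by_cases hsmall : U.card < K
  · obtain ⟨u, hu⟩ := hU
    refine ⟨{u}, by simpa using hu, Finset.singleton_nonempty u, ?_, Or.inl ?_⟩
    · rw [Finset.card_singleton]; omega
    · intro x hx
      rw [Finset.mem_singleton] at hx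
      subst hx
      have : ({x} : Finset V).filter (fun y => G.Adj x y) = ∅ := by
        rw [Finset.filter_eq_empty_iff]
        intro y hy
        rw [Finset.mem_singleton] at hy
        subst hy
        exact G.irrefl
      rw [this]
      simp
  · have hs : 1 ≤ U.card / K := (Nat.one_le_div_iff (by omega)).2 (by omega)
    have h1 : K * (U.card / K) ≤ U.card := Nat.mul_div_le _ _
    have h2 : U.card < K * (U.card / K + 1) := by
      have := Nat.lt_mul_div_succ U.card (show 0 < K by omega)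
      simpa using this
    set s := U.card / K with hsdef
    have h3 : U.card ≤ 2 * (K * s) := by nlinarith
    have hpw : 1 ≤ 2 ^ i := Nat.one_le_two_pow
    have fin : ∀ X X' : Finset V, X.card = 2 ^ i * s → X.card ≤ 2 * X'.card →
        U.card ≤ 4 * K * X'.card := by
      intro X X' hX hX'
      have h4 : s ≤ X.card := by rw [hX]; nlinarith
      have h5 : K * s ≤ K * (2 * X'.card) := Nat.mul_le_mul_left _ (h4.trans hX')
      nlinarith
    rcases hP V G hG s U hs h1 with ⟨X, hX, hXc, hXe⟩ | ⟨X, hX, hXc, hXe⟩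
    · obtain ⟨X', hX', hne, hc, hdeg⟩ := small_deg G.Adj r i s hi X hs hXc hXe
      exact ⟨X', hX'.trans hX, hne, fin X X' hXc hc, Or.inl hdeg⟩
    · obtain ⟨X', hX', hne, hc, hdeg⟩ := small_deg Gᶜ.Adj r i s hi X hs hXc hXe
      exact ⟨X', hX'.trans hX, hne, fin X X' hXc hc, Or.inr hdeg⟩

end Pool.Agent.TH828.J1054
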