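import Pool.Agent.TH281.DW.Stmts

/-!
# Job 2102 (DW-4 TaskLow, requested by helper281, MP_4ccfbf_an), written by helper828
-/

set_option autoImplicit false

open MeasureTheory Complex Filter Topology Set
open scoped ENNReal Real

namespace Pool.Agent.TH828.J2102

open Pool.Agent.TH281.DW

noncomputable section

/-! ### trigonometric polynomials -/

theorem norm_tr_le (F : Finset Z2) (c : Z2 → ℂ) (x : Torus) : ‖tr F c x‖ ≤ ∑ k ∈ F, ‖c k‖ := by
  unfold tr
  refine (norm_sum_le _ _).trans (Finset.sum_le_sum fun k _ => ?_)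
  rw [norm_mul, norm_E, mul_one]

theorem continuous_toT : Continuous (toT) := by
  unfold toT
  refine continuous_pi fun i => ?_
  exact (AddCircle.continuous_mk' 1).comp (continuous_apply i)

theorem toT_zero : toT 0 = 0 := by
  unfold toT
  funext i
  simp

/-- small translations separating two characters -/
theorem exists_shift {U : Set Torus} (hU : IsOpen U) {x : Torus} (hx : x ∈ U) {k l : Z2}
    (hkl : k ≠ l) : ∃ y : Torus, x + y ∈ U ∧ E k y ≠ E l y := by
  obtain ⟨i, hi⟩ : ∃ i, k i ≠ l i := by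
    by_contra hc; push Not at hc; exact hkl (funext hc)
  set n : ℤ := k i - l i with hn
  have hn0 : n ≠ 0 := sub_ne_zero.2 hi
  have hnr : (n : ℝ) ≠ 0 := by exact_mod_cast hn0
  have hcont : Continuous fun ε : ℝ => x + toT (Pi.single i ε) := by
    refine continuous_const.add (continuous_toT.comp ?_)
    exact continuous_single (A := fun _ : Fin 2 => ℝ) i
  have h0 : x + toT (Pi.single i 0) = x := by
    simp only [Pi.single_zero, toT_zero, add_zero]
  have hev1 : ∀ᶠ ε : ℝ in 𝓝 0, x + toT (Pi.single i ε) ∈ U := by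
    have := hcont.continuousAt (x := 0)
    refine this.eventually_mem ?_
    rw [h0]; exact hU.mem_nhds hx
  have hev2 : ∀ᶠ ε : ℝ in 𝓝[>] 0, x + toT (Pi.single i ε) ∈ U := hev1.filter_mono nhdsWithin_le_nhds
  have hev3 : ∀ᶠ ε : ℝ in 𝓝[>] 0, ε ∈ Set.Ioo (0 : ℝ) (1 / |(n : ℝ)|) :=
    Ioo_mem_nhdsGT (by positivity)
  obtain ⟨ε, h1, h2⟩ := (hev2.and hev3).exists
  refine ⟨toT (Pi.single i ε), h1, fun heq => ?_⟩
  have h3 : E (k - l) (toT (Pi.single i ε)) = 1 := by
    rw [E_sub', heq, Complex.mul_conj, Complex.normSq_eq_norm_sq, norm_E]; simp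
  rw [E_toT, Complex.exp_eq_one_iff] at h3
  obtain ⟨m, hm⟩ := h3
  have h4 : (((k - l) 0 : ℤ) : ℝ) * (Pi.single i ε : Fin 2 → ℝ) 0 +
      (((k - l) 1 : ℤ) : ℝ) * (Pi.single i ε : Fin 2 → ℝ) 1 = n * ε := by
    fin_cases i <;> simp [hn]
  rw [h4] at hm
  have h5 : ((n * ε : ℝ) : ℂ) = (m : ℂ) := by
    have h6 : (2 * (π : ℂ) * I) ≠ 0 := by
      simp [Real.pi_ne_zero]
    have h7 : (2 * (π : ℂ) * I) * ((n * ε : ℝ) : ℂ) = (2 * (π : ℂ) * I) * (m : ℂ) := by
      rw [hm]; ring
    exact mul_left_cancel₀ h6 h7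
  have h8 : (n : ℝ) * ε = m := by exact_mod_cast h5
  have h9 : |(n : ℝ) * ε| < 1 := by
    rw [abs_mul, abs_of_pos h2.1]
    have := h2.2
    rw [lt_div_iff₀ (by positivity)] at this
    linarith
  rw [h8] at h9
  have h10 : |m| < 1 := by exact_mod_cast h9
  have h11 : m = 0 := Int.abs_lt_one_iff.1 h10
  rw [h11, Int.cast_zero] at h8
  rcases mul_eq_zero.1 h8 with h | h
  · exact hnr h
  · exact h2.1.ne' h

/-- unique continuation for trigonometric polynomials -/
theorem tr_zero (n : ℕ) : ∀ (F : Finset Z2), F.card = n → ∀ (U : Set Torus), IsOpen U → U.Nonempty →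
    ∀ c : Z2 → ℂ, (∀ x ∈ U, tr F c x = 0) → ∀ k ∈ F, c k = 0 := by
  induction n with
  | zero =>
    intro F hF U _ _ c _ k hk
    rw [Finset.card_eq_zero] at hF
    rw [hF] at hk
    exact absurd hk (Finset.notMem_empty k)
  | succ n ih =>
    intro F hF U hU hUn c hc k hk
    obtain ⟨x, hx⟩ := hUn
    by_cases hex : ∃ l ∈ F, l ≠ k
    · obtain ⟨l, hl, hlk⟩ := hex
      obtain ⟨y, hy1, hy2⟩ := exists_shift hU hx (Ne.symm hlk)
      have hcard : (F.erase l).card = n := by
        rw [Finset.card_erase_of_mem hl, hF]; simp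
      have hV : IsOpen (U ∩ (fun z : Torus => z + y) ⁻¹' U) :=
        hU.inter (hU.preimage (continuous_id.add continuous_const))
      have key := ih (F.erase l) hcard _ hV ⟨x, hx, hy1⟩ (fun j => c j * (E j y - E l y)) (by
        intro z hz
        have h1 : tr F c (z + y) = 0 := hc _ hz.2
        have h2 : tr F c z = 0 := hc _ hz.1
        have h3 : tr (F.erase l) (fun j => c j * (E j y - E l y)) z =
            tr F c (z + y) - E l y * tr F c z := by
          rw [tr_add]
          unfold tr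
          rw [Finset.mul_sum, ← Finset.sum_sub_distrib, ← Finset.sum_erase_add _ _ hl]
          have h4 : E l y * c l * E l z - E l y * (c l * E l z) = 0 := by ring
          rw [h4, add_zero]
          exact Finset.sum_congr rfl fun j _ => by ring
        rw [h3, h1, h2]; ring) k (Finset.mem_erase.2 ⟨Ne.symm hlk, hk⟩)
      rcases mul_eq_zero.1 key with h | h
      · exact h
      · exact absurd (sub_eq_zero.1 h) hy2
    · push Not at hex
      have hFk : F = {k} := by
        ext j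
        rw [Finset.mem_singleton]
        exact ⟨fun h => hex j h, fun h => h ▸ hk⟩
      have := hc x hx
      rw [hFk] at this
      unfold tr at this
      rw [Finset.sum_singleton] at this
      rcases mul_eq_zero.1 this with h | h
      · exact h
      · have h1 := norm_E k x
        rw [h, norm_zero] at h1
        exact absurd h1 zero_ne_one

/-- the local mass -/
def q (U : Set Torus) (F : Finset Z2) (c : Z2 → ℂ) : ℝ := ∫ x in U, ‖tr F c x‖ ^ 2 ∂tmu

theorem cont_sq (F : Finset Z2) (c : Z2 → ℂ) : Continuous fun x => ‖tr F c x‖ ^ 2 :=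
  (continuous_tr F c).norm.pow 2

theorem q_formula (U : Set Torus) (F : Finset Z2) (c : Z2 → ℂ) :
    q U F c = (∑ k ∈ F, ∑ l ∈ F, (c k * (starRingEnd ℂ) (c l)) * ∫ x in U, E (k - l) x ∂tmu).re := by
  have h1 : ∀ x, ((‖tr F c x‖ ^ 2 : ℝ) : ℂ) =
      ∑ k ∈ F, ∑ l ∈ F, (c k * (starRingEnd ℂ) (c l)) * E (k - l) x := by
    intro x
    have h3 : tr F c x * (starRingEnd ℂ) (tr F c x) = ((‖tr F c x‖ ^ 2 : ℝ) : ℂ) := by
      rw [Complex.mul_conj, Complex.normSq_eq_norm_sq]
    rw [← h3]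
    unfold tr
    rw [map_sum, Finset.sum_mul_sum]
    refine Finset.sum_congr rfl fun k _ => Finset.sum_congr rfl fun l _ => ?_
    rw [E_sub', map_mul]; ring
  have hi : ∀ k l, Integrable (fun x => (c k * (starRingEnd ℂ) (c l)) * E (k - l) x)
      (tmu.restrict U) :=
    fun k l => (int_cont (continuous_const.mul (continuous_E _))).integrableOn
  have h2 : ((q U F c : ℝ) : ℂ) =
      ∑ k ∈ F, ∑ l ∈ F, (c k * (starRingEnd ℂ) (c l)) * ∫ x in U, E (k - l) x ∂tmu := by
    unfold q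
    have e0 : ((∫ x in U, ‖tr F c x‖ ^ 2 ∂tmu : ℝ) : ℂ) =
        ∫ x in U, ((‖tr F c x‖ ^ 2 : ℝ) : ℂ) ∂tmu := integral_ofReal.symm
    rw [e0]
    simp only [h1]
    rw [integral_finsetSum _ fun k _ => integrable_finsetSum _ fun l _ => hi k l]
    refine Finset.sum_congr rfl fun k _ => ?_
    rw [integral_finsetSum _ fun l _ => hi k l]
    exact Finset.sum_congr rfl fun l _ => integral_const_mul _ _
  rw [← h2, Complex.ofReal_re]

/-- unique continuation with a constant -/
theorem uc (U : Set Torus) (hU : IsOpen U) (hUn : U.Nonempty) (B : Finset Z2) :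
    ∃ κ > 0, ∀ c : Z2 → ℂ, κ * ∑ k ∈ B, ‖c k‖ ^ 2 ≤ q U B c := by
  classical
  -- extension by zero
  set ext : (B → ℂ) → (Z2 → ℂ) := fun v k => if h : k ∈ B then v ⟨k, h⟩ else 0 with hext
  have hcont_ext : ∀ k, Continuous fun v : B → ℂ => ext v k := by
    intro k
    simp only [hext]
    by_cases h : k ∈ B
    · simp only [h, dif_pos]
      exact continuous_apply _
    · simp only [h, dif_neg, not_false_eq_true]
      exact continuous_const
  have hqc : Continuous fun v : B → ℂ => q U B (ext v) := by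
    simp only [q_formula]
    refine Complex.continuous_re.comp ?_
    refine continuous_finsetSum _ fun k _ => continuous_finsetSum _ fun l _ => ?_
    exact ((hcont_ext k).mul (Complex.continuous_conj.comp (hcont_ext l))).mul continuous_const
  have hqpos : ∀ v : B → ℂ, v ≠ 0 → 0 < q U B (ext v) := by
    intro v hv
    have h0 : 0 ≤ q U B (ext v) := integral_nonneg fun x => by positivity
    refine lt_of_le_of_ne h0 fun h => hv ?_
    have h1 : ∀ x ∈ U, tr B (ext v) x = 0 := by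
      by_contra hcon
      push Not at hcon
      obtain ⟨x, hx, hne⟩ := hcon
      have hpos : 0 < ∫ y in U, ‖tr B (ext v) y‖ ^ 2 ∂tmu := by
        rw [setIntegral_pos_iff_support_of_nonneg_ae (Eventually.of_forall fun y => by positivity)
          (int_cont (cont_sq B (ext v))).integrableOn]
        have hopen : IsOpen (Function.support (fun y => ‖tr B (ext v) y‖ ^ 2) ∩ U) :=
          ((cont_sq B (ext v)).isOpen_support).inter hU
        refine hopen.measure_pos tmu ⟨x, ?_, hx⟩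
        rw [Function.mem_support]
        have := norm_pos_iff.2 hne
        positivity
      exact absurd h (by unfold q; exact hpos.ne)
    have h2 := tr_zero _ B rfl U hU hUn (ext v) h1
    funext k
    have h3 := h2 k.1 k.2
    simp only [hext, k.2, dif_pos] at h3
    exact h3
  set S : Set (B → ℂ) := {v | ∑ k, ‖v k‖ ^ 2 = 1} with hS
  have hScl : IsClosed S := by
    refine isClosed_eq ?_ continuous_const
    exact continuous_finsetSum _ fun k _ => (continuous_apply k).norm.pow 2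
  have hSb : Bornology.IsBounded S := by
    refine (Metric.isBounded_iff_subset_closedBall 0).2 ⟨1, fun v hv => ?_⟩
    rw [mem_closedBall_zero_iff, pi_norm_le_iff_of_nonneg zero_le_one]
    intro k
    have h1 : ‖v k‖ ^ 2 ≤ ∑ k, ‖v k‖ ^ 2 :=
      Finset.single_le_sum (f := fun k => ‖v k‖ ^ 2) (fun k _ => by positivity) (Finset.mem_univ k)
    have h2 : ∑ k, ‖v k‖ ^ 2 = 1 := hv
    rw [h2] at h1
    have h3 := norm_nonneg (v k)
    nlinarith
  have hScomp : IsCompact S := Metric.isCompact_of_isClosed_isBounded hScl hSb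
  obtain ⟨κ, hκ, hmin⟩ : ∃ κ > 0, ∀ v ∈ S, κ ≤ q U B (ext v) := by
    rcases S.eq_empty_or_nonempty with hSe | hSn
    · exact ⟨1, one_pos, fun v hv => by rw [hSe] at hv; exact absurd hv (Set.notMem_empty v)⟩
    · obtain ⟨v0, hv0, hmin⟩ := hScomp.exists_isMinOn hSn hqc.continuousOn
      refine ⟨q U B (ext v0), hqpos v0 ?_, fun v hv => hmin hv⟩
      rintro rfl
      have : ∑ k : B, ‖(0 : B → ℂ) k‖ ^ 2 = 1 := hv0
      simp at this
  refine ⟨κ, hκ, fun c => ?_⟩
  set v : B → ℂ := fun k => c k.1 with hv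
  have htr : ∀ x, tr B c x = tr B (ext v) x := by
    intro x
    unfold tr
    refine Finset.sum_congr rfl fun k hk => ?_
    simp only [hext, hk, dif_pos, hv]
  have hqe : q U B c = q U B (ext v) := by
    unfold q; simp only [htr]
  set m : ℝ := ∑ k ∈ B, ‖c k‖ ^ 2 with hm
  have hm2 : ∑ k, ‖v k‖ ^ 2 = m := by
    rw [hm, ← Finset.sum_coe_sort B fun k => ‖c k‖ ^ 2]
  have hm0 : 0 ≤ m := Finset.sum_nonneg fun k _ => by positivity
  rcases hm0.lt_or_eq with hpos | hz
  · set r : ℝ := Real.sqrt m with hr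
    have hr0 : 0 < r := Real.sqrt_pos.2 hpos
    have hr2 : r ^ 2 = m := Real.sq_sqrt hm0
    set v' : B → ℂ := fun k => (((r⁻¹ : ℝ) : ℂ)) * v k with hv'
    have hv'S : v' ∈ S := by
      change ∑ k, ‖v' k‖ ^ 2 = 1
      simp only [hv', norm_mul, mul_pow, Complex.norm_real]
      rw [← Finset.mul_sum, hm2, Real.norm_of_nonneg (by positivity), inv_pow, hr2,
        inv_mul_cancel₀ hpos.ne']
    have h1 := hmin v' hv'S
    have h2 : q U B (ext v') = (r ^ 2)⁻¹ * q U B (ext v) := by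
      have h3 : ∀ x, tr B (ext v') x = ((r⁻¹ : ℝ) : ℂ) * tr B (ext v) x := by
        intro x
        unfold tr
        rw [Finset.mul_sum]
        refine Finset.sum_congr rfl fun k hk => ?_
        simp only [hext, hk, dif_pos, hv']
        ring
      unfold q
      rw [← integral_const_mul]
      refine integral_congr_ae (Eventually.of_forall fun x => ?_)
      simp only [h3, norm_mul, mul_pow, Complex.norm_real]
      rw [Real.norm_of_nonneg (by positivity), inv_pow]
    rw [h2, hr2] at h1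
    rw [hqe]
    rw [inv_mul_eq_div, le_div_iff₀ hpos] at h1
    exact h1
  · rw [← hz, mul_zero]
    exact integral_nonneg fun x => by positivity

theorem split_tr (F : Finset Z2) (p : Z2 → Prop) [DecidablePred p] (c : Z2 → ℂ) (x : Torus) :
    tr F c x = tr (F.filter p) c x + tr (F.filter fun k => ¬ p k) c x := by
  unfold tr
  rw [Finset.sum_filter_add_sum_filter_not]

theorem sq_add_le (a b : ℂ) : ‖a + b‖ ^ 2 ≤ 2 * ‖a‖ ^ 2 + 2 * ‖b‖ ^ 2 := by
  have h1 := norm_add_le a b
  have h2 := norm_nonneg (a + b)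
  nlinarith [sq_nonneg (‖a‖ - ‖b‖)]

theorem main : TaskLow := by
  classical
  intro b M U c0 hb s τ0 hs
  obtain ⟨hbm, hb0, hbM, hM1, hU, hUn, hc0, hlow⟩ := hb
  -- the finite box of frequencies
  set n : ℤ := ⌈τ0 ^ 2 + 1⌉ with hn
  set B0 : Finset Z2 := Fintype.piFinset fun _ => Finset.Icc (-n) n with hB0
  have hmemB : ∀ k : Z2, (fq k : ℝ) ≤ τ0 ^ 2 + 1 → k ∈ B0 := by
    intro k hk
    have h1 : (fq k : ℝ) ≤ n := hk.trans (Int.le_ceil _)
    have h2 : fq k ≤ n := by exact_mod_cast h1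
    rw [hB0, Fintype.mem_piFinset]
    intro i
    have h3 : k i ^ 2 ≤ fq k := by
      unfold fq
      fin_cases i
      · have := sq_nonneg (k 1); simpa using this
      · have := sq_nonneg (k 0); simpa using this
    rw [Finset.mem_Icc]
    have h4 : k i ≤ k i ^ 2 := by nlinarith [sq_nonneg (k i), Int.le_self_sq (k i)]
    have h5 : -k i ≤ k i ^ 2 := by
      have := Int.le_self_sq (-k i)
      rwa [neg_sq] at this
    constructor <;> omega
  obtain ⟨κ, hκ, huc⟩ := uc U hU hUn B0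
  -- constants
  set A : ℝ := 2 / (κ * c0) + 8 * (1 + 2 / κ) * τ0 ^ 2 * M with hA
  set B : ℝ := 8 * (1 + 2 / κ) with hB
  have hMpos : 0 < M := by linarith
  have hApos : 0 < A := by
    have h1 : 0 < 2 / (κ * c0) := by positivity
    have h2 : 0 ≤ 8 * (1 + 2 / κ) * τ0 ^ 2 * M := by positivity
    linarith
  have hBpos : 0 < B := by positivity
  refine ⟨1 / (A ^ 2 / s ^ 2 + 2 * B), by positivity, fun τ hτs hττ0 F c' => ?_⟩
  have hτpos : 0 < |τ| := hs.trans_le hτs
  have hτ2 : τ ^ 2 ≤ τ0 ^ 2 := by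
    rw [← sq_abs τ]
    exact pow_le_pow_left₀ (abs_nonneg _) hττ0 2
  set N : ℝ := ∑ k ∈ F, ‖c' k‖ ^ 2 with hN
  set e : ℝ := St b τ F c' with he
  set u : Torus → ℂ := tr F c' with hu
  set G : Torus → ℂ := tr F (fun k => (((fq k : ℝ) - τ ^ 2 : ℝ) : ℂ) * c' k) with hG
  set f : Torus → ℂ := fun x => G x + (((τ * b x : ℝ) : ℂ) * I) * u x with hf
  have huc' : Continuous u := continuous_tr F c'
  have hGc : Continuous G := continuous_tr F _
  have hum : Measurable u := huc'.measurable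
  have hGm : Measurable G := hGc.measurable
  have hfm : Measurable f := by
    refine hGm.add (Measurable.mul ?_ hum)
    exact (Complex.measurable_ofReal.comp (measurable_const.mul hbm)).mul measurable_const
  obtain ⟨Cu, hCu0, hCu⟩ : ∃ C : ℝ, 0 ≤ C ∧ ∀ x, ‖u x‖ ≤ C :=
    ⟨∑ k ∈ F, ‖c' k‖, Finset.sum_nonneg fun k _ => norm_nonneg _, norm_tr_le F c'⟩
  obtain ⟨CG, hCG0, hCG⟩ : ∃ C : ℝ, 0 ≤ C ∧ ∀ x, ‖G x‖ ≤ C :=
    ⟨_, Finset.sum_nonneg fun k _ => norm_nonneg _, norm_tr_le F _⟩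
  have hbabs : ∀ x, |b x| ≤ M := fun x => by rw [abs_of_nonneg (hb0 x)]; exact hbM x
  have hCf : ∀ x, ‖f x‖ ≤ CG + |τ| * M * Cu := by
    intro x
    refine (norm_add_le _ _).trans (add_le_add (hCG x) ?_)
    rw [norm_mul, norm_mul, Complex.norm_real, Complex.norm_I, mul_one, Real.norm_eq_abs, abs_mul]
    exact mul_le_mul (mul_le_mul_of_nonneg_left (hbabs x) (abs_nonneg _)) (hCu x) (norm_nonneg _)
      (by positivity)
  have hI : ∀ g : Torus → ℝ, Measurable g → (∃ C, ∀ x, |g x| ≤ C) → Integrable g tmu := by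
    rintro g hg ⟨C, hC⟩
    exact Integrable.of_bound hg.aestronglyMeasurable C (Eventually.of_forall fun x => by
      rw [Real.norm_eq_abs]; exact hC x)
  have hIf : Integrable (fun x => ‖f x‖ ^ 2) tmu := hI _ (hfm.norm.pow_const 2)
    ⟨(CG + |τ| * M * Cu) ^ 2, fun x => by
      rw [abs_of_nonneg (by positivity)]
      exact pow_le_pow_left₀ (norm_nonneg _) (hCf x) 2⟩
  have hIu : Integrable (fun x => ‖u x‖ ^ 2) tmu := int_cont (cont_sq F c')
  have hIG : Integrable (fun x => ‖G x‖ ^ 2) tmu := int_cont (cont_sq F _)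
  have hIbu : Integrable (fun x => b x * ‖u x‖ ^ 2) tmu := hI _ (hbm.mul (hum.norm.pow_const 2))
    ⟨M * Cu ^ 2, fun x => by
      rw [abs_mul, abs_of_nonneg (by positivity : 0 ≤ ‖u x‖ ^ 2)]
      exact mul_le_mul (hbabs x) (pow_le_pow_left₀ (norm_nonneg _) (hCu x) 2) (by positivity)
        hMpos.le⟩
  set D : ℝ := ∫ x, b x * ‖u x‖ ^ 2 ∂tmu with hD
  have hD0 : 0 ≤ D := integral_nonneg fun x => mul_nonneg (hb0 x) (by positivity)
  have heI : e = ∫ x, ‖f x‖ ^ 2 ∂tmu := rfl
  have hNI : ∫ x, ‖u x‖ ^ 2 ∂tmu = N := integral_norm_sq_tr F c'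
  have hN0 : 0 ≤ N := Finset.sum_nonneg fun k _ => by positivity
  have he0 : 0 ≤ e := by rw [heI]; exact integral_nonneg fun x => by positivity
  -- (1)
  have step1 : ∀ δ : ℝ, 0 < δ → |τ| * D ≤ δ / 2 * N + 1 / (2 * δ) * e := by
    intro δ hδ
    have hIm : (∫ x, f x * (starRingEnd ℂ) (u x) ∂tmu).im = τ * D := by
      have h1 : ∫ x, f x * (starRingEnd ℂ) (u x) ∂tmu =
          ∫ x, G x * (starRingEnd ℂ) (u x) ∂tmu + ∫ x, ((τ * (b x * ‖u x‖ ^ 2) : ℝ) : ℂ) * I ∂tmu := by
        rw [← integral_add]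
        · refine integral_congr_ae (Eventually.of_forall fun x => ?_)
          simp only [hf]
          have h2 : u x * (starRingEnd ℂ) (u x) = ((‖u x‖ ^ 2 : ℝ) : ℂ) := by
            rw [Complex.mul_conj, Complex.normSq_eq_norm_sq]
          rw [add_mul, mul_assoc _ (u x), h2]
          push_cast
          ring
        · exact int_cont (hGc.mul (Complex.continuous_conj.comp huc'))
        · exact ((hIbu.const_mul τ).ofReal).mul_const I
      have h3 : (∫ x, G x * (starRingEnd ℂ) (u x) ∂tmu).im = 0 := by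
        rw [hG, hu, integral_tr_mul]
        rw [Complex.im_sum]
        refine Finset.sum_eq_zero fun k hk => ?_
        rw [Finset.sum_ite_eq, if_pos hk, mul_assoc, Complex.mul_conj, Complex.normSq_eq_norm_sq,
          ← Complex.ofReal_mul, Complex.ofReal_im]
      have h4 : ∫ x, ((τ * (b x * ‖u x‖ ^ 2) : ℝ) : ℂ) * I ∂tmu = ((τ * D : ℝ) : ℂ) * I := by
        rw [integral_mul_const]
        congr 1
        have e0 : ∫ x, ((τ * (b x * ‖u x‖ ^ 2) : ℝ) : ℂ) ∂tmu =
          ((∫ x, τ * (b x * ‖u x‖ ^ 2) ∂tmu : ℝ) : ℂ) := integral_ofReal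
        rw [e0, integral_const_mul]
      rw [h1, h4, Complex.add_im, h3, zero_add]
      simp
    have h5 : |τ| * D = |(∫ x, f x * (starRingEnd ℂ) (u x) ∂tmu).im| := by
      rw [hIm, abs_mul, abs_of_nonneg hD0]
    rw [h5]
    refine (Complex.abs_im_le_norm _).trans ((norm_integral_le_integral_norm _).trans ?_)
    have h6 : ∫ x, ‖f x * (starRingEnd ℂ) (u x)‖ ∂tmu ≤
        ∫ x, (δ / 2 * ‖u x‖ ^ 2 + 1 / (2 * δ) * ‖f x‖ ^ 2) ∂tmu := by
      refine integral_mono_of_nonneg (Eventually.of_forall fun x => norm_nonneg _)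
        ((hIu.const_mul _).add (hIf.const_mul _)) (Eventually.of_forall fun x => ?_)
      simp only [norm_mul, RCLike.norm_conj]
      have h7 : 0 ≤ (δ * ‖u x‖ - ‖f x‖) ^ 2 / (2 * δ) := by positivity
      have h8 : (δ * ‖u x‖ - ‖f x‖) ^ 2 / (2 * δ) = δ / 2 * ‖u x‖ ^ 2 +
          1 / (2 * δ) * ‖f x‖ ^ 2 - ‖f x‖ * ‖u x‖ := by
        field_simp
        ring
      linarith
    refine h6.trans (le_of_eq ?_)
    rw [integral_add (hIu.const_mul _) (hIf.const_mul _), integral_const_mul, integral_const_mul,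
      hNI, ← heI]
  -- (2)
  have step2 : ∫ x, ‖G x‖ ^ 2 ∂tmu ≤ 2 * e + 2 * τ0 ^ 2 * M * D := by
    have h1 : ∫ x, ‖G x‖ ^ 2 ∂tmu ≤ ∫ x, (2 * ‖f x‖ ^ 2 + 2 * τ0 ^ 2 * M * (b x * ‖u x‖ ^ 2)) ∂tmu := by
      refine integral_mono_of_nonneg (Eventually.of_forall fun x => by positivity)
        ((hIf.const_mul _).add (hIbu.const_mul _)) (Eventually.of_forall fun x => ?_)
      have h2 : G x = f x + -((((τ * b x : ℝ) : ℂ) * I) * u x) := by simp only [hf]; ring
      have h3 := sq_add_le (f x) (-((((τ * b x : ℝ) : ℂ) * I) * u x))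
      rw [← h2, norm_neg, norm_mul, norm_mul, Complex.norm_real, Complex.norm_I, mul_one,
        Real.norm_eq_abs, abs_mul, mul_pow, mul_pow, sq_abs, sq_abs] at h3
      have h4 : τ ^ 2 * b x ^ 2 * ‖u x‖ ^ 2 ≤ τ0 ^ 2 * M * (b x * ‖u x‖ ^ 2) := by
        have h5 : b x ^ 2 ≤ M * b x := by nlinarith [hb0 x, hbM x]
        have h6 : 0 ≤ ‖u x‖ ^ 2 := by positivity
        have h7 : τ ^ 2 * b x ^ 2 ≤ τ0 ^ 2 * (M * b x) :=
          mul_le_mul hτ2 h5 (sq_nonneg _) (sq_nonneg _)
        calc τ ^ 2 * b x ^ 2 * ‖u x‖ ^ 2 ≤ τ0 ^ 2 * (M * b x) * ‖u x‖ ^ 2 :=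
              mul_le_mul_of_nonneg_right h7 h6
          _ = _ := by ring
      change ‖G x‖ ^ 2 ≤ 2 * ‖f x‖ ^ 2 + 2 * τ0 ^ 2 * M * (b x * ‖u x‖ ^ 2)
      linarith
    refine h1.trans (le_of_eq ?_)
    rw [integral_add (hIf.const_mul _) (hIbu.const_mul _), integral_const_mul, integral_const_mul,
      ← heI]
  -- (3)
  set p : Z2 → Prop := fun k => |(fq k : ℝ) - τ ^ 2| < 1 / 2 with hp
  set F1 := F.filter p with hF1
  set R := F.filter fun k => ¬ p k with hR
  set NR : ℝ := ∑ k ∈ R, ‖c' k‖ ^ 2 with hNR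
  set N1 : ℝ := ∑ k ∈ F1, ‖c' k‖ ^ 2 with hN1
  have hNsum : N = N1 + NR := (Finset.sum_filter_add_sum_filter_not F p _).symm
  have step3 : NR ≤ 4 * ∫ x, ‖G x‖ ^ 2 ∂tmu := by
    rw [hG, integral_norm_sq_tr, Finset.mul_sum]
    refine le_trans ?_ (Finset.sum_le_sum_of_subset_of_nonneg (Finset.filter_subset (fun k => ¬ p k) F)
      fun k _ _ => by positivity)
    refine Finset.sum_le_sum fun k hk => ?_
    have h1 : ¬ p k := (Finset.mem_filter.1 hk).2
    simp only [hp, not_lt] at h1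
    rw [norm_mul, Complex.norm_real, Real.norm_eq_abs, mul_pow]
    have h2 : 1 ≤ 4 * |(fq k : ℝ) - τ ^ 2| ^ 2 := by nlinarith
    have h3 : 0 ≤ ‖c' k‖ ^ 2 := by positivity
    nlinarith
  -- (4)
  have hF1B : F1 ⊆ B0 := by
    intro k hk
    have h1 : p k := (Finset.mem_filter.1 hk).2
    refine hmemB k ?_
    have h2 := (abs_lt.1 h1).2
    linarith
  have step4 : κ * N1 ≤ ∫ x in U, ‖tr F1 c' x‖ ^ 2 ∂tmu := by
    have h1 := huc (fun k => if k ∈ F1 then c' k else 0)
    have h2 : ∑ k ∈ B0, ‖(if k ∈ F1 then c' k else 0 : ℂ)‖ ^ 2 = N1 := by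
      rw [hN1, ← Finset.sum_subset hF1B]
      · exact Finset.sum_congr rfl fun k hk => by rw [if_pos hk]
      · intro k _ hk
        rw [if_neg hk]; simp
    have h3 : ∀ x, tr B0 (fun k => if k ∈ F1 then c' k else 0) x = tr F1 c' x := by
      intro x
      unfold tr
      rw [← Finset.sum_subset hF1B]
      · exact Finset.sum_congr rfl fun k hk => by simp only [if_pos hk]
      · intro k _ hk
        simp only [if_neg hk, zero_mul]
    rw [h2] at h1
    unfold q at h1
    simp only [h3] at h1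
    exact h1
  have step5 : ∫ x in U, ‖tr F1 c' x‖ ^ 2 ∂tmu ≤ 2 * (1 / c0 * D) + 2 * NR := by
    have h1 : ∫ x in U, ‖tr F1 c' x‖ ^ 2 ∂tmu ≤
        ∫ x in U, (2 * (1 / c0 * (b x * ‖u x‖ ^ 2)) + 2 * ‖tr R c' x‖ ^ 2) ∂tmu := by
      refine setIntegral_mono_on (int_cont (cont_sq _ _)).integrableOn
        (((hIbu.const_mul _).const_mul _).add ((int_cont (cont_sq _ _)).const_mul _)).integrableOn
        hU.measurableSet fun x hx => ?_
      have h2 : tr F1 c' x = u x + -(tr R c' x) := by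
        rw [hu, split_tr F p c' x]; ring
      have h3 := sq_add_le (u x) (-(tr R c' x))
      rw [← h2, norm_neg] at h3
      have h4 : ‖u x‖ ^ 2 ≤ 1 / c0 * (b x * ‖u x‖ ^ 2) := by
        have h5 := hlow x hx
        rw [one_div, inv_mul_eq_div, le_div_iff₀ hc0, mul_comm]
        exact mul_le_mul_of_nonneg_right h5 (by positivity)
      linarith
    refine h1.trans ?_
    have h6 : ∫ x in U, (2 * (1 / c0 * (b x * ‖u x‖ ^ 2)) + 2 * ‖tr R c' x‖ ^ 2) ∂tmu ≤
        ∫ x, (2 * (1 / c0 * (b x * ‖u x‖ ^ 2)) + 2 * ‖tr R c' x‖ ^ 2) ∂tmu := by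
      refine setIntegral_le_integral
        (((hIbu.const_mul _).const_mul _).add ((int_cont (cont_sq _ _)).const_mul _))
        (Eventually.of_forall fun x => ?_)
      have h7 : 0 ≤ b x * ‖u x‖ ^ 2 := mul_nonneg (hb0 x) (by positivity)
      change 0 ≤ 2 * (1 / c0 * (b x * ‖u x‖ ^ 2)) + 2 * ‖tr R c' x‖ ^ 2
      positivity
    refine h6.trans (le_of_eq ?_)
    rw [integral_add ((hIbu.const_mul _).const_mul _) ((int_cont (cont_sq _ _)).const_mul _),
      integral_const_mul, integral_const_mul, integral_const_mul, integral_norm_sq_tr]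
  -- combine
  have hN1le : N1 ≤ 2 / (κ * c0) * D + 2 / κ * NR := by
    have h1 : κ * N1 ≤ 2 * (1 / c0 * D) + 2 * NR := step4.trans step5
    have h2 : κ * (2 / (κ * c0) * D + 2 / κ * NR) = 2 * (1 / c0 * D) + 2 * NR := by
      field_simp
    rw [← h2] at h1
    exact le_of_mul_le_mul_left h1 hκ
  have hNRle : NR ≤ 8 * e + 8 * τ0 ^ 2 * M * D := by
    have := step3.trans (mul_le_mul_of_nonneg_left step2 (by norm_num : (0 : ℝ) ≤ 4))
    linarith
  have hNle : N ≤ A * D + B * e := by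
    have h1 : (1 + 2 / κ) * NR ≤ (1 + 2 / κ) * (8 * e + 8 * τ0 ^ 2 * M * D) :=
      mul_le_mul_of_nonneg_left hNRle (by positivity)
    have h2 : N ≤ 2 / (κ * c0) * D + (1 + 2 / κ) * NR := by rw [hNsum]; linarith
    calc N ≤ 2 / (κ * c0) * D + (1 + 2 / κ) * (8 * e + 8 * τ0 ^ 2 * M * D) := by linarith
      _ = A * D + B * e := by rw [hA, hB]; ring
  have hDle : s * D ≤ (s / A) / 2 * N + 1 / (2 * (s / A)) * e := by
    have h1 := step1 (s / A) (by positivity)
    have h2 : s * D ≤ |τ| * D := mul_le_mul_of_nonneg_right hτs hD0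
    linarith
  have hAD : A * D ≤ N / 2 + A ^ 2 / (2 * s ^ 2) * e := by
    have h1 : (A / s) * (s * D) ≤ (A / s) * ((s / A) / 2 * N + 1 / (2 * (s / A)) * e) :=
      mul_le_mul_of_nonneg_left hDle (by positivity)
    have h2 : (A / s) * (s * D) = A * D := by field_simp
    have h3 : (A / s) * ((s / A) / 2 * N + 1 / (2 * (s / A)) * e) =
        N / 2 + A ^ 2 / (2 * s ^ 2) * e := by field_simp
    rw [h2, h3] at h1
    exact h1
  have hfin : N ≤ (A ^ 2 / s ^ 2 + 2 * B) * e := by
    have h1 : A ^ 2 / (2 * s ^ 2) * e = (A ^ 2 / s ^ 2) * e / 2 := by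
      field_simp
    rw [h1] at hAD
    linarith
  rw [one_div, inv_mul_eq_div, div_le_iff₀ (by positivity), mul_comm]
  exact hfin

end

end Pool.Agent.TH828.J2102
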