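import Pool.Agent.TH281.HB.Defs
import Pool.Agent.H465R3.Gadget

set_option autoImplicit false

namespace Pool.Agent.TH828.J1156

open Pool.Agent.TH281.HB Pool.Agent.H465R3

theorem hgadget_propertyH {X : Type*} [NormedAddCommGroup X] [NormedSpace ℝ X]
    (h : ∀ α : ℝ, 0 < α → α < 1 → HGadget X α) : PropertyH X := by
  intro α hα0 hα1
  obtain ⟨U, K, M, hK, hM, hlip, hbd, hfix, hdisp⟩ := h α hα0 hα1
  have hK0 : 0 < K := by linarith
  have hM0 : 0 < M := by linarith
  set d : ℝ := K ^ (-1 / (1 - α)) with hd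
  have hd0 : 0 < d := Real.rpow_pos_of_pos hK0 _
  have hdα : d ^ (1 - α) = K⁻¹ := by
    rw [hd, ← Real.rpow_mul hK0.le]
    have : -1 / (1 - α) * (1 - α) = -1 := by
      have : (1 - α) ≠ 0 := by linarith
      field_simp
    rw [this, Real.rpow_neg_one]
  set ε : ℝ := min (1 / M) d with hε
  have hε0 : 0 < ε := lt_min (by positivity) hd0
  have hεM : ε * M ≤ 1 := by
    calc ε * M ≤ 1 / M * M := by gcongr; exact min_le_left _ _
      _ = 1 := by field_simp
  have hεα : K * ε ^ (1 - α) ≤ 1 := by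
    have h1 : ε ^ (1 - α) ≤ d ^ (1 - α) :=
      Real.rpow_le_rpow hε0.le (min_le_right _ _) (by linarith)
    rw [hdα] at h1
    calc K * ε ^ (1 - α) ≤ K * K⁻¹ := by gcongr
      _ = 1 := by field_simp
  have hin : ∀ x : X, ε • U (ε⁻¹ • x) ∈ Metric.closedBall (0:X) 1 := by
    intro x
    rw [mem_closedBall_zero_iff, norm_smul, Real.norm_eq_abs, abs_of_pos hε0]
    have := hbd (ε⁻¹ • x)
    nlinarith
  let T : Metric.closedBall (0 : X) 1 → Metric.closedBall (0 : X) 1 :=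
    fun x => ⟨ε • U (ε⁻¹ • (x : X)), hin x⟩
  have hT : ∀ n (x : Metric.closedBall (0 : X) 1), ((T^[n] x : _) : X) = ε • U^[n] (ε⁻¹ • (x:X)) := by
    intro n
    induction n with
    | zero => intro x; simp [smul_smul, hε0.ne']
    | succ n ih =>
      intro x
      rw [Function.iterate_succ_apply', Function.iterate_succ_apply']
      change ε • U (ε⁻¹ • ((T^[n] x : _) : X)) = _
      rw [ih, smul_smul, inv_mul_cancel₀ hε0.ne', one_smul]
  refine ⟨T, ?_, ?_, ?_⟩
  · intro n hn x y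
    rw [hT, hT, ← smul_sub, norm_smul, Real.norm_eq_abs, abs_of_pos hε0]
    set r := ‖(x:X) - (y:X)‖ with hr
    have hr0 : 0 ≤ r := norm_nonneg _
    have h1 := hlip n hn (ε⁻¹ • (x:X)) (ε⁻¹ • (y:X))
    rw [← smul_sub, norm_smul, Real.norm_eq_abs, abs_of_pos (inv_pos.2 hε0), ← hr,
      Real.mul_rpow (inv_pos.2 hε0).le hr0] at h1
    have h5 : 0 ≤ r ^ α := Real.rpow_nonneg hr0 _
    have h6 : ε * ε⁻¹ ^ α = ε ^ (1 - α) := by
      rw [Real.inv_rpow hε0.le, Real.rpow_sub hε0, Real.rpow_one]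
      rfl
    calc ε * ‖U^[n] (ε⁻¹ • (x:X)) - U^[n] (ε⁻¹ • (y:X))‖ ≤ ε * (K * (ε⁻¹ ^ α * r ^ α)) :=
          mul_le_mul_of_nonneg_left h1 hε0.le
      _ = (K * (ε * ε⁻¹ ^ α)) * r ^ α := by ring
      _ = (K * ε ^ (1 - α)) * r ^ α := by rw [h6]
      _ ≤ 1 * r ^ α := by gcongr
      _ = r ^ α := one_mul _
  · intro x hx
    have h1 : ε • U (ε⁻¹ • (x:X)) = x := congrArg Subtype.val hx
    apply hfix (ε⁻¹ • (x:X))
    conv_rhs => rw [← h1]
    rw [smul_smul, inv_mul_cancel₀ hε0.ne', one_smul]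
  · apply le_antisymm
    · refine le_of_forall_pos_le_add fun η hη => ?_
      obtain ⟨a, ha1, ha2⟩ := hdisp (η / ε) (by positivity)
      have hmem : ε • a ∈ Metric.closedBall (0:X) 1 := by
        rw [mem_closedBall_zero_iff, norm_smul, Real.norm_eq_abs, abs_of_pos hε0]
        nlinarith
      have hle := ciInf_le (f := fun x : Metric.closedBall (0 : X) 1 => ‖(x : X) - (T x : X)‖)
        ⟨0, by rintro _ ⟨x, rfl⟩; exact norm_nonneg _⟩ ⟨ε • a, hmem⟩
      refine hle.trans ?_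
      change ‖ε • a - ε • U (ε⁻¹ • (ε • a))‖ ≤ _
      rw [smul_smul, inv_mul_cancel₀ hε0.ne', one_smul, ← smul_sub, norm_smul, Real.norm_eq_abs,
        abs_of_pos hε0]
      rw [lt_div_iff₀ hε0] at ha2
      linarith
    · have : Nonempty (Metric.closedBall (0 : X) 1) := ⟨⟨0, by simp⟩⟩
      exact le_ciInf fun x => norm_nonneg _

theorem hgadget_transfer {X Y : Type*} [NormedAddCommGroup X] [NormedSpace ℝ X]
    [NormedAddCommGroup Y] [NormedSpace ℝ Y] {α : ℝ} (hα : 0 < α) (hα1 : α < 1)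
    (h : HGadget Y α) (e : X ≃L[ℝ] Y) : HGadget X α := by
  obtain ⟨U, K, M, hK, hM, hlip, hbd, hfix, hdisp⟩ := h
  set A := ‖(e : X →L[ℝ] Y)‖ with hA
  set B := ‖(e.symm : Y →L[ℝ] X)‖ with hB
  have hA0 : 0 ≤ A := norm_nonneg _
  have hB0 : 0 ≤ B := norm_nonneg _
  have hAα : 0 ≤ A ^ α := Real.rpow_nonneg hA0 _
  have hAe : ∀ x, ‖e x‖ ≤ A * ‖x‖ := fun x => (e : X →L[ℝ] Y).le_opNorm x
  have hBe : ∀ y, ‖e.symm y‖ ≤ B * ‖y‖ := fun y => (e.symm : Y →L[ℝ] X).le_opNorm y
  have hit : ∀ n a, (fun x => e.symm (U (e x)))^[n] a = e.symm (U^[n] (e a)) := by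
    intro n
    induction n with
    | zero => intro a; simp
    | succ n ih =>
      intro a
      rw [Function.iterate_succ_apply', ih, Function.iterate_succ_apply']
      simp
  refine ⟨fun x => e.symm (U (e x)), 1 + B * K * A ^ α, 1 + B * M, ?_, ?_, ?_, ?_, ?_, ?_⟩
  · have : 0 ≤ B * K * A ^ α := by positivity
    linarith
  · have : 0 ≤ B * M := by positivity
    linarith
  · intro n hn a b
    rw [hit, hit, ← map_sub]
    refine (hBe _).trans ?_
    have h1 := hlip n hn (e a) (e b)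
    have h2 := hAe (a - b)
    rw [map_sub] at h2
    have h3 := norm_nonneg (a - b)
    have h4 : ‖e a - e b‖ ^ α ≤ A ^ α * ‖a - b‖ ^ α := by
      rw [← Real.mul_rpow hA0 h3]
      exact Real.rpow_le_rpow (norm_nonneg _) h2 hα.le
    have h5 : 0 ≤ ‖a - b‖ ^ α := Real.rpow_nonneg h3 _
    calc B * ‖U^[n] (e a) - U^[n] (e b)‖ ≤ B * (K * (A ^ α * ‖a - b‖ ^ α)) := by
          gcongr
          exact h1.trans (by gcongr)
      _ ≤ (1 + B * K * A ^ α) * ‖a - b‖ ^ α := by nlinarith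
  · intro a
    refine (hBe _).trans ?_
    have := hbd (e a)
    nlinarith
  · intro a ha
    apply hfix (e a)
    have := congrArg e ha
    simpa using this
  · intro η hη
    obtain ⟨a, ha1, ha2⟩ := hdisp (η / (1 + B)) (by positivity)
    refine ⟨e.symm a, ?_, ?_⟩
    · refine (hBe _).trans ?_
      nlinarith
    · simp only [ContinuousLinearEquiv.apply_symm_apply]
      rw [← map_sub]
      refine lt_of_le_of_lt (hBe _) ?_
      rw [lt_div_iff₀ (by positivity)] at ha2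
      have := norm_nonneg (a - U a)
      nlinarith

theorem exists_hyperplane {X : Type*} [NormedAddCommGroup X] [NormedSpace ℝ X]
    (hX : ¬ FiniteDimensional ℝ X) : ∃ Y : Submodule ℝ X, ¬ FiniteDimensional ℝ Y ∧
      Nonempty (X ≃L[ℝ] (Y × ℝ)) := by
  have hnt : ∃ x : X, x ≠ 0 := by
    by_contra hcon
    push Not at hcon
    apply hX
    have : Subsingleton X := ⟨fun a b => by rw [hcon a, hcon b]⟩
    infer_instance
  obtain ⟨x, hx⟩ := hnt
  obtain ⟨f, _, hf⟩ := exists_dual_vector ℝ x (norm_ne_zero_iff.2 hx)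
  have hfx : f x ≠ 0 := by
    rw [hf]
    simpa using hx
  set v : X := (f x)⁻¹ • x with hv
  have hfv : f v = 1 := by
    rw [hv, map_smul, smul_eq_mul, inv_mul_cancel₀ hfx]
  set Y : Submodule ℝ X := LinearMap.ker (f : X →ₗ[ℝ] ℝ) with hY
  let p : X →L[ℝ] X := ContinuousLinearMap.id ℝ X - f.smulRight v
  have hp : ∀ y, p y ∈ Y := by
    intro y
    change f (y - f y • v) = 0
    rw [map_sub, map_smul, hfv, smul_eq_mul, mul_one, sub_self]
  let F : X →L[ℝ] (Y × ℝ) := (p.codRestrict Y hp).prod f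
  let G : (Y × ℝ) →L[ℝ] X := Y.subtypeL.coprod ((ContinuousLinearMap.id ℝ ℝ).smulRight v)
  have hG : ∀ q : Y × ℝ, G q = (q.1 : X) + q.2 • v := fun q => by
    simp [G]
  have hF1 : ∀ y, ((F y).1 : X) = y - f y • v := fun y => by
    simp [F, p]
  have hF2 : ∀ y, (F y).2 = f y := fun y => rfl
  have e : X ≃L[ℝ] (Y × ℝ) := ContinuousLinearEquiv.equivOfInverse F G
    (fun y => by rw [hG, hF1, hF2]; abel)
    (fun q => by
      have hq : f (q.1 : X) = 0 := q.1.2
      have h1 : f (G q) = q.2 := by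
        rw [hG, map_add, hq, map_smul, hfv, smul_eq_mul, mul_one, zero_add]
      refine Prod.ext (Subtype.ext ?_) ?_
      · rw [hF1, h1, hG]; abel
      · rw [hF2, h1])
  refine ⟨Y, fun hfin => hX ?_, ⟨e⟩⟩
  have : FiniteDimensional ℝ (Y × ℝ) := inferInstance
  exact LinearEquiv.finiteDimensional e.symm.toLinearEquiv

end Pool.Agent.TH828.J1156
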