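import Pool.Agent.TH598.GV.Defs
import Pool.Agent.W666.GB.Main

set_option autoImplicit false

namespace Pool.Agent.TH828.J3423

open Finset Pool.Agent.TH598.GV Pool.Agent.W666.GB
open scoped ComplexConjugate

/-- the value of a real `4`-tensor on four vectors -/
noncomputable def rq {I : Type} [Fintype I] (R : I → I → I → I → ℝ) (a b c d : I → ℝ) : ℝ :=
  ∑ i, ∑ j, ∑ i', ∑ j', R i j i' j' * (a i * b j * c i' * d j')

section bil

variable {J P : Type} [Fintype J] [DecidableEq J] [Fintype P]

/-- extension by zero -/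
noncomputable def ex (i : P → J) (f : P → ℝ) (a : J) : ℝ := ∑ t, if i t = a then f t else 0

/-- extension by zero -/
noncomputable def exm (i : P → J) (p : P → P → ℝ) (a b : J) : ℝ :=
  ∑ t, ∑ s, if i t = a ∧ i s = b then p t s else 0

theorem sum_exm (i : P → J) (p : P → P → ℝ) (F : J → J → ℝ) :
    ∑ a, ∑ b, F a b * exm i p a b = ∑ t, ∑ s, F (i t) (i s) * p t s := by
  have h : ∀ a b, F a b * exm i p a b =
      ∑ t, ∑ s, F a b * (if i t = a ∧ i s = b then p t s else 0) := by
    intro a b
    simp only [exm, Finset.mul_sum]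
  simp only [h]
  rw [Finset.sum_congr rfl fun a _ => Finset.sum_comm, Finset.sum_comm]
  refine Finset.sum_congr rfl fun t _ => ?_
  rw [Finset.sum_congr rfl fun a _ => Finset.sum_comm, Finset.sum_comm]
  refine Finset.sum_congr rfl fun s _ => ?_
  rw [Finset.sum_eq_single (i t), Finset.sum_eq_single (i s)]
  · simp
  · intro b _ hb
    rw [if_neg, mul_zero]
    exact fun h => hb h.2.symm
  · intro h; exact absurd (Finset.mem_univ _) h
  · intro a _ ha
    refine Finset.sum_eq_zero fun b _ => ?_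
    rw [if_neg, mul_zero]
    exact fun h => ha h.1.symm
  · intro h; exact absurd (Finset.mem_univ _) h

omit [Fintype J] in
theorem ex_mul (i : P → J) (x u : P → ℝ) (a b : J) :
    ex i x a * ex i u b = exm i (fun t s => x t * u s) a b := by
  simp only [ex, exm, Finset.sum_mul_sum]
  refine Finset.sum_congr rfl fun t _ => Finset.sum_congr rfl fun s _ => ?_
  by_cases h1 : i t = a
  · by_cases h2 : i s = b
    · simp [h1, h2]
    · simp [h1, h2]
  · simp [h1]

/-- bilinear form -/
noncomputable def QQ {I : Type} [Fintype I] (R : I → I → I → I → ℝ) (p q : I → I → ℝ) : ℝ :=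
  ∑ a, ∑ b, ∑ c, ∑ d, R a b c d * (p a b * q c d)

theorem QQ_push (R : J → J → J → J → ℝ) (i : P → J) (p q : P → P → ℝ) :
    QQ R (exm i p) (exm i q) = QQ (pb R i) p q := by
  have h1 : ∀ a b, ∑ c, ∑ d, R a b c d * (exm i p a b * exm i q c d) =
      (∑ c, ∑ d, R a b (i c) (i d) * q c d) * exm i p a b := by
    intro a b
    rw [← sum_exm i q (fun c d => R a b c d), Finset.sum_mul]
    refine Finset.sum_congr rfl fun c _ => ?_
    rw [Finset.sum_mul]
    exact Finset.sum_congr rfl fun d _ => by ring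
  unfold QQ
  simp only [h1]
  rw [sum_exm i p (fun a b => ∑ c, ∑ d, R a b (i c) (i d) * q c d)]
  refine Finset.sum_congr rfl fun t _ => Finset.sum_congr rfl fun s _ => ?_
  rw [Finset.sum_mul]
  refine Finset.sum_congr rfl fun c _ => ?_
  rw [Finset.sum_mul]
  exact Finset.sum_congr rfl fun d _ => by simp only [pb]; ring

theorem rq_eq {I : Type} [Fintype I] (R : I → I → I → I → ℝ) (x u y v : I → ℝ) :
    rq R x u y v = QQ R (fun a b => x a * u b) (fun a b => y a * v b) := by
  unfold rq QQ
  refine Finset.sum_congr rfl fun a _ => Finset.sum_congr rfl fun b _ =>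
    Finset.sum_congr rfl fun c _ => Finset.sum_congr rfl fun d _ => by ring

theorem rq_push (R : J → J → J → J → ℝ) (i : P → J) (x u y v : P → ℝ) :
    rq R (ex i x) (ex i u) (ex i y) (ex i v) = rq (pb R i) x u y v := by
  rw [rq_eq, rq_eq, ← QQ_push]
  simp only [ex_mul]

theorem QQ_symm {I : Type} [Fintype I] (R : I → I → I → I → ℝ)
    (pair : ∀ i j k l, R k l i j = R i j k l) (p q : I → I → ℝ) : QQ R p q = QQ R q p := by
  have e : ∀ p q : I → I → ℝ, QQ R p q =
      ∑ x : I × I, ∑ y : I × I, R x.1 x.2 y.1 y.2 * (p x.1 x.2 * q y.1 y.2) := by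
    intro p q
    rw [Fintype.sum_prod_type]
    refine Finset.sum_congr rfl fun a _ => Finset.sum_congr rfl fun b _ => ?_
    rw [Fintype.sum_prod_type]
  rw [e, e, Finset.sum_comm]
  refine Finset.sum_congr rfl fun x _ => Finset.sum_congr rfl fun y _ => ?_
  rw [pair]; ring

theorem QQ_add_left {I : Type} [Fintype I] (R : I → I → I → I → ℝ) (p p' q : I → I → ℝ) :
    QQ R (fun a b => p a b + p' a b) q = QQ R p q + QQ R p' q := by
  unfold QQ
  simp only [← Finset.sum_add_distrib]
  refine Finset.sum_congr rfl fun a _ => Finset.sum_congr rfl fun b _ =>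
    Finset.sum_congr rfl fun c _ => Finset.sum_congr rfl fun d _ => by ring

theorem QQ_smul_left {I : Type} [Fintype I] (R : I → I → I → I → ℝ) (t : ℝ) (p q : I → I → ℝ) :
    QQ R (fun a b => t * p a b) q = t * QQ R p q := by
  unfold QQ
  simp only [Finset.mul_sum]
  refine Finset.sum_congr rfl fun a _ => Finset.sum_congr rfl fun b _ =>
    Finset.sum_congr rfl fun c _ => Finset.sum_congr rfl fun d _ => by ring

theorem QQ_quad {I : Type} [Fintype I] (R : I → I → I → I → ℝ)
    (pair : ∀ i j k l, R k l i j = R i j k l) (t : ℝ) (p q : I → I → ℝ) :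
    QQ R (fun a b => p a b + t * q a b) (fun a b => p a b + t * q a b) =
      QQ R p p + 2 * t * QQ R p q + t ^ 2 * QQ R q q := by
  have h : ∀ r, QQ R (fun a b => p a b + t * q a b) r = QQ R p r + t * QQ R q r := by
    intro r
    rw [QQ_add_left R p (fun a b => t * q a b) r, QQ_smul_left]
  rw [h, QQ_symm R pair p, QQ_symm R pair q, h, h, QQ_symm R pair q p]
  ring

theorem re_herm {I : Type} [Fintype I] (R : I → I → I → I → ℝ) (p : I → I → ℂ) :
    (∑ i, ∑ j, ∑ i', ∑ j', ((R i j i' j' : ℝ) : ℂ) * (p i j * conj (p i' j'))).re =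
      QQ R (fun a b => (p a b).re) (fun a b => (p a b).re) +
        QQ R (fun a b => (p a b).im) (fun a b => (p a b).im) := by
  unfold QQ
  simp only [Complex.re_sum, ← Finset.sum_add_distrib]
  refine Finset.sum_congr rfl fun a _ => Finset.sum_congr rfl fun b _ =>
    Finset.sum_congr rfl fun c _ => Finset.sum_congr rfl fun d _ => ?_
  simp [Complex.mul_re, Complex.mul_im]
  ring

theorem re_qf {I : Type} [Fintype I] (R : I → I → I → I → ℝ)
    (pair : ∀ i j k l, R k l i j = R i j k l) (z w : I → ℂ) :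
    (qf (fun a b c d => ((R a b c d : ℝ) : ℂ)) z w).re =
      rq R (fun a => (z a).re) (fun a => (w a).re) (fun a => (z a).re) (fun a => (w a).re) +
      rq R (fun a => (z a).im) (fun a => (w a).im) (fun a => (z a).im) (fun a => (w a).im) +
      rq R (fun a => (z a).re) (fun a => (w a).im) (fun a => (z a).re) (fun a => (w a).im) +
      rq R (fun a => (z a).im) (fun a => (w a).re) (fun a => (z a).im) (fun a => (w a).re) -
      2 * rq R (fun a => (z a).re) (fun a => (w a).re) (fun a => (z a).im) (fun a => (w a).im) +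
      2 * rq R (fun a => (z a).re) (fun a => (w a).im) (fun a => (z a).im) (fun a => (w a).re) := by
  have h1 : qf (fun a b c d => ((R a b c d : ℝ) : ℂ)) z w =
      ∑ i, ∑ j, ∑ i', ∑ j', ((R i j i' j' : ℝ) : ℂ) * ((z i * w j) * conj (z i' * w j')) := by
    unfold qf
    refine Finset.sum_congr rfl fun a _ => Finset.sum_congr rfl fun b _ =>
      Finset.sum_congr rfl fun c _ => Finset.sum_congr rfl fun d _ => ?_
    rw [map_mul]; ring
  rw [h1, re_herm R (fun i j => z i * w j)]
  have h2 : (fun a b => (z a * w b).re) =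
      fun a b => (z a).re * (w b).re + (-1) * ((z a).im * (w b).im) := by
    ext a b; rw [Complex.mul_re]; ring
  have h3 : (fun a b => (z a * w b).im) =
      fun a b => (z a).re * (w b).im + 1 * ((z a).im * (w b).re) := by
    ext a b; rw [Complex.mul_im]; ring
  rw [h2, h3, QQ_quad R pair (-1) (fun a b => (z a).re * (w b).re) (fun a b => (z a).im * (w b).im),
    QQ_quad R pair 1 (fun a b => (z a).re * (w b).im) (fun a b => (z a).im * (w b).re)]
  simp only [rq_eq]
  ring

end bil

/-- the statement of `gen` -/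
def Gen : Prop := ∀ (B : Type) [Fintype B] [DecidableEq B]
    (H : B × Bool → B × Bool → B × Bool → B × Bool → ℂ) (_ : HS H) (i0 : B × Bool)
    (_ : ∀ p : B × Bool → B × Bool → ℂ, (∀ j, p i0 j = 0) → (∀ j, p j i0 = 0) →
      0 ≤ (∑ i, ∑ j, ∑ i', ∑ j', H i j i' j' * (p i j * conj (p i' j'))).re)
    (_ : ∀ z w : B × Bool → ℂ, 0 ≤ (qf H z w).re), 0 ≤ (GG H).re

theorem GG_re {B : Type} [Fintype B] [DecidableEq B]
    (R : B × Bool → B × Bool → B × Bool → B × Bool → ℝ) :
    (GG (fun a b c d => ((R a b c d : ℝ) : ℂ))).re =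
      ∑ σ : Equiv.Perm (B × Bool), ∑ τ : Equiv.Perm (B × Bool), sn σ * sn τ *
        ∏ b : B, R (σ (b, false)) (σ (b, true)) (τ (b, false)) (τ (b, true)) := by
  have h : GG (fun a b c d => ((R a b c d : ℝ) : ℂ)) =
      ((∑ σ : Equiv.Perm (B × Bool), ∑ τ : Equiv.Perm (B × Bool), sn σ * sn τ *
        ∏ b : B, R (σ (b, false)) (σ (b, true)) (τ (b, false)) (τ (b, true)) : ℝ) : ℂ) := by
    unfold GG
    push_cast
    simp only [cs, sn]
    push_cast
    rfl
  rw [h, Complex.ofReal_re]

section main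

variable {m : ℕ}

theorem pull_nonneg (gen : Gen) (R : Fin m × Bool → Fin m × Bool → Fin m × Bool → Fin m × Bool → ℝ)
    (alt : ∀ i j k l, R j i k l = - R i j k l) (pair : ∀ i j k l, R k l i j = R i j k l)
    (i0 : Fin m × Bool)
    (hB : ∀ p : Fin m × Bool → Fin m × Bool → ℝ, (∀ j, p i0 j = 0) → (∀ j, p j i0 = 0) →
      0 ≤ ∑ i, ∑ j, ∑ i', ∑ j', R i j i' j' * (p i j * p i' j'))
    (hK : ∀ x y u v : Fin m × Bool → ℝ, 0 ≤ rq R x u x u + rq R y v y v + rq R x v x v +
      rq R y u y u - 2 * rq R x u y v + 2 * rq R x v y u)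
    (T : Finset (Fin m)) (hT : T.Nonempty) (i : T × Bool → Fin m × Bool)
    (hi : Function.Injective i) :
    0 ≤ ∑ σ : Equiv.Perm (T × Bool), ∑ τ : Equiv.Perm (T × Bool), sn σ * sn τ *
        ∏ b : T, pb R i (σ (b, false)) (σ (b, true)) (τ (b, false)) (τ (b, true)) := by
  classical
  obtain ⟨t₁, ht₁⟩ := hT
  obtain ⟨t0, ht0⟩ : ∃ t0 : T × Bool, ∀ t, i t = i0 → t = t0 := by
    by_cases h : ∃ t, i t = i0
    · obtain ⟨t, ht⟩ := h
      exact ⟨t, fun s hs => hi (hs.trans ht.symm)⟩
    · push Not at h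
      exact ⟨(⟨t₁, ht₁⟩, false), fun t ht => absurd ht (h t)⟩
  rw [← GG_re (pb R i)]
  have pair' : ∀ a b c d, pb R i c d a b = pb R i a b c d := fun a b c d => pair _ _ _ _
  have hBr : ∀ p : T × Bool → T × Bool → ℝ, (∀ j, p t0 j = 0) → (∀ j, p j t0 = 0) →
      0 ≤ QQ (pb R i) p p := by
    intro p h1 h2
    rw [← QQ_push R i p p]
    refine hB (exm i p) ?_ ?_
    · intro j
      refine Finset.sum_eq_zero fun t _ => Finset.sum_eq_zero fun s _ => ?_
      split_ifs with h
      · rw [ht0 t h.1]; exact h1 s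
      · rfl
    · intro j
      refine Finset.sum_eq_zero fun t _ => Finset.sum_eq_zero fun s _ => ?_
      split_ifs with h
      · rw [ht0 s h.2]; exact h2 t
      · rfl
  refine gen T (fun a b c d => ((pb R i a b c d : ℝ) : ℂ)) ⟨?_, ?_⟩ t0 ?_ ?_
  · intro a b c d
    rw [Complex.conj_ofReal, pair']
  · intro a b c d
    simp only [pb]
    rw [alt]
    push_cast
    rfl
  · intro p h1 h2
    rw [re_herm (pb R i) p]
    refine add_nonneg (hBr _ ?_ ?_) (hBr _ ?_ ?_)
    · intro j; simp only [h1, Complex.zero_re]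
    · intro j; simp only [h2, Complex.zero_re]
    · intro j; simp only [h1, Complex.zero_im]
    · intro j; simp only [h2, Complex.zero_im]
  · intro z w
    rw [re_qf (pb R i) pair' z w]
    simp only [← rq_push]
    exact hK _ _ _ _

/-- **The quantitative coordinate theorem** for real tensors, from `gen`. -/
theorem quant_of (gen : Gen)
    (R : Fin m × Bool → Fin m × Bool → Fin m × Bool → Fin m × Bool → ℝ)
    (alt : ∀ i j k l, R j i k l = - R i j k l) (pair : ∀ i j k l, R k l i j = R i j k l)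
    (i0 : Fin m × Bool)
    (hB : ∀ p : Fin m × Bool → Fin m × Bool → ℝ, (∀ j, p i0 j = 0) → (∀ j, p j i0 = 0) →
      0 ≤ ∑ i, ∑ j, ∑ i', ∑ j', R i j i' j' * (p i j * p i' j'))
    (hK : ∀ x y u v : Fin m × Bool → ℝ, 0 ≤ rq R x u x u + rq R y v y v + rq R x v x v +
      rq R y u y u - 2 * rq R x u y v + 2 * rq R x v y u) (κ : ℝ) (hκ : 0 ≤ κ) :
    2 ^ m * ((2 * m).factorial : ℝ) * κ ^ m ≤
      ∑ σ : Equiv.Perm (Fin m × Bool), ∑ τ : Equiv.Perm (Fin m × Bool),
        ((Equiv.Perm.sign σ : ℤ) : ℝ) * ((Equiv.Perm.sign τ : ℤ) : ℝ) *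
          ∏ b : Fin m, (R (σ (b, false)) (σ (b, true)) (τ (b, false)) (τ (b, true)) +
            κ * Pool.Agent.W666.GB.unitCurv (σ (b, false)) (σ (b, true)) (τ (b, false))
              (τ (b, true))) := by
  classical
  have alt2 : ∀ a b c d, R a b d c = - R a b c d := fun a b c d => by
    rw [← pair a b d c, ← pair a b c d, alt]
  obtain ⟨C, hC⟩ : ∃ C : Fin m × Bool → Fin m × Bool → Fin m × Bool → Fin m × Bool → ℝ,
      C = fun a b c d => R a c b d / 2 := ⟨_, rfl⟩
  have h1 := lift_sum (B := Fin m)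
    (fun a b c d => κ * (if a = b then 1 else 0) * (if c = d then 1 else 0) + C a b c d)
    (fun i j k l => R i j k l + κ * unitCurv i j k l) (by
      intro a b c d
      simp only [hC, unitCurv]
      rw [alt2 a b c d]
      ring)
  have h1' : ∑ σ : Equiv.Perm (Fin m × Bool), ∑ τ : Equiv.Perm (Fin m × Bool),
        ((Equiv.Perm.sign σ : ℤ) : ℝ) * ((Equiv.Perm.sign τ : ℤ) : ℝ) *
          ∏ b : Fin m, (R (σ (b, false)) (σ (b, true)) (τ (b, false)) (τ (b, true)) +
            κ * Pool.Agent.W666.GB.unitCurv (σ (b, false)) (σ (b, true)) (τ (b, false))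
              (τ (b, true))) = 2 ^ m * Yf (fun a b c d => κ * (if a = b then 1 else 0) *
                (if c = d then 1 else 0) + C a b c d) := by
    rw [Fintype.card_fin] at h1
    exact h1
  rw [h1', mul_assoc]
  refine mul_le_mul_of_nonneg_left ?_ (by positivity)
  rw [Yf_expand, Fintype.card_fin]
  have h0 : ∑ σ : Equiv.Perm (Fin m × Bool), yf (pb C (σ ∘ iT (∅ : Finset (Fin m)))) =
      ((2 * m).factorial : ℝ) := by
    have h2 : ∀ i : (∅ : Finset (Fin m)) × Bool → Fin m × Bool, yf (pb C i) = 1 := by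
      intro i
      have : IsEmpty (∅ : Finset (Fin m)) := by
        constructor
        rintro ⟨x, hx⟩
        exact absurd hx (Finset.notMem_empty x)
      unfold yf
      rw [Fintype.sum_eq_single (1 : Equiv.Perm ((∅ : Finset (Fin m)) × Bool))]
      · rw [sn_one, Finset.prod_eq_one, one_mul]
        intro b _
        exact isEmptyElim b
      · intro ρ hρ
        exact absurd (Equiv.ext fun x => isEmptyElim x.1) hρ
    simp only [h2]
    rw [Finset.sum_const, Finset.card_univ, Fintype.card_perm, Fintype.card_prod,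
      Fintype.card_fin, Fintype.card_bool, nsmul_eq_mul, mul_one, mul_comm m 2]
  have hT : ∀ T : Finset (Fin m), 0 ≤ κ ^ (m - T.card) *
      ∑ σ : Equiv.Perm (Fin m × Bool), yf (pb C (σ ∘ iT T)) := by
    intro T
    refine mul_nonneg (pow_nonneg hκ _) ?_
    rcases T.eq_empty_or_nonempty with hE | hne
    · subst hE
      rw [h0]; positivity
    have hY : ∀ σ : Equiv.Perm (Fin m × Bool), 0 ≤ Yf (pb C (σ ∘ iT T)) := by
      intro σ
      have h3 := pull_nonneg gen R alt pair i0 hB hK T hne (σ ∘ iT T)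
        (σ.injective.comp (iT_injective T))
      have h4 := lift_sum (B := T) (pb C (σ ∘ iT T)) (pb R (σ ∘ iT T)) (by
        intro a b c d
        simp only [hC, pb]
        rw [alt2 (((σ : Fin m × Bool → Fin m × Bool) ∘ iT T) a)]
        ring)
      rw [h4] at h3
      have : (0 : ℝ) < 2 ^ Fintype.card T := by positivity
      exact nonneg_of_mul_nonneg_right h3 this
    have hsum : ∑ σ : Equiv.Perm (Fin m × Bool), Yf (pb C (σ ∘ iT T)) =
        ((Fintype.card (T × Bool)).factorial : ℝ) *
          ∑ σ : Equiv.Perm (Fin m × Bool), yf (pb C (σ ∘ iT T)) := by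
      simp only [Yf_eq_sum_yf]
      rw [Finset.sum_comm]
      have : ∀ π : Equiv.Perm (T × Bool), ∑ σ : Equiv.Perm (Fin m × Bool),
          yf (pb (pb C (σ ∘ iT T)) π) =
          ∑ σ : Equiv.Perm (Fin m × Bool), yf (pb C (σ ∘ iT T)) := by
        intro π
        rw [← Equiv.sum_comp (Equiv.mulRight (xT T π))
          (fun σ : Equiv.Perm (Fin m × Bool) => yf (pb C (σ ∘ iT T)))]
        refine Finset.sum_congr rfl fun σ _ => ?_
        have : (pb (pb C (σ ∘ iT T)) π) =
            pb C ((Equiv.mulRight (xT T π) σ : Equiv.Perm (Fin m × Bool)) ∘ iT T) := by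
          funext a b c d
          simp only [pb, Function.comp, Equiv.coe_mulRight, Equiv.Perm.mul_apply, xT_apply]
        rw [this]
      rw [Finset.sum_congr rfl fun π _ => this π, Finset.sum_const, Finset.card_univ,
        Fintype.card_perm, nsmul_eq_mul]
    have hpos : (0 : ℝ) < ((Fintype.card (T × Bool)).factorial : ℝ) := by
      exact_mod_cast Nat.factorial_pos _
    refine nonneg_of_mul_nonneg_right ?_ hpos
    rw [← hsum]
    exact Finset.sum_nonneg fun σ _ => hY σ
  have h5 := Finset.single_le_sum (f := fun T : Finset (Fin m) => κ ^ (m - T.card) *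
      ∑ σ : Equiv.Perm (Fin m × Bool), yf (pb C (σ ∘ iT T))) (fun T _ => hT T)
      (Finset.mem_univ (∅ : Finset (Fin m)))
  refine le_trans (le_of_eq ?_) h5
  simp only [Finset.card_empty, Nat.sub_zero]
  rw [h0]; ring

end main

end Pool.Agent.TH828.J3423
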