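import Pool.Agent.TH806.LK.Defs

/-!
Job 2462 (LK SET, requested by helper806): existence of the configurations.
-/

set_option autoImplicit false

namespace Pool.Agent.TH828.LK_SET

open Finset Filter Topology
open Pool.Agent.W184.NZ
open Pool.Agent.TH806
open Pool.Agent.TH806.LK

/-- the blocks without the small primes -/
noncomputable def IS (P : ℕ) (y : ℝ) (i : ℕ) : Finset ℕ := (II y i).filter fun p => P ≤ p

theorem IS_sub (P : ℕ) (y : ℝ) (i : ℕ) : IS P y i ⊆ II y i := filter_subset _ _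

theorem vI_IS_le (P : ℕ) (y : ℝ) (i : ℕ) : vI (IS P y i) ≤ vI (II y i) := by
  unfold vI
  exact sum_le_sum_of_subset_of_nonneg (IS_sub P y i) fun _ _ _ => by positivity

theorem uI_IS_le (P : ℕ) (y : ℝ) (i : ℕ) : uI (IS P y i) ≤ uI (II y i) := by
  unfold uI
  exact sum_le_sum_of_subset_of_nonneg (IS_sub P y i) fun _ _ _ => by positivity

theorem tail (e : ℝ) (he : 0 < e) : ∃ P₁ : ℕ, ∀ s : Finset ℕ, (∀ p ∈ s, P₁ ≤ p) →
    ∑ p ∈ s, (p:ℝ) ^ (-(3 / 2 : ℝ)) ≤ e := by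
  have hs : Summable (fun n : ℕ => (n:ℝ) ^ (-(3 / 2 : ℝ))) := by
    rw [Real.summable_nat_rpow]; norm_num
  obtain ⟨s0, h0⟩ := summable_iff_vanishing_norm.1 hs e he
  refine ⟨s0.sup id + 1, fun s hP => ?_⟩
  have h1 := h0 s (by
    rw [disjoint_left]
    intro p hp hp0
    have h2 := hP p hp
    have h3 : p ≤ s0.sup id := le_sup (f := id) hp0
    omega)
  exact (le_abs_self _).trans h1.le

theorem sum_uI (P : ℕ) {y : ℝ} (hy : 1 ≤ y) (J : ℕ) : ∑ i ∈ range J, uI (IS P y i) =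
    ∑ p ∈ (PF y (bb y J)).filter (fun p => P ≤ p), (p:ℝ) ^ (-(3 / 2 : ℝ)) := by
  unfold uI IS
  simp only [sum_filter]
  exact sum_II hy (fun p => if P ≤ p then (p:ℝ) ^ (-(3 / 2 : ℝ)) else 0) J

theorem sum_vI_lower (P : ℕ) {y : ℝ} (hy : 1 ≤ y) (J : ℕ) :
    ∑ i ∈ range J, vI (II y i) ≤ ∑ i ∈ range J, vI (IS P y i) + P := by
  have h1 : ∑ i ∈ range J, vI (II y i) = ∑ i ∈ range J, vI (IS P y i) +
      ∑ p ∈ PF y (bb y J), (if P ≤ p then 0 else 1 / (p:ℝ)) := by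
    rw [← sum_II hy (fun p => if P ≤ p then 0 else 1 / (p:ℝ)) J, ← sum_add_distrib]
    refine sum_congr rfl fun i _ => ?_
    unfold vI IS
    rw [sum_filter, ← sum_add_distrib]
    refine sum_congr rfl fun p _ => ?_
    by_cases h : P ≤ p
    · rw [if_pos h, if_pos h, add_zero]
    · rw [if_neg h, if_neg h, zero_add]
  have h2 : ∑ p ∈ PF y (bb y J), (if P ≤ p then 0 else 1 / (p:ℝ)) ≤ P := by
    have h3 : ∑ p ∈ PF y (bb y J), (if P ≤ p then 0 else 1 / (p:ℝ)) =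
        ∑ p ∈ (PF y (bb y J)).filter (fun p => ¬ P ≤ p), 1 / (p:ℝ) := by
      rw [sum_filter]
      refine sum_congr rfl fun p _ => ?_
      by_cases h : P ≤ p
      · rw [if_pos h, if_neg (by simpa using h)]
      · rw [if_neg h, if_pos h]
    rw [h3]
    have h4 : (PF y (bb y J)).filter (fun p => ¬ P ≤ p) ⊆ range P := by
      intro p hp
      rw [mem_filter] at hp
      rw [mem_range]
      omega
    calc ∑ p ∈ (PF y (bb y J)).filter (fun p => ¬ P ≤ p), 1 / (p:ℝ)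
        ≤ ∑ p ∈ range P, 1 / (p:ℝ) :=
          sum_le_sum_of_subset_of_nonneg h4 fun _ _ _ => by positivity
      _ ≤ ∑ p ∈ range P, (1:ℝ) := by
          refine sum_le_sum fun p _ => ?_
          rcases Nat.eq_zero_or_pos p with h | h
          · subst h; simp
          · have : (1:ℝ) ≤ p := by exact_mod_cast h
            rw [div_le_one (by linarith)]
            exact this
      _ = P := by simp
  linarith

theorem t_SET : P_SET := by
  obtain ⟨c, hc0, hc⟩ := ranges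
  refine ⟨c, hc0, fun e he => ?_⟩
  obtain ⟨P₁, hP₁⟩ := tail e he
  refine ⟨P₁, fun P₂ hP => ⟨c + P₂, by positivity, fun y hy => ?_⟩⟩
  have hy1 : 1 ≤ y := by linarith
  obtain ⟨J, hR, -, -, hv⟩ := hc y hy
  rw [abs_le] at hv
  have hV : VV (IS P₂ y) J ≤ ∑ i ∈ range J, vI (II y i) :=
    sum_le_sum fun i _ => vI_IS_le P₂ y i
  refine ⟨J, IS P₂ y, ⟨hy, hc0, ⟨?_, ?_, hR.b10, ?_, ?_⟩, ?_, ?_, ?_⟩, ?_⟩
  · intro i p hp
    exact hR.pr i p (IS_sub P₂ y i hp)
  · intro i j hij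
    exact disjoint_of_subset_left (IS_sub P₂ y i)
      (disjoint_of_subset_right (IS_sub P₂ y j) (hR.dj i j hij))
  · intro i hi
    exact (vI_IS_le P₂ y i).trans (hR.v i hi)
  · exact (sum_le_sum fun i _ => uI_IS_le P₂ y i).trans hR.U
  · rw [sum_uI P₂ hy1 J]
    apply hP₁
    intro p hp
    exact hP.trans (mem_filter.1 hp).2
  · intro i p hp
    exact (mem_filter.1 hp).2
  · linarith [hv.2]
  · have h1 := sum_vI_lower P₂ hy1 J
    have h2 : VV (IS P₂ y) J = ∑ i ∈ range J, vI (IS P₂ y i) := rfl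
    rw [h2]
    linarith [hv.1]

end Pool.Agent.TH828.LK_SET
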