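import Pool.Agent.TH83.SQ.Defs

/-!
Job 1822 (requested by helper83, MP_120218_co): products of subsets of small primes are spread
modulo `p`.  Written by helper828.
-/

set_option autoImplicit false

namespace Pool.Agent.TH828.SQ1822

open Pool.Agent.TH83.SQ
open Finset
open scoped Pointwise Classical

theorem pr_ne_zero {p : ℕ} (hp : p.Prime) (P : Finset ℕ) (hP : ∀ q ∈ P, q.Prime ∧ q < p)
    {s : Finset ℕ} (hs : s ⊆ P) : ((pr s : ℤ) : ZMod p) ≠ 0 := by
  have : Fact p.Prime := ⟨hp⟩
  unfold pr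
  push_cast
  rw [Finset.prod_ne_zero_iff]
  intro q hq h0
  obtain ⟨hq1, hq2⟩ := hP q (hs hq)
  rw [ZMod.natCast_eq_zero_iff] at h0
  exact absurd (Nat.le_of_dvd hq1.pos h0) (by omega)

theorem cast_inj {p : ℕ} {q q' : ℕ} (hq : q < p) (hq' : q' < p) (h : (q : ZMod p) = q') :
    q = q' := by
  rw [ZMod.natCast_eq_natCast_iff'] at h
  rwa [Nat.mod_eq_of_lt hq, Nat.mod_eq_of_lt hq'] at h

theorem pr_insert {q : ℕ} {s : Finset ℕ} (h : q ∉ s) : pr (insert q s) = (q : ℤ) * pr s := by
  unfold pr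
  rw [Finset.prod_insert h]

theorem gen {p : ℕ} (hp : p.Prime) (P : Finset ℕ) (hP : ∀ q ∈ P, q.Prime ∧ q < p) (r : ZMod p) :
    P.card * (P.powerset.filter fun s => ((pr s : ℤ) : ZMod p) = r).card ≤ 2 * 2 ^ P.card := by
  have : Fact p.Prime := ⟨hp⟩
  set S := P.powerset.filter fun s => ((pr s : ℤ) : ZMod p) = r with hS
  have hSm : ∀ s ∈ S, s ⊆ P ∧ ((pr s : ℤ) : ZMod p) = r := by
    intro s hs
    rw [hS, Finset.mem_filter, Finset.mem_powerset] at hs
    exact hs
  have h1 : ∑ s ∈ S, s.card ≤ 2 ^ P.card := by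
    rw [← Finset.card_sigma, ← Finset.card_powerset]
    refine Finset.card_le_card_of_injOn (fun x => x.1.erase x.2) ?_ ?_
    · intro x hx
      rw [Finset.mem_coe, Finset.mem_sigma] at hx
      rw [Finset.mem_coe, Finset.mem_powerset]
      exact (Finset.erase_subset _ _).trans (hSm _ hx.1).1
    · rintro ⟨s, q⟩ hx ⟨s', q'⟩ hx' h
      rw [Finset.mem_coe, Finset.mem_sigma] at hx hx'
      simp only at h hx hx'
      obtain ⟨hs, hr⟩ := hSm _ hx.1
      obtain ⟨hs', hr'⟩ := hSm _ hx'.1
      have e1 : pr s = (q : ℤ) * pr (s.erase q) := by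
        rw [← pr_insert (Finset.notMem_erase q s), Finset.insert_erase hx.2]
      have e2 : pr s' = (q' : ℤ) * pr (s.erase q) := by
        rw [h, ← pr_insert (Finset.notMem_erase q' s'), Finset.insert_erase hx'.2]
      have hu := pr_ne_zero hp P hP ((Finset.erase_subset q s).trans hs)
      have e3 : (q : ZMod p) * ((pr (s.erase q) : ℤ) : ZMod p) =
          (q' : ZMod p) * ((pr (s.erase q) : ℤ) : ZMod p) := by
        rw [← hr', e1, e2] at hr
        push_cast at hr
        exact hr
      have e4 : q = q' :=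
        cast_inj (hP q (hs hx.2)).2 (hP q' (hs' hx'.2)).2 (mul_right_cancel₀ hu e3)
      subst e4
      have e5 : s = s' := by
        rw [← Finset.insert_erase hx.2, h, Finset.insert_erase hx'.2]
      subst e5
      rfl
  have h2 : ∑ s ∈ S, (P \ s).card ≤ 2 ^ P.card := by
    rw [← Finset.card_sigma, ← Finset.card_powerset]
    refine Finset.card_le_card_of_injOn (fun x => insert x.2 x.1) ?_ ?_
    · intro x hx
      rw [Finset.mem_coe, Finset.mem_sigma] at hx
      rw [Finset.mem_coe, Finset.mem_powerset]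
      exact Finset.insert_subset (Finset.mem_sdiff.1 hx.2).1 (hSm _ hx.1).1
    · rintro ⟨s, q⟩ hx ⟨s', q'⟩ hx' h
      rw [Finset.mem_coe, Finset.mem_sigma] at hx hx'
      simp only at h hx hx'
      obtain ⟨hs, hr⟩ := hSm _ hx.1
      obtain ⟨hs', hr'⟩ := hSm _ hx'.1
      obtain ⟨hq1, hq2⟩ := Finset.mem_sdiff.1 hx.2
      obtain ⟨hq1', hq2'⟩ := Finset.mem_sdiff.1 hx'.2
      have hu : r ≠ 0 := by
        rw [← hr]; exact pr_ne_zero hp P hP hs
      have e3 : (q : ZMod p) * r = (q' : ZMod p) * r := by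
        have := congrArg (fun u => ((pr u : ℤ) : ZMod p)) h
        simp only [pr_insert hq2, pr_insert hq2'] at this
        push_cast at this
        rw [hr, hr'] at this
        exact this
      have e4 : q = q' :=
        cast_inj (hP q hq1).2 (hP q' hq1').2 (mul_right_cancel₀ hu e3)
      subst e4
      have e5 : s = s' := by
        rw [← Finset.erase_insert hq2, h, Finset.erase_insert hq2']
      subst e5
      rfl
  have h3 : ∑ s ∈ S, s.card + ∑ s ∈ S, (P \ s).card = P.card * S.card := by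
    rw [← Finset.sum_add_distrib, mul_comm, ← smul_eq_mul, ← Finset.sum_const]
    refine Finset.sum_congr rfl fun s hs => ?_
    rw [add_comm]
    exact Finset.card_sdiff_add_card_eq_card (hSm s hs).1
  omega

theorem log_mean {ι : Type*} (W : Finset ι) (hW : W.Nonempty) (a : ι → ℝ) (ha : ∀ i ∈ W, 0 < a i) :
    Real.log W.card + (∑ i ∈ W, Real.log (a i)) / W.card ≤ Real.log (∑ i ∈ W, a i) := by
  have hM : (0 : ℝ) < W.card := by exact_mod_cast hW.card_pos
  have hSg : 0 < ∑ i ∈ W, a i := Finset.sum_pos ha hW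
  set A := (∑ i ∈ W, a i) / W.card with hA
  have hA0 : 0 < A := by positivity
  have h1 : ∑ i ∈ W, (Real.log (a i) - Real.log A) ≤ ∑ i ∈ W, (a i / A - 1) := by
    refine Finset.sum_le_sum fun i hi => ?_
    rw [← Real.log_div (ha i hi).ne' hA0.ne']
    exact Real.log_le_sub_one_of_pos (div_pos (ha i hi) hA0)
  rw [Finset.sum_sub_distrib, Finset.sum_sub_distrib, ← Finset.sum_div, Finset.sum_const,
    Finset.sum_const, nsmul_eq_mul, nsmul_eq_mul, mul_one] at h1
  have h2 : (∑ i ∈ W, a i) / A = W.card := by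
    rw [hA]; field_simp
  rw [h2, sub_self] at h1
  have h3 : Real.log A = Real.log (∑ i ∈ W, a i) - Real.log W.card := by
    rw [hA, Real.log_div hSg.ne' hM.ne']
  rw [h3] at h1
  have h4 : (∑ i ∈ W, Real.log (a i)) / W.card ≤ Real.log (∑ i ∈ W, a i) - Real.log W.card := by
    rw [div_le_iff₀ hM]
    linarith
  linarith

theorem caseIIb {p : ℕ} (hp : p.Prime) (P : Finset ℕ) (hP : ∀ q ∈ P, q.Prime ∧ q < p)
    (X B : Finset ℤ) (I : ℕ) (T : Finset ℤ) (hT : T ⊆ X) (hTn : T.Nonempty)
    (hTi : ∀ t ∈ T, ∀ t' ∈ T, ((p : ℤ) ^ I) ∣ t - t' → t = t')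
    (U : Finset ℤ) (hU : U ⊆ B) (hUn : U.Nonempty)
    (hUi : ∀ t ∈ U, ∀ t' ∈ U, ((p : ℤ) ^ I) ∣ t - t' → t = t')
    (β : ℝ) (hβ0 : 0 ≤ β) (hβ : 2 * ((T.card : ℝ) * U.card) ^ 2 ≤ β * P.card) :
    (1 - β) * (Real.log T.card + Real.log U.card) +
      (∑ t ∈ T, ∑ v ∈ U, tau P (cls ((p : ℤ) ^ I) X t) (cls ((p : ℤ) ^ I) B v)) /
        (T.card * U.card) ≤ tau P X B := by
  have : Fact p.Prime := ⟨hp⟩
  have hTc : (0 : ℝ) < T.card := by exact_mod_cast hTn.card_pos
  have hUc : (0 : ℝ) < U.card := by exact_mod_cast hUn.card_pos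
  set Q : ℤ := (p : ℤ) ^ I with hQ
  set W : Finset (ℤ × ℤ) := T ×ˢ U with hW
  have hWn : W.Nonempty := hTn.product hUn
  have hWc : (W.card : ℝ) = T.card * U.card := by rw [hW, Finset.card_product]; push_cast; ring
  have hWc0 : (0 : ℝ) < W.card := by rw [hWc]; positivity
  have hWc1 : (1 : ℝ) ≤ W.card := by exact_mod_cast hWn.card_pos
  -- the pieces
  set D : ℤ → ℤ × ℤ → Finset ℤ := fun d w => dil d (cls Q X w.1) + cls Q B w.2 with hD
  have hDne : ∀ d, ∀ w ∈ W, (D d w).Nonempty := by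
    intro d w hw
    rw [hW, Finset.mem_product] at hw
    refine Finset.Nonempty.add ?_ ?_
    · refine Finset.Nonempty.image ⟨w.1, ?_⟩ _
      rw [cls, Finset.mem_filter]
      exact ⟨hT hw.1, by simp⟩
    · refine ⟨w.2, ?_⟩
      rw [cls, Finset.mem_filter]
      exact ⟨hU hw.2, by simp⟩
  have hDsub : ∀ d, ∀ w ∈ W, D d w ⊆ dil d X + B := by
    intro d w _
    refine Finset.add_subset_add ?_ (Finset.filter_subset _ _)
    exact Finset.image_subset_image (Finset.filter_subset _ _)
  -- good sets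
  set good : Finset ℕ → Prop := fun s => ∀ w ∈ W, ∀ w' ∈ W,
    Q ∣ pr s * (w.1 - w'.1) + (w.2 - w'.2) → w = w' with hgood
  have hbad_case : ∀ s, (∑ w ∈ W, Real.log ((D (pr s) w).card : ℝ)) / W.card ≤
      Real.log ((dil (pr s) X + B).card : ℝ) := by
    intro s
    rw [div_le_iff₀ hWc0, mul_comm, ← nsmul_eq_mul, ← Finset.sum_const]
    refine Finset.sum_le_sum fun w hw => ?_
    refine Real.log_le_log (by exact_mod_cast (hDne _ w hw).card_pos) ?_
    exact_mod_cast Finset.card_le_card (hDsub _ w hw)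
  have hgood_case : ∀ s, good s → Real.log W.card +
      (∑ w ∈ W, Real.log ((D (pr s) w).card : ℝ)) / W.card ≤
      Real.log ((dil (pr s) X + B).card : ℝ) := by
    intro s hs
    refine (log_mean W hWn (fun w => ((D (pr s) w).card : ℝ)) fun w hw => by
      exact_mod_cast (hDne _ w hw).card_pos).trans ?_
    refine Real.log_le_log (Finset.sum_pos (fun w hw => by
      exact_mod_cast (hDne _ w hw).card_pos) hWn) ?_
    have hdisj : ∀ w ∈ W, ∀ w' ∈ W, w ≠ w' → Disjoint (D (pr s) w) (D (pr s) w') := by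
      intro w hw w' hw' hne
      rw [Finset.disjoint_left]
      intro x hx hx'
      apply hne
      refine hs w hw w' hw' ?_
      obtain ⟨y, hy, b, hb, rfl⟩ := Finset.mem_add.1 hx
      obtain ⟨y', hy', b', hb', he⟩ := Finset.mem_add.1 hx'
      obtain ⟨a, ha, rfl⟩ := Finset.mem_image.1 hy
      obtain ⟨a', ha', rfl⟩ := Finset.mem_image.1 hy'
      obtain ⟨k1, hk1⟩ := (Finset.mem_filter.1 ha).2
      obtain ⟨k2, hk2⟩ := (Finset.mem_filter.1 ha').2
      obtain ⟨k3, hk3⟩ := (Finset.mem_filter.1 hb).2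
      obtain ⟨k4, hk4⟩ := (Finset.mem_filter.1 hb').2
      refine ⟨pr s * (k2 - k1) + (k4 - k3), ?_⟩
      have e1 : w.1 = a - Q * k1 := by linarith
      have e2 : w'.1 = a' - Q * k2 := by linarith
      have e3 : w.2 = b - Q * k3 := by linarith
      have e4 : w'.2 = b' - Q * k4 := by linarith
      rw [e1, e2, e3, e4]
      have e5 : b' = pr s * a + b - pr s * a' := by linarith
      rw [e5]
      ring
    have h1 : ∑ w ∈ W, (D (pr s) w).card = (W.biUnion (D (pr s))).card :=
      (Finset.card_biUnion hdisj).symm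
    have h2 : (W.biUnion (D (pr s))).card ≤ (dil (pr s) X + B).card :=
      Finset.card_le_card (Finset.biUnion_subset.2 (hDsub _))
    calc ∑ w ∈ W, ((D (pr s) w).card : ℝ) = ((∑ w ∈ W, (D (pr s) w).card : ℕ) : ℝ) := by
          push_cast; rfl
      _ ≤ _ := by rw [h1]; exact_mod_cast h2
  -- the number of bad sets
  set bad : Finset (Finset ℕ) := P.powerset.filter fun s => ¬ good s with hbad
  have hPc : (0 : ℝ) < P.card := by
    rcases (Nat.cast_nonneg (α := ℝ) P.card).lt_or_eq with h | h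
    · exact h
    · rw [← h, mul_zero] at hβ
      have : 0 < 2 * ((T.card : ℝ) * U.card) ^ 2 := by positivity
      linarith
  have hpair : ∀ w ∈ W, ∀ w' ∈ W, w ≠ w' → P.card * (P.powerset.filter fun s =>
      Q ∣ pr s * (w.1 - w'.1) + (w.2 - w'.2)).card ≤ 2 * 2 ^ P.card := by
    intro w hw w' hw' hne
    rcases (P.powerset.filter fun s =>
      Q ∣ pr s * (w.1 - w'.1) + (w.2 - w'.2)).eq_empty_or_nonempty with h0 | ⟨s0, hs0⟩
    · rw [h0]; simp
    · refine le_trans (Nat.mul_le_mul_left _ (Finset.card_le_card ?_))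
        (gen hp P hP ((pr s0 : ℤ) : ZMod p))
      intro s hs
      rw [Finset.mem_filter] at hs hs0 ⊢
      refine ⟨hs.1, ?_⟩
      rw [hW, Finset.mem_product] at hw hw'
      have h1 : Q ∣ (pr s - pr s0) * (w.1 - w'.1) := by
        have := dvd_sub hs.2 hs0.2
        have e : pr s * (w.1 - w'.1) + (w.2 - w'.2) - (pr s0 * (w.1 - w'.1) + (w.2 - w'.2)) =
          (pr s - pr s0) * (w.1 - w'.1) := by ring
        rwa [e] at this
      by_contra hcon
      have h2 : ¬ (p : ℤ) ∣ pr s - pr s0 := by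
        intro h
        apply hcon
        rw [← sub_eq_zero, ← Int.cast_sub, ZMod.intCast_zmod_eq_zero_iff_dvd]
        exact h
      have h3 : IsCoprime Q (pr s - pr s0) := by
        rw [hQ]
        refine IsCoprime.pow_left ?_
        exact (Int.prime_iff_natAbs_prime.2 (by simpa using hp)).coprime_iff_not_dvd.2 h2
      have h4 : Q ∣ w.1 - w'.1 := h3.dvd_of_dvd_mul_left h1
      have h5 : w.1 = w'.1 := hTi _ hw.1 _ hw'.1 h4
      have h6 : Q ∣ w.2 - w'.2 := by
        have := hs.2
        rw [h5, sub_self, mul_zero, zero_add] at this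
        exact this
      have h7 : w.2 = w'.2 := hUi _ hw.2 _ hw'.2 h6
      exact hne (Prod.ext h5 h7)
  have hbadc : (bad.card : ℝ) ≤ β * 2 ^ P.card := by
    have h1 : bad ⊆ (W ×ˢ W).biUnion fun a => if a.1 = a.2 then ∅ else
        P.powerset.filter fun s => Q ∣ pr s * (a.1.1 - a.2.1) + (a.1.2 - a.2.2) := by
      intro s hs
      rw [hbad, Finset.mem_filter] at hs
      obtain ⟨hsP, hs⟩ := hs
      simp only [hgood] at hs
      push Not at hs
      obtain ⟨w, hw, w', hw', hd, hne⟩ := hs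
      rw [Finset.mem_biUnion]
      refine ⟨(w, w'), Finset.mk_mem_product hw hw', ?_⟩
      rw [if_neg hne, Finset.mem_filter]
      exact ⟨hsP, hd⟩
    have h2 : P.card * bad.card ≤ (W.card * W.card) * (2 * 2 ^ P.card) := by
      calc P.card * bad.card ≤ P.card * ∑ a ∈ W ×ˢ W, (if a.1 = a.2 then ∅ else
            P.powerset.filter fun s => Q ∣ pr s * (a.1.1 - a.2.1) + (a.1.2 - a.2.2)).card :=
            Nat.mul_le_mul_left _ ((Finset.card_le_card h1).trans Finset.card_biUnion_le)
        _ = ∑ a ∈ W ×ˢ W, P.card * (if a.1 = a.2 then ∅ else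
            P.powerset.filter fun s => Q ∣ pr s * (a.1.1 - a.2.1) + (a.1.2 - a.2.2)).card := by
            rw [Finset.mul_sum]
        _ ≤ ∑ a ∈ W ×ˢ W, 2 * 2 ^ P.card := by
            refine Finset.sum_le_sum fun a ha => ?_
            rw [Finset.mem_product] at ha
            split_ifs with h
            · simp
            · exact hpair _ ha.1 _ ha.2 h
        _ = (W.card * W.card) * (2 * 2 ^ P.card) := by
            rw [Finset.sum_const, Finset.card_product, smul_eq_mul]
    have h3 : (P.card : ℝ) * bad.card ≤ (W.card * W.card) * (2 * 2 ^ P.card) := by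
      exact_mod_cast h2
    have h4 : (P.card : ℝ) * bad.card ≤ P.card * (β * 2 ^ P.card) := by
      refine h3.trans ?_
      rw [hWc]
      have h5 : (0 : ℝ) < 2 ^ P.card := by positivity
      nlinarith
    exact le_of_mul_le_mul_left h4 hPc
  -- averaging
  have hN : (0 : ℝ) < 2 ^ P.card := by positivity
  have hlogW : 0 ≤ Real.log W.card := Real.log_nonneg hWc1
  have hsum : (1 - β) * 2 ^ P.card * Real.log W.card +
      ∑ s ∈ P.powerset, (∑ w ∈ W, Real.log ((D (pr s) w).card : ℝ)) / W.card ≤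
      ∑ s ∈ P.powerset, Real.log ((dil (pr s) X + B).card : ℝ) := by
    have h1 : ∑ s ∈ P.powerset, ((∑ w ∈ W, Real.log ((D (pr s) w).card : ℝ)) / W.card +
        if good s then Real.log W.card else 0) ≤
        ∑ s ∈ P.powerset, Real.log ((dil (pr s) X + B).card : ℝ) := by
      refine Finset.sum_le_sum fun s _ => ?_
      split_ifs with h
      · have := hgood_case s h; linarith
      · rw [add_zero]; exact hbad_case s
    rw [Finset.sum_add_distrib, ← Finset.sum_filter, Finset.sum_const, nsmul_eq_mul] at h1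
    have h2 : ((P.powerset.filter good).card : ℝ) + bad.card = 2 ^ P.card := by
      have := Finset.card_filter_add_card_filter_not (s := P.powerset) good
      rw [Finset.card_powerset] at this
      exact_mod_cast this
    have h3 : (1 - β) * 2 ^ P.card ≤ ((P.powerset.filter good).card : ℝ) := by linarith
    have h4 := mul_le_mul_of_nonneg_right h3 hlogW
    linarith
  have hlog : Real.log W.card = Real.log T.card + Real.log U.card := by
    rw [hWc, Real.log_mul hTc.ne' hUc.ne']
  rw [← hlog, ← hWc]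
  have hexp : ∑ t ∈ T, ∑ v ∈ U, tau P (cls Q X t) (cls Q B v) =
      (∑ s ∈ P.powerset, ∑ w ∈ W, Real.log ((D (pr s) w).card : ℝ)) / 2 ^ P.card := by
    rw [hW, ← Finset.sum_product', Finset.sum_comm, Finset.sum_div]
    rfl
  rw [hexp]
  unfold tau
  rw [le_div_iff₀ hN]
  rw [← Finset.sum_div] at hsum
  have e : ((1 - β) * Real.log W.card + (∑ s ∈ P.powerset, ∑ w ∈ W,
      Real.log ((D (pr s) w).card : ℝ)) / 2 ^ P.card / W.card) * 2 ^ P.card =
      (1 - β) * 2 ^ P.card * Real.log W.card +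
      (∑ s ∈ P.powerset, ∑ w ∈ W, Real.log ((D (pr s) w).card : ℝ)) / W.card := by
    field_simp
  rw [e]
  exact hsum

end Pool.Agent.TH828.SQ1822
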